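import Pool.Agent.Lib.MP_688fd0_co.SQ5.H95.ArcC

/-!
Change of the 2-factor away from the layers (helper12): the thread. `F' = F` outside of `T`; the layers and the neighbours of the
layers are not in `T`, the links do not meet `T`. Then the layers of `F` are layers of `F'`.
-/

set_option autoImplicit false

namespace Pool.Agent.Lib.MP_688fd0_co.SQ5.H12

open Function Pool.Agent.Lib.MP_688fd0_co.OSF H64 H95

universe u v w t

variable {G : Type u} [Group G] {B : Lb.{u, v} G}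

/-- Edges at a vertex outside of `T` are the same. -/
theorem ed_of {F F' : HF B} {T : Set G} (h1 : ∀ x, x ∉ T → F'.H x = F.H x) {x y : G} (h : F.Ed x y)
    (hx : x ∉ T ∨ y ∉ T) : F'.Ed x y := by
  rcases hx with hx | hy
  · obtain ⟨g, hg, rfl⟩ := h
    exact ⟨g, by rw [h1 _ hx]; exact hg, rfl⟩
  · obtain ⟨g, hg, rfl⟩ := F.ed_symm h
    exact F'.ed_symm ⟨g, by rw [h1 _ hy]; exact hg, rfl⟩

theorem val_inj {F F' : HF B} {d d' : F.X} {h : d.1.2 ∈ F'.H (F.vt d)} {h' : d'.1.2 ∈ F'.H (F.vt d')}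
    (he : (⟨(F.vt d, d.1.2), h⟩ : F'.X) = ⟨(F.vt d', d'.1.2), h'⟩) : d = d' :=
  Subtype.ext (congrArg (fun e : F'.X => e.1) he)

theorem cn_of {F F' : HF B} {T Rg Rg' : Set G} (h1 : ∀ x, x ∉ T → F'.H x = F.H x) (hR : ∀ x ∈ Rg, x ∉ T ∧ x ∈ Rg')
    {x y : G} (h : H22.Cn F.Ed Rg x y) : H22.Cn F'.Ed Rg' x y :=
  h.mono (fun x hx => (hR x hx).2) fun x _ hx _ he => ed_of h1 he (Or.inl (hR x hx).1)

/-- A path of `F` is a path of `F'` until it meets `T`. -/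
theorem c_or {F F' : HF B} {T : Set G} (h1 : ∀ x, x ∉ T → F'.H x = F.H x) {x y : G} (h : F.C x y) :
    F'.C x y ∨ ∃ z ∈ T, F'.C x z := by
  induction h with
  | refl => exact Or.inl Relation.ReflTransGen.refl
  | @tail b c _ hs ih =>
    rcases ih with ih | ih
    · by_cases hb : b ∈ T
      · exact Or.inr ⟨b, hb, ih⟩
      · obtain ⟨g, hg, rfl⟩ := hs
        exact Or.inl (ih.tail ⟨g, by rw [h1 _ hb]; exact hg, rfl⟩)
    · exact Or.inr ih

section bands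

variable [Fintype G] [DecidableEq G] {A : Set G} {F F' : HF B} {R : Type w} {S : R → Type t} {n : R → ℕ}
  {𝒟 : ∀ r, Set (S r × Bool → S r × Bool)}

/-- THE PATCH LEMMA. -/
noncomputable def patch (Y : Bands A F R S n 𝒟) (F' : HF B) (T : Set G) (h1 : ∀ x, x ∉ T → F'.H x = F.H x)
    (h2 : ∀ a, ∀ x ∈ Y.Z a, x ∉ T) (h3 : ∀ a p, F.vt (Y.pd a p) ∉ T)
    (h4 : ∀ x ∈ T, ∃ a, ∃ y ∈ Y.Z a, F'.C x y)
    (h5 : ∀ r (k : ℕ) (h : k + 1 < n r) (s : S r), H22.Cn F.Ed {x | ¬ Y.W x ∧ x ∉ T}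
      (F.vt (Y.pd ⟨r, ⟨k, Nat.lt_of_succ_lt h⟩⟩ (s, true))) (F.vt (Y.pd ⟨r, ⟨k + 1, h⟩⟩ (s, false)))) :
    Bands A F' R S n 𝒟 where
  Z := Y.Z
  disj := Y.disj
  comp x hx := by
    obtain ⟨a, y, hy, hc⟩ := Y.comp x hx
    rcases c_or h1 hc with h | ⟨z, hz, h⟩
    · exact ⟨a, y, hy, h⟩
    · obtain ⟨a', y', hy', hc'⟩ := h4 z hz
      exact ⟨a', y', hy', h.trans hc'⟩
  pd a p := ⟨(F.vt (Y.pd a p), (Y.pd a p).1.2), by rw [h1 _ (h3 a p)]; exact (Y.pd a p).2⟩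
  pd_inj a p q h := by
    exact Y.pd_inj a (val_inj h)
  pd_out a p b := Y.pd_out a p b
  pd_in a p := Y.pd_in a p
  pd_ex a d hd hd' := by
    -- the dart is a dart of `F`
    have hg : d.1.2 ∈ F.H d.1.1 := by
      have h6 : B.inv d.1.2 ∈ F'.H (d.1.1 * B.q d.1.2) := F'.sym _ _ d.2
      have h6' : d.1.1 * B.q d.1.2 ∉ T := h2 a _ hd'
      rw [h1 _ h6'] at h6
      have h7 := F.sym _ _ h6
      rw [F.ii, B.q_inv, mul_inv_cancel_right] at h7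
      exact h7
    obtain ⟨p, hp⟩ := Y.pd_ex a ⟨d.1, hg⟩ hd hd'
    refine ⟨p, Subtype.ext ?_⟩
    have h8 : (Y.pd a p).1 = d.1 := congrArg Subtype.val hp
    exact h8
  pd_A a p := Y.pd_A a p
  hn := Y.hn
  pair := Y.pair
  link r k h s := by
    refine F'.arc_of_cn (W := Y.W) (p := ⟨(F.vt (Y.pd ⟨r, ⟨k, Nat.lt_of_succ_lt h⟩⟩ (s, true)), _), _⟩)
      (p' := ⟨(F.vt (Y.pd ⟨r, ⟨k + 1, h⟩⟩ (s, false)), _), _⟩) ?_ ?_ ?_ ?_
    · exact ⟨fun ⟨b, hb⟩ => Y.pd_out _ _ b hb, ⟨_, Y.pd_in _ _⟩⟩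
    · exact ⟨fun ⟨b, hb⟩ => Y.pd_out _ _ b hb, ⟨_, Y.pd_in _ _⟩⟩
    · intro he
      have he2 := val_inj he
      have h9 := Y.disj ⟨r, ⟨k + 1, h⟩⟩ ⟨r, ⟨k, Nat.lt_of_succ_lt h⟩⟩ _ (Y.pd_in _ (s, false))
        (by rw [he2]; exact Y.pd_in _ _)
      have h10 : (⟨k + 1, h⟩ : Fin (n r)) = ⟨k, Nat.lt_of_succ_lt h⟩ := eq_of_heq (Sigma.mk.inj h9).2
      have := congrArg Fin.val h10
      simp at this
    · exact cn_of h1 (fun x hx => ⟨hx.2, hx.1⟩) (h5 r k h s)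
  real a d hd := by
    obtain ⟨F'', g1, g2, g3⟩ := Y.real a d hd
    have hpa : ∀ x ∈ (Y.Z a : Set G), ∀ g, x * B.q g ∉ (Y.Z a : Set G) → (g ∈ F''.H x ↔ g ∈ F'.H x) := by
      intro x hx g hy
      rw [h1 _ (h2 a _ hx)]
      constructor
      · intro hg
        have h6 := F''.sym _ _ hg
        rw [g1 _ hy] at h6
        have h7 := F.sym _ _ h6
        rw [F.ii, B.q_inv, mul_inv_cancel_right] at h7
        exact h7
      · intro hg
        have h6 := F.sym _ _ hg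
        rw [← g1 _ hy] at h6
        have h7 := F''.sym _ _ h6
        rw [F''.ii, B.q_inv, mul_inv_cancel_right] at h7
        exact h7
    classical
    refine ⟨HF.patch F' F'' (Y.Z a : Set G) hpa, fun x hx => ?_, fun x hx g hg => ?_, ?_⟩
    · have hx' : x ∉ (Y.Z a : Set G) := hx
      show (if x ∈ (Y.Z a : Set G) then F''.H x else F'.H x) = _
      rw [if_neg hx']
    · have hx' : x ∈ (Y.Z a : Set G) := hx
      have hg' : g ∈ (if x ∈ (Y.Z a : Set G) then F''.H x else F'.H x) := hg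
      rw [if_pos hx'] at hg'
      exact g2 x hx g hg'
    · refine g3.mono fun x y hx _ he => ?_
      obtain ⟨g, hg, rfl⟩ := he
      refine ⟨g, ?_, rfl⟩
      show g ∈ (if x ∈ (Y.Z a : Set G) then F''.H x else F'.H x)
      rw [if_pos hx]
      exact hg

end bands

end Pool.Agent.Lib.MP_688fd0_co.SQ5.H12
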