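import Pool.Agent.Lib.MP_688fd0_co.SQ5.H12.Patch

/-!
A 2-factor changed along alternating cycles (helper12): the edges `v i - w i` (label `lam i`) are removed, the edges
`w i - v (nx i)` (label `mu i`) are added; `nx` a permutation of the index set (one cycle: one closed thread).
-/

set_option autoImplicit false

namespace Pool.Agent.Lib.MP_688fd0_co.SQ5.H12

open Function Pool.Agent.Lib.MP_688fd0_co.OSF H95

universe u v w

variable {G : Type u} [Group G] {B : Lb.{u, v} G}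

/-- The data of the alternating cycles. -/
structure Alt (F : HF B) (I : Type w) where
  v : I → G
  w : I → G
  lam : I → B.L
  mu : I → B.L
  nx : Equiv.Perm I
  w_eq : ∀ i, w i = v i * B.q (lam i)
  v_nx : ∀ i, v (nx i) = w i * B.q (mu i)
  v_inj : Injective v
  w_inj : Injective w
  vw : ∀ i j, v i ≠ w j
  lam_mem : ∀ i, lam i ∈ F.H (v i)
  mu_mem : ∀ i, mu i ∉ F.H (w i)

namespace Alt

variable {F : HF B} {I : Type w} (a : Alt F I)

open Classical in
/-- The labels after the change. -/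
noncomputable def H' (x : G) : Set B.L :=
  if h : ∃ i, a.v i = x then {g | (g ∈ F.H x ∧ g ≠ a.lam h.choose) ∨ g = B.inv (a.mu (a.nx.symm h.choose))}
  else if h : ∃ i, a.w i = x then {g | (g ∈ F.H x ∧ g ≠ B.inv (a.lam h.choose)) ∨ g = a.mu h.choose}
  else F.H x

theorem H'_v (i : I) : a.H' (a.v i) = {g | (g ∈ F.H (a.v i) ∧ g ≠ a.lam i) ∨ g = B.inv (a.mu (a.nx.symm i))} := by
  have h : ∃ j, a.v j = a.v i := ⟨i, rfl⟩
  have e : h.choose = i := a.v_inj h.choose_spec
  unfold H'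
  rw [dif_pos h, e]

theorem H'_w (i : I) : a.H' (a.w i) = {g | (g ∈ F.H (a.w i) ∧ g ≠ B.inv (a.lam i)) ∨ g = a.mu i} := by
  have h : ∃ j, a.w j = a.w i := ⟨i, rfl⟩
  have h0 : ¬ ∃ j, a.v j = a.w i := fun ⟨j, hj⟩ => a.vw j i hj
  have e : h.choose = i := a.w_inj h.choose_spec
  unfold H'
  rw [dif_neg h0, dif_pos h, e]

theorem H'_o {x : G} (h1 : ∀ i, a.v i ≠ x) (h2 : ∀ i, a.w i ≠ x) : a.H' x = F.H x := by
  unfold H'
  rw [dif_neg fun ⟨i, h⟩ => h1 i h, dif_neg fun ⟨i, h⟩ => h2 i h]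

theorem v_w (i : I) : a.v i = a.w i * B.q (B.inv (a.lam i)) := by
  rw [a.w_eq, B.q_inv, mul_inv_cancel_right]

theorem w_v (i : I) : a.w i = a.v (a.nx i) * B.q (B.inv (a.mu i)) := by
  rw [a.v_nx, B.q_inv, mul_inv_cancel_right]

theorem inv_inj {g h : B.L} (F : HF B) (e : B.inv g = B.inv h) : g = h := by
  rw [← F.ii g, e, F.ii]

/-- An edge which is not removed. -/
theorem mem_of {x : G} {g : B.L} (hg : g ∈ F.H x) (h1 : ∀ i, a.v i = x → g ≠ a.lam i)
    (h2 : ∀ i, a.w i = x → g ≠ B.inv (a.lam i)) : g ∈ a.H' x := by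
  by_cases hv : ∃ i, a.v i = x
  · obtain ⟨i, rfl⟩ := hv
    rw [H'_v]
    exact Or.inl ⟨hg, h1 i rfl⟩
  · by_cases hw : ∃ i, a.w i = x
    · obtain ⟨i, rfl⟩ := hw
      rw [H'_w]
      exact Or.inl ⟨hg, h2 i rfl⟩
    · rw [a.H'_o (fun i h => hv ⟨i, h⟩) fun i h => hw ⟨i, h⟩]
      exact hg

theorem sym_of {x : G} {g : B.L} (hg : g ∈ F.H x) (h1 : ∀ i, a.v i = x → g ≠ a.lam i)
    (h2 : ∀ i, a.w i = x → g ≠ B.inv (a.lam i)) : B.inv g ∈ a.H' (x * B.q g) := by
  refine a.mem_of (F.sym _ _ hg) ?_ ?_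
  · intro i hi he
    -- `x = w i`
    have hx : x = a.w i := by
      rw [a.w_eq, hi, ← he, B.q_inv, mul_inv_cancel_right]
    refine h2 i hx.symm ?_
    rw [← he, F.ii]
  · intro i hi he
    have he' : g = a.lam i := inv_inj F he
    have hx : x = a.v i := by
      rw [a.v_w, hi, ← he, B.q_inv, mul_inv_cancel_right]
    exact h1 i hx.symm he'

/-- The changed 2-factor. -/
noncomputable def hf : HF B where
  H := a.H'
  ii := F.ii
  ex x := by
    by_cases hv : ∃ i, a.v i = x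
    · obtain ⟨i, rfl⟩ := hv
      have hm : B.inv (a.mu (a.nx.symm i)) ∉ F.H (a.v i) := by
        intro h
        have h1 := F.sym _ _ h
        rw [F.ii] at h1
        have h2 := a.w_v (a.nx.symm i)
        rw [Equiv.apply_symm_apply] at h2
        rw [← h2] at h1
        exact a.mu_mem _ h1
      refine ⟨F.ol (a.v i) (a.lam i), B.inv (a.mu (a.nx.symm i)), fun h => hm (by rw [← h]; exact F.ol_mem _ _), ?_⟩
      intro l
      rw [H'_v]
      constructor
      · rintro (⟨h1, h2⟩ | h1)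
        · exact Or.inl (F.ol_eq (a.lam_mem i) h1 h2).symm
        · exact Or.inr h1
      · rintro (rfl | h1)
        · exact Or.inl ⟨F.ol_mem _ _, F.ol_ne _ _⟩
        · exact Or.inr h1
    · by_cases hw : ∃ i, a.w i = x
      · obtain ⟨i, rfl⟩ := hw
        have hl : B.inv (a.lam i) ∈ F.H (a.w i) := by
          rw [a.w_eq]
          exact F.sym _ _ (a.lam_mem i)
        refine ⟨F.ol (a.w i) (B.inv (a.lam i)), a.mu i, fun h => a.mu_mem i (by rw [← h]; exact F.ol_mem _ _), ?_⟩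
        intro l
        rw [H'_w]
        constructor
        · rintro (⟨h1, h2⟩ | h1)
          · exact Or.inl (F.ol_eq hl h1 h2).symm
          · exact Or.inr h1
        · rintro (rfl | h1)
          · exact Or.inl ⟨F.ol_mem _ _, F.ol_ne _ _⟩
          · exact Or.inr h1
      · rw [a.H'_o (fun i h => hv ⟨i, h⟩) fun i h => hw ⟨i, h⟩]
        exact F.ex x
  sym x g hg := by
    by_cases hv : ∃ i, a.v i = x
    · obtain ⟨i, rfl⟩ := hv
      rw [H'_v] at hg
      rcases hg with ⟨h1, h2⟩ | rfl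
      · refine a.sym_of h1 (fun j hj => ?_) fun j hj => absurd hj.symm (a.vw i j)
        rw [a.v_inj hj]
        exact h2
      · have h3 := a.w_v (a.nx.symm i)
        rw [Equiv.apply_symm_apply] at h3
        rw [← h3, H'_w, F.ii]
        exact Or.inr rfl
    · by_cases hw : ∃ i, a.w i = x
      · obtain ⟨i, rfl⟩ := hw
        rw [H'_w] at hg
        rcases hg with ⟨h1, h2⟩ | rfl
        · refine a.sym_of h1 (fun j hj => absurd hj (a.vw j i)) fun j hj => ?_
          rw [a.w_inj hj]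
          exact h2
        · rw [← a.v_nx, H'_v, Equiv.symm_apply_apply]
          exact Or.inr rfl
      · rw [a.H'_o (fun i h => hv ⟨i, h⟩) fun i h => hw ⟨i, h⟩] at hg
        exact a.sym_of hg (fun j hj => absurd ⟨j, hj⟩ hv) fun j hj => absurd ⟨j, hj⟩ hw

/-- The touched vertices. -/
def T : Set G := {x | (∃ i, a.v i = x) ∨ ∃ i, a.w i = x}

theorem hf_off {x : G} (h : x ∉ a.T) : a.hf.H x = F.H x :=
  a.H'_o (fun i hi => h (Or.inl ⟨i, hi⟩)) fun i hi => h (Or.inr ⟨i, hi⟩)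

theorem v_mem (i : I) : a.v i ∈ a.T := Or.inl ⟨i, rfl⟩

theorem w_mem (i : I) : a.w i ∈ a.T := Or.inr ⟨i, rfl⟩

/-- The new edges. -/
theorem ed_new (i : I) : a.hf.Ed (a.w i) (a.v (a.nx i)) :=
  ⟨a.mu i, by show _ ∈ a.H' _; rw [H'_w]; exact Or.inr rfl, a.v_nx i⟩

/-- The old edges which are not removed. -/
theorem ed_old {x y : G} (h : F.Ed x y) (h1 : ∀ i, ¬ (a.v i = x ∧ a.w i = y)) (h2 : ∀ i, ¬ (a.w i = x ∧ a.v i = y)) :
    a.hf.Ed x y := by
  obtain ⟨g, hg, rfl⟩ := h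
  refine ⟨g, a.mem_of hg ?_ ?_, rfl⟩
  · intro i hi he
    refine h1 i ⟨hi, ?_⟩
    rw [a.w_eq, hi, he]
  · intro i hi he
    refine h2 i ⟨hi, ?_⟩
    rw [a.v_w, hi, he]

end Alt

end Pool.Agent.Lib.MP_688fd0_co.SQ5.H12
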