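import Pool.Agent.Lib.MP_688fd0_co.SQ5.H12.Union

/-!
Clusters of regions (helper12, finding 4280) in the format of SQ4.H49.Walk: regions `r : R`, ports `P r`, `out` a fixed
point free involution of all ports, insides `c r ∈ K r`.

`Clu out K S I`: the regions of `S` together have the property `Sep`, for every outside; `I` is the set of used joining
arcs. `Clu.one`: one region with `Sep`. `Clu.join`: two disjoint clusters and three direct arcs between them.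
`Clu.iUnion`: finitely many disjoint clusters, connected by triples of direct arcs (that avoid a given set `X`).
`Clu.fin`: all that is connected with `S` lies, for some insides in `S`, on the cycles through two given arcs.
`Clu.fin2`: some insides leave at most two cycles through `S`.
-/

set_option autoImplicit false

namespace Pool.Agent.Lib.MP_688fd0_co.SQ5.H12

open Function Relation
open Pool.Agent.Lib.MP_688fd0_co.SQ4.H49

universe u v

variable {R : Type v} {P : R → Type u}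

/-- The ports of the regions of `S`. -/
def Pt (P : R → Type u) (S : Set R) : Set (Σ r, P r) := {x | x.1 ∈ S}

open Classical in
/-- The insides of the regions of `S`. -/
noncomputable def ins (S : Set R) (c : ∀ r, P r → P r) (x : Σ r, P r) : Σ r, P r := if x.1 ∈ S then gl c x else x

/-- The possible insides of `S`. -/
def KS (K : ∀ r, Set (P r → P r)) (S : Set R) : Set ((Σ r, P r) → Σ r, P r) :=
  {k | ∃ c : ∀ r, P r → P r, (∀ r ∈ S, c r ∈ K r) ∧ k = ins S c}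

variable {S T : Set R} {c c' : ∀ r, P r → P r}

theorem ins_on {x : Σ r, P r} (hx : x.1 ∈ S) : ins S c x = gl c x := by
  unfold ins; rw [if_pos hx]

theorem ins_off {x : Σ r, P r} (hx : x.1 ∉ S) : ins S c x = x := by
  unfold ins; rw [if_neg hx]

theorem gl_fst (x : Σ r, P r) : (gl c x).1 = x.1 := rfl

theorem ins_spt (hc : ∀ r ∈ S, Inv (c r)) : Spt (Pt P S) (ins S c) := by
  rintro ⟨r, e⟩
  by_cases hr : r ∈ S
  · rw [ins_on (x := ⟨r, e⟩) hr, ins_on (x := gl c ⟨r, e⟩) hr]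
    refine ⟨?_, ?_⟩
    · show (⟨r, c r (c r e)⟩ : Σ r, P r) = ⟨r, e⟩
      rw [(hc r hr e).1]
    · refine ⟨fun h => ?_, fun h => absurd hr h⟩
      have h' : (⟨r, c r e⟩ : Σ r, P r) = ⟨r, e⟩ := h
      rw [Sigma.mk.injEq] at h'
      exact absurd (eq_of_heq h'.2) (hc r hr e).2
  · rw [ins_off (x := ⟨r, e⟩) hr, ins_off (x := ⟨r, e⟩) hr]
    exact ⟨rfl, fun _ => hr, fun _ => rfl⟩

open Classical in
theorem ins_comp (hd : Disjoint S T) :
    ins S c ∘ ins T c' = ins (S ∪ T) (fun r => if r ∈ S then c r else c' r) := by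
  funext x
  obtain ⟨r, e⟩ := x
  rw [comp_apply]
  by_cases hS : r ∈ S
  · have hT : r ∉ T := Set.disjoint_left.1 hd hS
    rw [ins_off (S := T) (x := ⟨r, e⟩) hT, ins_on (S := S) (x := ⟨r, e⟩) hS,
      ins_on (S := S ∪ T) (x := ⟨r, e⟩) (Or.inl hS)]
    simp [gl, hS]
  · by_cases hT : r ∈ T
    · rw [ins_on (S := T) (x := ⟨r, e⟩) hT, ins_off (S := S) (x := gl c' ⟨r, e⟩) hS,
        ins_on (S := S ∪ T) (x := ⟨r, e⟩) (Or.inr hT)]
      simp [gl, hS]
    · rw [ins_off (S := T) (x := ⟨r, e⟩) hT, ins_off (S := S) (x := ⟨r, e⟩) hS,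
        ins_off (S := S ∪ T) (x := ⟨r, e⟩) (fun h => h.elim hS hT)]

theorem ins_univ : ins Set.univ c = gl c := by
  funext x
  exact ins_on (Set.mem_univ _)

/-- A cluster of regions. -/
structure Clu (out : (Σ r, P r) → Σ r, P r) (K : ∀ r, Set (P r → P r)) (S : Set R) (I : Set (Σ r, P r)) : Prop where
  sep : SepF (Pt P S) (KS K S) I out
  two : ∀ O, Spt (Pt P S) O → (∀ x ∈ I, O x = out x) → ∃ k ∈ KS K S, ∃ f₁ ∈ Pt P S, ∃ f₂ ∈ Pt P S,
    ∀ x ∈ Pt P S, Con O k x f₁ ∨ Con O k x f₂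
  ne : ∀ r ∈ S, (K r).Nonempty
  inv : ∀ r ∈ S, ∀ k ∈ K r, Inv k
  cl : ∀ x ∈ I, x.1 ∈ S ∧ out x ∈ I

variable {out : (Σ r, P r) → Σ r, P r} {K : ∀ r, Set (P r → P r)} {I J : Set (Σ r, P r)}

theorem KS_spt (h : ∀ r ∈ S, ∀ k ∈ K r, Inv k) : ∀ k ∈ KS K S, Spt (Pt P S) k := by
  rintro k ⟨c, hc, rfl⟩
  exact ins_spt fun r hr => h r hr _ (hc r hr)

theorem KS_ne (h : ∀ r ∈ S, (K r).Nonempty) : (KS K S).Nonempty := by
  classical
  choose c hc using h
  refine ⟨_, fun r => if hr : r ∈ S then c r hr else id, fun r hr => ?_, rfl⟩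
  simp only [hr, dif_pos]
  exact hc r hr

/-- One region. -/
theorem Clu.one {r : R} (hK : Sep (K r)) (hi : ∀ k ∈ K r, Inv k) (p : Fin 3 → P r) (hp : Injective p)
    (hne : (K r).Nonempty) : Clu out K {r} ∅ := by
  classical
  -- the outside of the single region
  have key : ∀ O : (Σ r, P r) → Σ r, P r, Spt (Pt P {r}) O → ∃ O' : P r → P r, Inv O' ∧ ∀ e, O ⟨r, e⟩ = ⟨r, O' e⟩ := by
    intro O hO
    have h1 : ∀ e : P r, ∃ e' : P r, O ⟨r, e⟩ = ⟨r, e'⟩ := by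
      intro e
      have h2 : (O ⟨r, e⟩).1 = r := hO.mem (x := ⟨r, e⟩) rfl
      generalize O ⟨r, e⟩ = y at h2
      obtain ⟨s, e'⟩ := y
      have h2 : s = r := h2
      subst h2
      exact ⟨e', rfl⟩
    choose O' hO' using h1
    refine ⟨O', fun e => ⟨?_, fun h => ?_⟩, hO'⟩
    · have h2 := hO.inv ⟨r, e⟩
      rw [hO', hO', Sigma.mk.injEq] at h2
      exact eq_of_heq h2.2
    · have h2 := hO.ne (x := ⟨r, e⟩) rfl
      rw [hO', h] at h2
      exact h2 rfl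
  have lift : ∀ O : (Σ r, P r) → Σ r, P r, ∀ O' : P r → P r, (∀ e, O ⟨r, e⟩ = ⟨r, O' e⟩) → ∀ k : P r → P r,
      ∀ x y, Con O' k x y → Con O (ins {r} (update (fun _ => id) r k)) ⟨r, x⟩ ⟨r, y⟩ := by
    intro O O' hO' k x y hxy
    refine Con.le (ρ := fun x y : P r => Con O (ins {r} (update (fun _ => id) r k)) ⟨r, x⟩ ⟨r, y⟩)
      ⟨fun _ => Con.rfl', fun h => h.symm, fun h h' => h.trans h'⟩ ?_ ?_ hxy
    · intro x
      have := con_left O (ins {r} (update (fun _ => id) r k)) ⟨r, x⟩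
      rwa [hO'] at this
    · intro x
      have := con_right O (ins {r} (update (fun _ => id) r k)) ⟨r, x⟩
      rw [ins_on (S := {r}) (x := ⟨r, x⟩) rfl] at this
      unfold gl at this
      rwa [update_self] at this
  have mem : ∀ k ∈ K r, ins {r} (update (fun _ => id) r k) ∈ KS K {r} := by
    intro k hk
    refine ⟨_, fun s hs => ?_, rfl⟩
    have hs : s = r := hs
    subst hs
    rwa [update_self]
  refine ⟨?_, ?_, ?_, ?_, fun x hx => absurd hx (Set.notMem_empty _)⟩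
  · rintro O hO - ⟨s, e₁⟩ h1 ⟨t, e₂⟩ h2 - - h3 h4
    have h1 : s = r := h1
    have h2 : t = r := h2
    subst h1
    subst h2
    obtain ⟨O', hO', hOO⟩ := key O hO
    obtain ⟨k, hk, h5⟩ := hK O' hO' e₁ e₂ (fun h => h3 (by rw [h])) (fun h => h4 (by rw [hOO, h]))
    refine ⟨_, mem k hk, ?_⟩
    rintro ⟨s, e⟩ hs
    have hs : s = t := hs
    subst hs
    rcases h5 e with h | h
    · exact Or.inl (lift O O' hOO k _ _ h)
    · exact Or.inr (lift O O' hOO k _ _ h)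
  · intro O hO _
    obtain ⟨O', hO', hOO⟩ := key O hO
    obtain ⟨i, j, h1, h2⟩ : ∃ i j : Fin 3, p j ≠ p i ∧ p j ≠ O' (p i) := by
      by_cases h : p 1 = O' (p 0)
      · refine ⟨0, 2, fun h' => absurd (hp h') (by decide), fun h' => ?_⟩
        exact absurd (hp (h'.trans h.symm)) (by decide)
      · exact ⟨0, 1, fun h' => absurd (hp h') (by decide), h⟩
    obtain ⟨k, hk, h5⟩ := hK O' hO' _ _ h1 h2
    refine ⟨_, mem k hk, ⟨r, p i⟩, rfl, ⟨r, p j⟩, rfl, ?_⟩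
    rintro ⟨s, e⟩ hs
    have hs : s = r := hs
    subst hs
    rcases h5 e with h | h
    · exact Or.inl (lift O O' hOO k _ _ h)
    · exact Or.inr (lift O O' hOO k _ _ h)
  · intro s hs
    have hs : s = r := hs
    subst hs
    exact hne
  · intro s hs
    have hs : s = r := hs
    subst hs
    exact hi

/-- Two disjoint clusters and three direct arcs. -/
theorem Clu.join [Finite (Σ r, P r)] (ho : Inv out) (h₁ : Clu out K S I) (h₂ : Clu out K T J) (hd : Disjoint S T)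
    (p : Fin 3 → Σ r, P r) (hp : Injective p) (hpS : ∀ i, (p i).1 ∈ S) (hpT : ∀ i, (out (p i)).1 ∈ T) :
    Clu out K (S ∪ T) (used I J out p) := by
  classical
  have hPt : Pt P (S ∪ T) = Pt P S ∪ Pt P T := rfl
  have H : Hyp (Pt P S) (Pt P T) (KS K S) (KS K T) I J out p :=
    { h₁ := h₁.sep
      h₂ := h₂.sep
      hK₁ := KS_spt h₁.inv
      hK₂ := KS_spt h₂.inv
      hd := by
        rw [Set.disjoint_left]
        intro x hx hx'
        exact Set.disjoint_left.1 hd hx hx'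
      dd := fun x => (ho x).1
      hI₁ := h₁.cl
      hI₂ := h₂.cl
      hp := hp
      hp₁ := hpS
      hp₂ := hpT }
  have mem : ∀ k₁ ∈ KS K S, ∀ k₂ ∈ KS K T, k₁ ∘ k₂ ∈ KS K (S ∪ T) := by
    rintro _ ⟨c, hc, rfl⟩ _ ⟨c', hc', rfl⟩
    refine ⟨_, ?_, ins_comp hd⟩
    intro r hr
    by_cases hS : r ∈ S
    · simp only [hS, if_true]; exact hc r hS
    · simp only [hS, if_false]; exact hc' r (hr.resolve_left hS)
  refine ⟨?_, ?_, ?_, ?_, ?_⟩
  · intro O hO hI e₁ he₁ e₂ he₂ n₁ n₂ h3 h4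
    obtain ⟨_, ⟨k₁, hk₁, k₂, hk₂, rfl⟩, h5⟩ := H.union (KS_ne h₂.ne) O hO hI e₁ he₁ e₂ he₂ n₁ n₂ h3 h4
    exact ⟨_, mem _ hk₁ _ hk₂, h5⟩
  · intro O hO hI
    obtain ⟨k₁, hk₁, k₂, hk₂, i, j, h5⟩ := H.two (KS_ne h₂.ne) hO hI
    exact ⟨_, mem _ hk₁ _ hk₂, _, Or.inl (hpS i), _, Or.inl (hpS j), h5⟩
  · rintro r (hr | hr)
    · exact h₁.ne r hr
    · exact h₂.ne r hr
  · rintro r (hr | hr)
    · exact h₁.inv r hr
    · exact h₂.inv r hr
  · exact H.used_closed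

/-- Three direct arcs from `S i` to `S j`, not in `X`. -/
def Adj3 (out : (Σ r, P r) → Σ r, P r) {ι : Type*} (S : ι → Set R) (X : Set (Σ r, P r)) (i j : ι) : Prop :=
  ∃ p : Fin 3 → Σ r, P r, Injective p ∧ ∀ l, (p l).1 ∈ S i ∧ (out (p l)).1 ∈ S j ∧ p l ∉ X ∧ out (p l) ∉ X

/-- Finitely many disjoint clusters, connected by triples of direct arcs. -/
theorem Clu.iUnion [Finite (Σ r, P r)] (ho : Inv out) {ι : Type*} [Finite ι] {S : ι → Set R} {I : ι → Set (Σ r, P r)}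
    {X : Set (Σ r, P r)} (h : ∀ i, Clu out K (S i) (I i)) (hd : Pairwise (Disjoint on S))
    (hX : ∀ i, Disjoint (I i) X) (i₀ : ι) (hconn : ∀ i, ReflTransGen (Adj3 out S X) i₀ i) :
    ∃ J, Clu out K (⋃ i, S i) J ∧ Disjoint J X := by
  classical
  let 𝒰 : Set (Set ι) := {U | i₀ ∈ U ∧ ∃ J, Clu out K (⋃ i ∈ U, S i) J ∧ Disjoint J X}
  have hne : 𝒰.Nonempty := by
    refine ⟨{i₀}, rfl, I i₀, ?_, hX i₀⟩
    have : (⋃ i ∈ ({i₀} : Set ι), S i) = S i₀ := by simp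
    rw [this]
    exact h i₀
  obtain ⟨U, hU⟩ := Set.Finite.exists_maximal (Set.toFinite 𝒰) hne
  obtain ⟨hi₀, J, hJ, hJX⟩ := hU.1
  have huniv : ∀ j, j ∈ U := by
    by_contra hcon
    push Not at hcon
    obtain ⟨j, hj⟩ := hcon
    -- an exit from `U`
    obtain ⟨a, ha, b, hb, hab⟩ : ∃ a ∈ U, ∃ b, b ∉ U ∧ Adj3 out S X a b := by
      have h1 := hconn j
      induction h1 with
      | refl => exact absurd hi₀ hj
      | @tail b c _ hbc ih =>
        by_cases hb : b ∈ U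
        · exact ⟨b, hb, c, hj, hbc⟩
        · exact ih hb
    obtain ⟨p, hp, hp'⟩ := hab
    have hdis : Disjoint (⋃ i ∈ U, S i) (S b) := by
      rw [Set.disjoint_left]
      intro x hx hxb
      simp only [Set.mem_iUnion] at hx
      obtain ⟨i, hi, hxi⟩ := hx
      have hne : i ≠ b := fun h => hb (h ▸ hi)
      exact Set.disjoint_left.1 (hd hne) hxi hxb
    have h2 := Clu.join ho hJ (h b) hdis p hp
      (fun l => Set.mem_biUnion ha (hp' l).1) (fun l => (hp' l).2.1)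
    have h3 : insert b U ∈ 𝒰 := by
      refine ⟨Or.inr hi₀, used J (I b) out p, ?_, ?_⟩
      · have : (⋃ i ∈ insert b U, S i) = (⋃ i ∈ U, S i) ∪ S b := by
          rw [Set.biUnion_insert, Set.union_comm]
        rw [this]
        exact h2
      · rw [Set.disjoint_left]
        rintro x ((hx | hx) | (⟨l, rfl⟩ | ⟨l, rfl⟩)) hxX
        · exact Set.disjoint_left.1 hJX hx hxX
        · exact Set.disjoint_left.1 (hX b) hx hxX
        · exact (hp' l).2.2.1 hxX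
        · exact (hp' l).2.2.2 hxX
    have h4 : insert b U ⊆ U := hU.2 h3 (Set.subset_insert _ _)
    exact hb (h4 (Set.mem_insert _ _))
  refine ⟨J, ?_, hJX⟩
  have : (⋃ i, S i) = ⋃ i ∈ U, S i := by
    ext x
    simp only [Set.mem_iUnion]
    exact ⟨fun ⟨i, hi⟩ => ⟨i, huniv i, hi⟩, fun ⟨i, _, hi⟩ => ⟨i, hi⟩⟩
  rw [this]
  exact hJ

/-- The outside of a cluster in the whole system. -/
theorem outer [Finite (Σ r, P r)] (ho : Inv out) (S : Set R) (c₀ : ∀ r, P r → P r) (hc₀ : ∀ r, r ∉ S → Inv (c₀ r))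
    (hI : ∀ x ∈ I, x.1 ∈ S ∧ out x ∈ I) :
    ∃ A, Spt (Pt P S) A ∧ (∀ x, Con out (ins Sᶜ c₀) x (A x)) ∧ (∀ x ∈ I, A x = out x) ∧
      ∀ c : ∀ r, P r → P r, (∀ r ∈ S, Inv (c r)) → (∀ r, r ∉ S → c r = c₀ r) →
        (∀ x y, Con A (ins S c) x y → Con out (gl c) x y) ∧
        (∀ x y, Con out (ins Sᶜ c₀) x y → Con out (gl c) x y) ∧
        ∀ x y, y.1 ∈ S → Con out (gl c) x y → ∃ z, z.1 ∈ S ∧ Con out (ins Sᶜ c₀) x z := by
  classical
  have hSpt : Spt (Pt P S ∪ Pt P Sᶜ) out := by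
    intro x
    refine ⟨(ho x).1, fun h => absurd h (ho x).2, fun h => ?_⟩
    exfalso
    apply h
    by_cases hx : x.1 ∈ S
    · exact Or.inl hx
    · exact Or.inr hx
  have hdis : Disjoint (Pt P S) (Pt P Sᶜ) := by
    rw [Set.disjoint_left]
    intro x hx hx'
    exact hx' hx
  have hk : Spt (Pt P Sᶜ) (ins Sᶜ c₀) := ins_spt hc₀
  have hR : Reg out (ins Sᶜ c₀) (Pt P Sᶜ) (Pt P S) := ⟨by rw [Set.union_comm]; exact hSpt, hk, hdis.symm⟩
  obtain ⟨A, hA, hA1, -, hA3⟩ := hR.arcs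
  refine ⟨A, hA, hA1, fun x hx => (hA3 x (hI x hx).1 (hI _ (hI x hx).2).1).1, ?_⟩
  intro c hc hcc
  have T : Two out (ins S c) (ins Sᶜ c₀) (Pt P S) (Pt P Sᶜ) := ⟨hSpt, ins_spt hc, hk, hdis⟩
  have hcomp : ins S c ∘ ins Sᶜ c₀ = gl c := by
    rw [ins_comp disjoint_compl_right, Set.union_compl_self, ins_univ]
    congr 1
    funext r
    by_cases hr : r ∈ S
    · simp [hr]
    · simp [hr, hcc r hr]
  refine ⟨fun x y hxy => ?_, fun x y hxy => ?_, fun x y hy hxy => ?_⟩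
  · have := T.lift hA1 hxy
    rwa [hcomp] at this
  · have := T.con₂ hxy
    rwa [hcomp] at this
  · rw [← hcomp] at hxy
    obtain ⟨e, he, h⟩ := T.cut_port (show y ∈ Pt P S from hy) hxy
    exact ⟨e, he, h⟩

/-- All that is connected with the cluster lies, for some insides of the cluster, on the cycles through two given arcs. -/
theorem Clu.fin [Finite (Σ r, P r)] (ho : Inv out) (h : Clu out K S I) (c₀ : ∀ r, P r → P r) (hc₀ : ∀ r, Inv (c₀ r))
    (a₁ a₂ : Σ r, P r) (h₁ : a₁.1 ∈ S) (h₂ : a₂.1 ∈ S) (n₁ : a₁ ∉ I) (n₂ : a₂ ∉ I)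
    (hsep : ¬ Con out (ins Sᶜ c₀) a₁ a₂) :
    ∃ c : ∀ r, P r → P r, (∀ r ∈ S, c r ∈ K r) ∧ (∀ r, r ∉ S → c r = c₀ r) ∧
      ∀ x, (∃ y : Σ r, P r, y.1 ∈ S ∧ Con out (gl c₀) x y) → Con out (gl c) x a₁ ∨ Con out (gl c) x a₂ := by
  classical
  obtain ⟨A, hA, hA1, hA3, hA4⟩ := outer ho S c₀ (fun r _ => hc₀ r) h.cl
  obtain ⟨k, ⟨c, hc, rfl⟩, h5⟩ := h.sep A hA hA3 a₁ h₁ a₂ h₂ n₁ n₂ (fun h => hsep (h ▸ Con.rfl'))
    (fun h => hsep (h ▸ hA1 a₁))
  let c' : ∀ r, P r → P r := fun r => if r ∈ S then c r else c₀ r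
  have hc'S : ∀ r ∈ S, c' r = c r := fun r hr => by simp [c', hr]
  have hc'n : ∀ r, r ∉ S → c' r = c₀ r := fun r hr => by simp [c', hr]
  have hins : ins S c = ins S c' := by
    funext x
    by_cases hx : x.1 ∈ S
    · rw [ins_on hx, ins_on hx]
      unfold gl
      rw [hc'S _ hx]
    · rw [ins_off hx, ins_off hx]
  obtain ⟨b1, b2, -⟩ := hA4 c' (fun r hr => by rw [hc'S r hr]; exact h.inv r hr _ (hc r hr)) hc'n
  obtain ⟨-, -, b3⟩ := hA4 c₀ (fun r _ => hc₀ r) (fun _ _ => rfl)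
  refine ⟨c', fun r hr => by rw [hc'S r hr]; exact hc r hr, hc'n, ?_⟩
  rintro x ⟨y, hy, hxy⟩
  obtain ⟨z, hz, hxz⟩ := b3 x y hy hxy
  have h6 := b2 _ _ hxz
  rcases h5 z hz with h | h
  · rw [hins] at h; exact Or.inl (h6.trans (b1 _ _ h))
  · rw [hins] at h; exact Or.inr (h6.trans (b1 _ _ h))

/-- At most two cycles through the cluster. -/
theorem Clu.fin2 [Finite (Σ r, P r)] (ho : Inv out) (h : Clu out K S I) (c₀ : ∀ r, P r → P r) (hc₀ : ∀ r, Inv (c₀ r)) :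
    ∃ c : ∀ r, P r → P r, (∀ r ∈ S, c r ∈ K r) ∧ (∀ r, r ∉ S → c r = c₀ r) ∧ ∃ a₁ a₂ : Σ r, P r, a₁.1 ∈ S ∧ a₂.1 ∈ S ∧
      ∀ x, (∃ y : Σ r, P r, y.1 ∈ S ∧ Con out (gl c₀) x y) → Con out (gl c) x a₁ ∨ Con out (gl c) x a₂ := by
  classical
  obtain ⟨A, hA, hA1, hA3, hA4⟩ := outer ho S c₀ (fun r _ => hc₀ r) h.cl
  obtain ⟨k, ⟨c, hc, rfl⟩, a₁, h₁, a₂, h₂, h5⟩ := h.two A hA hA3
  let c' : ∀ r, P r → P r := fun r => if r ∈ S then c r else c₀ r
  have hc'S : ∀ r ∈ S, c' r = c r := fun r hr => by simp [c', hr]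
  have hc'n : ∀ r, r ∉ S → c' r = c₀ r := fun r hr => by simp [c', hr]
  have hins : ins S c = ins S c' := by
    funext x
    by_cases hx : x.1 ∈ S
    · rw [ins_on hx, ins_on hx]
      unfold gl
      rw [hc'S _ hx]
    · rw [ins_off hx, ins_off hx]
  obtain ⟨b1, b2, -⟩ := hA4 c' (fun r hr => by rw [hc'S r hr]; exact h.inv r hr _ (hc r hr)) hc'n
  obtain ⟨-, -, b3⟩ := hA4 c₀ (fun r _ => hc₀ r) (fun _ _ => rfl)
  refine ⟨c', fun r hr => by rw [hc'S r hr]; exact hc r hr, hc'n, a₁, a₂, h₁, h₂, ?_⟩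
  rintro x ⟨y, hy, hxy⟩
  obtain ⟨z, hz, hxz⟩ := b3 x y hy hxy
  have h6 := b2 _ _ hxz
  rcases h5 z hz with h | h
  · rw [hins] at h; exact Or.inl (h6.trans (b1 _ _ h))
  · rw [hins] at h; exact Or.inr (h6.trans (b1 _ _ h))

theorem con_ins_empty {x y : Σ r, P r} (ho : Inv out) (h : Con out (ins ∅ c) x y) : y = x ∨ y = out x := by
  refine Con.le (ρ := fun x y => y = x ∨ y = out x) ⟨?_, ?_, ?_⟩ ?_ ?_ h
  · intro x; exact Or.inl rfl
  · rintro x y (rfl | rfl)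
    · exact Or.inl rfl
    · exact Or.inr (ho x).1.symm
  · rintro x y z (rfl | rfl) (rfl | rfl)
    · exact Or.inl rfl
    · exact Or.inr rfl
    · exact Or.inr rfl
    · exact Or.inl (ho x).1
  · intro x; exact Or.inr rfl
  · intro x; exact Or.inl (ins_off (Set.notMem_empty _))

/-- The whole system is one cluster: every cycle goes through one of two given arcs. -/
theorem Clu.fin_univ [Finite (Σ r, P r)] (ho : Inv out) (h : Clu out K Set.univ I)
    (a₁ a₂ : Σ r, P r) (n₁ : a₁ ∉ I) (n₂ : a₂ ∉ I) (h1 : a₂ ≠ a₁) (h2 : a₂ ≠ out a₁) :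
    ∃ c : ∀ r, P r → P r, (∀ r, c r ∈ K r) ∧ ∀ x, Con out (gl c) x a₁ ∨ Con out (gl c) x a₂ := by
  choose c₀ hc₀ using fun r => h.ne r (Set.mem_univ _)
  obtain ⟨c, hc, -, h5⟩ := h.fin ho c₀ (fun r => h.inv r (Set.mem_univ _) _ (hc₀ r)) a₁ a₂ (Set.mem_univ _)
    (Set.mem_univ _) n₁ n₂ (fun h' => by
      rw [Set.compl_univ] at h'
      rcases con_ins_empty ho h' with h' | h'
      · exact h1 h'
      · exact h2 h')
  exact ⟨c, fun r => hc r (Set.mem_univ _), fun x => h5 x ⟨x, Set.mem_univ _, Con.rfl'⟩⟩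

end Pool.Agent.Lib.MP_688fd0_co.SQ5.H12
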