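import Mathlib

/-!
The hand calculus of a visit of a thread (helper12, finding 4311, section 1), abstract form.

`S` = the strands of an event free zone. At every level `l` each strand `s` has one line, from `lo l s` to `up l s`; `up l s` is
joined to `lo (l + 1) s`. A visit cuts one line of every level `l ∈ [s0, last]`, on the strand `c l`: `v l` / `w l` are the ends of
the cut (`v s0 = e` the entry, `w last = y` the exit), `w l` is joined to `v (l + 1)`. If the level is aligned (`al l`), `lo l (c l)`
is joined to `w l` and `v l` to `up l (c l)`, otherwise `lo l (c l)` to `v l` and `w l` to `up l (c l)`. `R` = the connection relation.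
On `Option S` (`none` = the open end) an aligned level is the transposition `(none, c l)`.
-/

set_option autoImplicit false

namespace Pool.Agent.Lib.MP_688fd0_co.SQ5.H12

open Equiv

variable {V S : Type*} [DecidableEq S]

/-- The data of a visit with relation `R`. -/
structure Visit (R : V → V → Prop) (lo up : ℕ → S → V) (v w : ℕ → V) (c : ℕ → S) (al : ℕ → Prop) (n : ℕ) : Prop where
  eqv : Equivalence R
  line : ∀ l < n, ∀ s, s ≠ c l → R (lo l s) (up l s)
  next : ∀ l, l + 1 < n → ∀ s, R (up l s) (lo (l + 1) s)
  hand : ∀ l, l + 1 < n → R (w l) (v (l + 1))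
  al1 : ∀ l < n, al l → R (lo l (c l)) (w l)
  al2 : ∀ l < n, al l → R (v l) (up l (c l))
  na1 : ∀ l < n, ¬ al l → R (lo l (c l)) (v l)
  na2 : ∀ l < n, ¬ al l → R (w l) (up l (c l))

/-- The permutation of the aligned levels `0, .., m - 1`. -/
def gp (c : ℕ → S) : ℕ → Perm (Option S)
  | 0 => 1
  | m + 1 => swap none (some (c m)) * gp c m

theorem gp_add (c : ℕ → S) (m j : ℕ) : gp c (m + j) = gp (fun i => c (m + i)) j * gp c m := by
  induction j with
  | zero => simp [gp]
  | succ j ih =>
    rw [← add_assoc]
    show swap none (some (c (m + j))) * gp c (m + j) = swap none (some (c (m + j))) * gp _ j * gp c m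
    rw [ih, mul_assoc]

theorem gp_drift {c : ℕ → S} {u : ℕ} {D : Perm S} (hc : ∀ l, c (l + u) = D (c l)) (x : ℕ) :
    gp c (x * u) = optionCongr D ^ x * ((optionCongr D)⁻¹ * gp c u) ^ x := by
  have hsh : ∀ m, gp (fun i => c (u + i)) m = optionCongr D * gp c m * (optionCongr D)⁻¹ := by
    intro m
    induction m with
    | zero => simp [gp]
    | succ m ih =>
      show swap none (some (c (u + m))) * gp _ m = optionCongr D * (swap none (some (c m)) * gp c m) * (optionCongr D)⁻¹
      rw [ih, add_comm u m, hc]
      have h1 : swap none (some (D (c m))) = optionCongr D * swap none (some (c m)) * (optionCongr D)⁻¹ := by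
        have h2 := Equiv.swap_apply_apply (optionCongr D) none (some (c m))
        simpa using h2
      rw [h1]
      group
  have key : ∀ x j, gp c (x * u + j) = optionCongr D ^ x * gp c j * (optionCongr D)⁻¹ ^ x * gp c (x * u) := by
    intro x
    induction x with
    | zero => intro j; simp [gp]
    | succ x ih =>
      intro j
      have e : (x + 1) * u + j = x * u + (u + j) := by ring
      have e' : (x + 1) * u = x * u + (u + 0) := by ring
      rw [e, ih (u + j), e', ih (u + 0), gp_add c u j, gp_add c u 0, hsh, hsh]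
      simp only [gp]
      rw [pow_succ (optionCongr D) x, pow_succ' ((optionCongr D)⁻¹) x]
      group
  induction x with
  | zero => simp [gp]
  | succ x ih =>
    have e : (x + 1) * u = x * u + u := by ring
    rw [e, key, ih, pow_succ (optionCongr D) x, pow_succ' ((optionCongr D)⁻¹ * gp c u) x]
    have h3 : (optionCongr D)⁻¹ ^ x * (optionCongr D) ^ x = 1 := by
      rw [inv_pow, inv_mul_cancel]
    calc optionCongr D ^ x * gp c u * (optionCongr D)⁻¹ ^ x * (optionCongr D ^ x * ((optionCongr D)⁻¹ * gp c u) ^ x)
        = optionCongr D ^ x * gp c u * ((optionCongr D)⁻¹ ^ x * optionCongr D ^ x) * ((optionCongr D)⁻¹ * gp c u) ^ x := by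
          group
      _ = _ := by rw [h3]; simp only [mul_one, mul_assoc, mul_inv_cancel_left]

/-- Of two consecutive numbers of periods one is good. -/
theorem good_or {c : ℕ → S} {u : ℕ} {D : Perm S} (hc : ∀ l, c (l + u) = D (c l)) (j x : ℕ) :
    gp c (x * u) none ≠ some (c (x * u + j)) ∨ gp c ((x + 1) * u) none ≠ some (c ((x + 1) * u + j)) := by
  have hcx : ∀ x, c (x * u + j) = (D ^ x) (c j) := by
    intro x
    induction x with
    | zero => simp
    | succ x ih =>
      have e : (x + 1) * u + j = x * u + j + u := by ring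
      rw [e, hc, ih, pow_succ', Perm.mul_apply]
  have hD : ∀ x (s : S), (optionCongr D ^ x) (some s) = some ((D ^ x) s) := by
    intro x
    induction x with
    | zero => intro s; rfl
    | succ x ih => intro s; rw [pow_succ', Perm.mul_apply, ih, pow_succ', Perm.mul_apply]; rfl
  set f := (optionCongr D)⁻¹ * gp c u with hf
  have hbad : ∀ x, gp c (x * u) none = some (c (x * u + j)) → (f ^ x) none = some (c j) := by
    intro x h
    rw [gp_drift hc, hcx, ← hD, Perm.mul_apply] at h
    exact (optionCongr D ^ x).injective h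
  by_contra hcon
  push Not at hcon
  obtain ⟨h1, h2⟩ := hcon
  have h1' := hbad x h1
  have h2' := hbad (x + 1) h2
  rw [pow_succ', Perm.mul_apply, h1'] at h2'
  have h3 : (f ^ x) (some (c j)) = some (c j) := by
    clear h1' h1 h2
    induction x with
    | zero => rfl
    | succ x ih => rw [pow_succ', Perm.mul_apply, ih, h2']
  have h4 : (f ^ x) none = (f ^ x) (some (c j)) := by rw [h1', h3]
  exact absurd ((f ^ x).injective h4) (by simp)

namespace Visit

variable {R : V → V → Prop} {lo up : ℕ → S → V} {v w : ℕ → V} {c : ℕ → S} {al : ℕ → Prop} {n : ℕ}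

/-- The vertex of a state. -/
def ver (lo : ℕ → S → V) (v : ℕ → V) (l : ℕ) : Option S → V
  | none => v l
  | some s => lo l s

theorem step (h : Visit R lo up v w c al n) {l : ℕ} (hl : l + 1 < n) (ha : al l) (σ : Option S) :
    R (ver lo v l σ) (ver lo v (l + 1) (swap none (some (c l)) σ)) := by
  have hl' : l < n := by omega
  cases σ with
  | none =>
    rw [swap_apply_left]
    exact h.eqv.trans (h.al2 l hl' ha) (h.next l hl (c l))
  | some s =>
    by_cases hs : s = c l
    · subst hs
      rw [swap_apply_right]
      exact h.eqv.trans (h.al1 l hl' ha) (h.hand l hl)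
    · rw [swap_apply_of_ne_of_ne (by simp) (by simpa using hs)]
      exact h.eqv.trans (h.line l hl' s hs) (h.next l hl s)

theorem run (h : Visit R lo up v w c al n) {m : ℕ} (hm : m < n) (ha : ∀ l < m, al l) (σ : Option S) :
    R (ver lo v 0 σ) (ver lo v m (gp c m σ)) := by
  induction m with
  | zero => exact h.eqv.refl _
  | succ m ih =>
    have h1 := ih (by omega) fun l hl => ha l (by omega)
    exact h.eqv.trans h1 (h.step hm (ha m (by omega)) _)

theorem down (h : Visit R lo up v w c al n) {m : ℕ} (hm : m < n) (ha : ∀ l < m, al l) (σ : Option S) :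
    R (ver lo v m σ) (ver lo v 0 ((gp c m)⁻¹ σ)) := by
  have := h.run hm ha ((gp c m)⁻¹ σ)
  rw [← Perm.mul_apply, mul_inv_cancel, Perm.one_apply] at this
  exact h.eqv.symm this

/-- Down to a strand below. -/
theorem down_some (h : Visit R lo up v w c al n) {m : ℕ} (hm : m < n) (ha : ∀ l < m, al l) {σ : Option S}
    (hσ : gp c m none ≠ σ) : ∃ s, R (ver lo v m σ) (lo 0 s) := by
  have h1 := h.down hm ha σ
  cases h2 : (gp c m)⁻¹ σ with
  | none =>
    rw [Perm.inv_eq_iff_eq] at h2
    exact absurd h2.symm hσ
  | some s =>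
    rw [h2] at h1
    exact ⟨s, h1⟩

/-- Joined to a strand below or above the visit. -/
def Term (R : V → V → Prop) (lo up : ℕ → S → V) (n : ℕ) (x : V) : Prop :=
  (∃ s, R x (lo 0 s)) ∨ ∃ s, R x (up (n - 1) s)

omit [DecidableEq S] in
theorem Term.trans (h : Visit R lo up v w c al n) {x y : V} (hxy : R x y) (hy : Term R lo up n y) : Term R lo up n x := by
  rcases hy with ⟨s, hs⟩ | ⟨s, hs⟩
  · exact Or.inl ⟨s, h.eqv.trans hxy hs⟩
  · exact Or.inr ⟨s, h.eqv.trans hxy hs⟩

/-- One exit letter: the ends. -/
theorem ends_one {m : ℕ} (h : Visit R lo up v w c al (m + 1)) (ha : ∀ l < m, al l) (hg : gp c m none ≠ some (c m)) :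
    Term R lo up (m + 1) (v 0) ∧ Term R lo up (m + 1) (w m) := by
  have hm : m < m + 1 := by omega
  have he : R (v 0) (ver lo v m (gp c m none)) := h.run hm ha none
  by_cases hal : al m
  · constructor
    · refine Term.trans h he (Or.inr ?_)
      cases h1 : gp c m none with
      | none => exact ⟨c m, h.al2 m hm hal⟩
      | some s =>
        refine ⟨s, h.line m hm s ?_⟩
        rintro rfl
        exact hg h1
    · obtain ⟨s, hs⟩ := h.down_some hm ha hg
      exact Or.inl ⟨s, h.eqv.trans (h.eqv.symm (h.al1 m hm hal)) hs⟩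
  · constructor
    · refine Term.trans h he ?_
      cases h1 : gp c m none with
      | none =>
        obtain ⟨s, hs⟩ := h.down_some hm ha (σ := some (c m)) (by rw [h1]; simp)
        exact Or.inl ⟨s, h.eqv.trans (h.eqv.symm (h.na1 m hm hal)) hs⟩
      | some s => exact Or.inr ⟨s, h.line m hm s (by rintro rfl; exact hg h1)⟩
    · exact Or.inr ⟨c m, h.na2 m hm hal⟩

/-- The vertices of the aligned levels. -/
theorem ver_term {m : ℕ} (h : Visit R lo up v w c al n) (hm : m < n) (ha : ∀ l < m, al l)
    (h0 : Term R lo up n (v 0)) {l : ℕ} (hl : l ≤ m) (σ : Option S) : Term R lo up n (ver lo v l σ) := by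
  have h1 := h.down (m := l) (by omega) (fun i hi => ha i (by omega)) σ
  cases h2 : (gp c l)⁻¹ σ with
  | none =>
    rw [h2] at h1
    exact Term.trans h h1 h0
  | some s =>
    rw [h2] at h1
    exact Or.inl ⟨s, h1⟩

/-- One exit letter: everything is joined to a strand below or above. -/
theorem all_one {m : ℕ} (h : Visit R lo up v w c al (m + 1)) (ha : ∀ l < m, al l) (hg : gp c m none ≠ some (c m)) :
    ∀ l < m + 1, ∀ s, Term R lo up (m + 1) (lo l s) ∧ Term R lo up (m + 1) (up l s) := by
  intro l hl s
  have h0 := (ends_one h ha hg).1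
  refine ⟨ver_term h (by omega) ha h0 (by omega) (some s), ?_⟩
  rcases Nat.lt_or_ge l m with hlm | hlm
  · exact Term.trans h (h.next l (by omega) s) (ver_term h (by omega) ha h0 (by omega : l + 1 ≤ m) (some s))
  · have : l = m := by omega
    subst this
    exact Or.inr ⟨s, h.eqv.refl _⟩

/-- Two exit letters, the first one aligned. -/
theorem ends_two {m : ℕ} (h : Visit R lo up v w c al (m + 2)) (ha : ∀ l < m, al l)
    (hg : gp c m none ≠ some (c (m + 1))) (hd : (al m ↔ al (m + 1)) → c m ≠ c (m + 1)) :
    Term R lo up (m + 2) (v 0) ∧ Term R lo up (m + 2) (w (m + 1)) := by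
  have hm1 : m + 1 < m + 2 := by omega
  have hm : m < m + 2 := by omega
  by_cases hal : al m
  · -- aligned: `m + 1` aligned levels
    have ha' : ∀ l < m + 1, al l := fun l hl => by
      rcases Nat.lt_or_ge l m with h1 | h1
      · exact ha l h1
      · have : l = m := by omega
        subst this
        exact hal
    by_cases hal1 : al (m + 1)
    · have hcc := hd ⟨fun _ => hal1, fun _ => hal⟩
      have hg' : gp c (m + 1) none ≠ some (c (m + 1)) := by
        intro h1
        change (swap none (some (c m)) * gp c m) none = _ at h1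
        rw [Perm.mul_apply] at h1
        have h2 : gp c m none = swap none (some (c m)) (some (c (m + 1))) := by
          rw [← h1, swap_apply_self]
        rw [swap_apply_of_ne_of_ne (by simp) (by simpa using hcc.symm)] at h2
        exact hg h2
      have he : R (v 0) (ver lo v (m + 1) (gp c (m + 1) none)) := h.run hm1 ha' none
      constructor
      · refine Term.trans h he (Or.inr ?_)
        cases h1 : gp c (m + 1) none with
        | none => exact ⟨c (m + 1), h.al2 _ hm1 hal1⟩
        | some s =>
          refine ⟨s, h.line _ hm1 s ?_⟩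
          rintro rfl
          exact hg' h1
      · obtain ⟨s, hs⟩ := h.down_some hm1 ha' hg'
        exact Or.inl ⟨s, h.eqv.trans (h.eqv.symm (h.al1 _ hm1 hal1)) hs⟩
    · have he : R (v 0) (ver lo v (m + 1) (gp c (m + 1) none)) := h.run hm1 ha' none
      constructor
      · refine Term.trans h he ?_
        cases h1 : gp c (m + 1) none with
        | none =>
          obtain ⟨s, hs⟩ := h.down_some hm1 ha' (σ := some (c (m + 1))) (by rw [h1]; simp)
          exact Or.inl ⟨s, h.eqv.trans (h.eqv.symm (h.na1 _ hm1 hal1)) hs⟩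
        | some s =>
          by_cases hs : s = c (m + 1)
          · subst hs
            obtain ⟨s, hs⟩ := h.down_some hm1 ha' (σ := none) (by rw [h1]; simp)
            exact Or.inl ⟨s, h.eqv.trans (h.na1 _ hm1 hal1) hs⟩
          · exact Or.inr ⟨s, h.line _ hm1 s hs⟩
      · exact Or.inr ⟨c (m + 1), h.na2 _ hm1 hal1⟩
  · have he : R (v 0) (ver lo v m (gp c m none)) := h.run hm ha none
    -- the hand at the level `m + 1` is joined to the strand `c m` above
    have hw : R (v (m + 1)) (lo (m + 1) (c m)) :=
      h.eqv.trans (h.eqv.symm (h.hand m hm1)) (h.eqv.trans (h.na2 m hm hal) (h.next m hm1 _))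
    constructor
    · refine Term.trans h he ?_
      cases h1 : gp c m none with
      | none =>
        obtain ⟨s, hs⟩ := h.down_some hm ha (σ := some (c m)) (by rw [h1]; simp)
        exact Or.inl ⟨s, h.eqv.trans (h.eqv.symm (h.na1 m hm hal)) hs⟩
      | some s =>
        by_cases hs : s = c m
        · subst hs
          obtain ⟨s, hs⟩ := h.down_some hm ha (σ := none) (by rw [h1]; simp)
          exact Or.inl ⟨s, h.eqv.trans (h.na1 m hm hal) hs⟩
        · have h2 : s ≠ c (m + 1) := by
            rintro rfl
            exact hg h1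
          exact Or.inr ⟨s, h.eqv.trans (h.line m hm s hs) (h.eqv.trans (h.next m hm1 s) (h.line _ hm1 s h2))⟩
    · by_cases hal1 : al (m + 1)
      · by_cases hcc : c m = c (m + 1)
        · refine Or.inr ⟨c (m + 1), ?_⟩
          have h1 := h.al1 _ hm1 hal1
          have h2 := h.al2 _ hm1 hal1
          rw [hcc] at hw
          exact h.eqv.trans (h.eqv.symm h1) (h.eqv.trans (h.eqv.symm hw) h2)
        · obtain ⟨s, hs⟩ := h.down_some hm ha hg
          refine Or.inl ⟨s, ?_⟩
          have h1 := h.al1 _ hm1 hal1
          have h2 := h.next m hm1 (c (m + 1))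
          have h3 := h.line m hm (c (m + 1)) (Ne.symm hcc)
          exact h.eqv.trans (h.eqv.symm h1) (h.eqv.trans (h.eqv.symm h2) (h.eqv.trans (h.eqv.symm h3) hs))
      · exact Or.inr ⟨c (m + 1), h.na2 _ hm1 hal1⟩

/-- Two exit letters: everything is joined to a strand below or above. -/
theorem all_two {m : ℕ} (h : Visit R lo up v w c al (m + 2)) (ha : ∀ l < m, al l)
    (hg : gp c m none ≠ some (c (m + 1))) (hd : (al m ↔ al (m + 1)) → c m ≠ c (m + 1)) :
    ∀ l < m + 2, ∀ s, Term R lo up (m + 2) (lo l s) ∧ Term R lo up (m + 2) (up l s) := by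
  have hm1 : m + 1 < m + 2 := by omega
  have hm : m < m + 2 := by omega
  have h0 := (ends_two h ha hg hd).1
  have hlo : ∀ l ≤ m, ∀ s, Term R lo up (m + 2) (lo l s) := fun l hl s => ver_term h hm ha h0 hl (some s)
  have hv : Term R lo up (m + 2) (v m) := ver_term h hm ha h0 le_rfl none
  -- level `m + 1`
  have hlo1 : ∀ s, s ≠ c m → Term R lo up (m + 2) (lo (m + 1) s) := by
    intro s hs
    exact Term.trans h (h.eqv.symm (h.eqv.trans (h.line m hm s hs) (h.next m hm1 s))) (hlo m le_rfl s)
  have hc : Term R lo up (m + 2) (lo (m + 1) (c m)) := by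
    by_cases hal : al m
    · exact Term.trans h (h.eqv.symm (h.eqv.trans (h.al2 m hm hal) (h.next m hm1 _))) hv
    · have hw : R (v (m + 1)) (lo (m + 1) (c m)) :=
        h.eqv.trans (h.eqv.symm (h.hand m hm1)) (h.eqv.trans (h.na2 m hm hal) (h.next m hm1 _))
      refine Term.trans h (h.eqv.symm hw) ?_
      by_cases hal1 : al (m + 1)
      · exact Or.inr ⟨c (m + 1), h.al2 _ hm1 hal1⟩
      · have hcc := hd ⟨fun h1 => absurd h1 hal, fun h1 => absurd h1 hal1⟩
        exact Term.trans h (h.eqv.symm (h.na1 _ hm1 hal1)) (hlo1 _ (Ne.symm hcc))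
  have hlo2 : ∀ s, Term R lo up (m + 2) (lo (m + 1) s) := by
    intro s
    by_cases hs : s = c m
    · subst hs; exact hc
    · exact hlo1 s hs
  intro l hl s
  rcases Nat.lt_or_ge l m with h1 | h1
  · exact ⟨hlo l h1.le s, Term.trans h (h.next l (by omega) s) (hlo (l + 1) (by omega) s)⟩
  · rcases Nat.lt_or_ge m l with h2 | h2
    · have : l = m + 1 := by omega
      subst this
      exact ⟨hlo2 s, Or.inr ⟨s, h.eqv.refl _⟩⟩
    · have : l = m := by omega
      subst this
      exact ⟨hlo l le_rfl s, Term.trans h (h.next l hm1 s) (hlo2 s)⟩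

end Visit

end Pool.Agent.Lib.MP_688fd0_co.SQ5.H12
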