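import Pool.Agent.Lib.MP_688fd0_co.SQ5.H12.Hand

/-!
The hand calculus of a visit, continued (helper12): the two ends of a visit are joined to two different (strand, side)s.
-/

set_option autoImplicit false

namespace Pool.Agent.Lib.MP_688fd0_co.SQ5.H12

open Equiv

variable {V S : Type*} [DecidableEq S]

/-- Of two consecutive numbers of periods one is good, for any strand `s₀` moved by the drift. -/
theorem good_or' {c : ℕ → S} {u : ℕ} {D : Perm S} (hc : ∀ l, c (l + u) = D (c l)) (s₀ : S) (x : ℕ) :
    gp c (x * u) none ≠ some ((D ^ x) s₀) ∨ gp c ((x + 1) * u) none ≠ some ((D ^ (x + 1)) s₀) := by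
  have hD : ∀ x (s : S), (optionCongr D ^ x) (some s) = some ((D ^ x) s) := by
    intro x
    induction x with
    | zero => intro s; rfl
    | succ x ih => intro s; rw [pow_succ', Perm.mul_apply, ih, pow_succ', Perm.mul_apply]; rfl
  set f := (optionCongr D)⁻¹ * gp c u with hf
  have hbad : ∀ x, gp c (x * u) none = some ((D ^ x) s₀) → (f ^ x) none = some s₀ := by
    intro x h
    rw [gp_drift hc, ← hD, Perm.mul_apply] at h
    exact (optionCongr D ^ x).injective h
  by_contra hcon
  push Not at hcon
  obtain ⟨h1, h2⟩ := hcon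
  have h1' := hbad x h1
  have h2' := hbad (x + 1) h2
  rw [pow_succ', Perm.mul_apply, h1'] at h2'
  have h3 : (f ^ x) (some s₀) = some s₀ := by
    clear h1' h1 h2
    induction x with
    | zero => rfl
    | succ x ih => rw [pow_succ', Perm.mul_apply, ih, h2']
  have h4 : (f ^ x) none = (f ^ x) (some s₀) := by rw [h1', h3]
  exact absurd ((f ^ x).injective h4) (by simp)

theorem drift_pow {c : ℕ → S} {u : ℕ} {D : Perm S} (hc : ∀ l, c (l + u) = D (c l)) (j x : ℕ) :
    c (x * u + j) = (D ^ x) (c j) := by
  induction x with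
  | zero => simp
  | succ x ih =>
    have e : (x + 1) * u + j = x * u + j + u := by ring
    rw [e, hc, ih, pow_succ', Perm.mul_apply]

/-- The vertex of a strand below (`false`) or above (`true`) the visit. -/
def tv (lo up : ℕ → S → V) (n : ℕ) (p : S × Bool) : V := if p.2 = true then up (n - 1) p.1 else lo 0 p.1

/-- `x` and `y` are joined to two different ends of strands. -/
def Ends (R : V → V → Prop) (lo up : ℕ → S → V) (n : ℕ) (x y : V) : Prop :=
  ∃ p q : S × Bool, p ≠ q ∧ R x (tv lo up n p) ∧ R y (tv lo up n q)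

namespace Visit

variable {R : V → V → Prop} {lo up : ℕ → S → V} {v w : ℕ → V} {c : ℕ → S} {al : ℕ → Prop} {n : ℕ}

theorem down_some' (h : Visit R lo up v w c al n) {m : ℕ} (hm : m < n) (ha : ∀ l < m, al l) {σ : Option S}
    (hσ : gp c m none ≠ σ) : ∃ s, (gp c m)⁻¹ σ = some s ∧ R (ver lo v m σ) (lo 0 s) := by
  have h1 := h.down hm ha σ
  cases h2 : (gp c m)⁻¹ σ with
  | none =>
    rw [Perm.inv_eq_iff_eq] at h2
    exact absurd h2.symm hσ
  | some s =>
    rw [h2] at h1
    exact ⟨s, rfl, h1⟩

/-- One exit letter: the ends. -/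
theorem ends_one' {m : ℕ} (h : Visit R lo up v w c al (m + 1)) (ha : ∀ l < m, al l) (hg : gp c m none ≠ some (c m)) :
    Ends R lo up (m + 1) (v 0) (w m) := by
  have hm : m < m + 1 := by omega
  have he : R (v 0) (ver lo v m (gp c m none)) := h.run hm ha none
  by_cases hal : al m
  · obtain ⟨s, -, hs⟩ := h.down_some' hm ha hg
    have hx : ∃ s, R (v 0) (up m s) := by
      cases h1 : gp c m none with
      | none => rw [h1] at he; exact ⟨c m, h.eqv.trans he (h.al2 m hm hal)⟩
      | some s =>
        rw [h1] at he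
        refine ⟨s, h.eqv.trans he (h.line m hm s ?_)⟩
        rintro rfl
        exact hg h1
    obtain ⟨s', hs'⟩ := hx
    exact ⟨(s', true), (s, false), by simp, hs', h.eqv.trans (h.eqv.symm (h.al1 m hm hal)) hs⟩
  · have hy : R (w m) (up m (c m)) := h.na2 m hm hal
    cases h1 : gp c m none with
    | none =>
      rw [h1] at he
      obtain ⟨s, -, hs⟩ := h.down_some' hm ha (σ := some (c m)) (by rw [h1]; simp)
      exact ⟨(s, false), (c m, true), by simp, h.eqv.trans he (h.eqv.trans (h.eqv.symm (h.na1 m hm hal)) hs), hy⟩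
    | some s =>
      rw [h1] at he
      have hne : s ≠ c m := by rintro rfl; exact hg h1
      exact ⟨(s, true), (c m, true), by simp [hne], h.eqv.trans he (h.line m hm s hne), hy⟩

/-- Two exit letters: the ends. -/
theorem ends_two' {m : ℕ} (h : Visit R lo up v w c al (m + 2)) (ha : ∀ l < m, al l)
    (hg : gp c m none ≠ some (c (m + 1))) (hd : (al m ↔ al (m + 1)) → c m ≠ c (m + 1)) :
    Ends R lo up (m + 2) (v 0) (w (m + 1)) := by
  have hm1 : m + 1 < m + 2 := by omega
  have hm : m < m + 2 := by omega
  by_cases hal : al m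
  · have ha' : ∀ l < m + 1, al l := fun l hl => by
      rcases Nat.lt_or_ge l m with h1 | h1
      · exact ha l h1
      · have : l = m := by omega
        subst this
        exact hal
    have he : R (v 0) (ver lo v (m + 1) (gp c (m + 1) none)) := h.run hm1 ha' none
    by_cases hal1 : al (m + 1)
    · have hcc := hd ⟨fun _ => hal1, fun _ => hal⟩
      have hg' : gp c (m + 1) none ≠ some (c (m + 1)) := by
        intro h1
        change (swap none (some (c m)) * gp c m) none = _ at h1
        rw [Perm.mul_apply] at h1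
        have h2 : gp c m none = swap none (some (c m)) (some (c (m + 1))) := by
          rw [← h1, swap_apply_self]
        rw [swap_apply_of_ne_of_ne (by simp) (by simpa using hcc.symm)] at h2
        exact hg h2
      obtain ⟨s, -, hs⟩ := h.down_some' hm1 ha' hg'
      have hx : ∃ s, R (v 0) (up (m + 1) s) := by
        cases h1 : gp c (m + 1) none with
        | none => rw [h1] at he; exact ⟨c (m + 1), h.eqv.trans he (h.al2 _ hm1 hal1)⟩
        | some s =>
          rw [h1] at he
          refine ⟨s, h.eqv.trans he (h.line _ hm1 s ?_)⟩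
          rintro rfl
          exact hg' h1
      obtain ⟨s', hs'⟩ := hx
      exact ⟨(s', true), (s, false), by simp, hs', h.eqv.trans (h.eqv.symm (h.al1 _ hm1 hal1)) hs⟩
    · have hy : R (w (m + 1)) (up (m + 1) (c (m + 1))) := h.na2 _ hm1 hal1
      cases h1 : gp c (m + 1) none with
      | none =>
        rw [h1] at he
        obtain ⟨s, -, hs⟩ := h.down_some' hm1 ha' (σ := some (c (m + 1))) (by rw [h1]; simp)
        exact ⟨(s, false), (c (m + 1), true), by simp,
          h.eqv.trans he (h.eqv.trans (h.eqv.symm (h.na1 _ hm1 hal1)) hs), hy⟩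
      | some s =>
        rw [h1] at he
        by_cases hs : s = c (m + 1)
        · subst hs
          obtain ⟨s, -, hs⟩ := h.down_some' hm1 ha' (σ := none) (by rw [h1]; simp)
          exact ⟨(s, false), (c (m + 1), true), by simp, h.eqv.trans he (h.eqv.trans (h.na1 _ hm1 hal1) hs), hy⟩
        · exact ⟨(s, true), (c (m + 1), true), by simp [hs], h.eqv.trans he (h.line _ hm1 s hs), hy⟩
  · have he : R (v 0) (ver lo v m (gp c m none)) := h.run hm ha none
    have hw : R (v (m + 1)) (lo (m + 1) (c m)) :=
      h.eqv.trans (h.eqv.symm (h.hand m hm1)) (h.eqv.trans (h.na2 m hm hal) (h.next m hm1 _))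
    -- the end `y`
    have hy : R (w (m + 1)) (up (m + 1) (c (m + 1))) ∨
        (c m ≠ c (m + 1) ∧ ∃ s, (gp c m)⁻¹ (some (c (m + 1))) = some s ∧ R (w (m + 1)) (lo 0 s)) := by
      by_cases hal1 : al (m + 1)
      · by_cases hcc : c m = c (m + 1)
        · left
          have h1 := h.al1 _ hm1 hal1
          have h2 := h.al2 _ hm1 hal1
          rw [hcc] at hw
          exact h.eqv.trans (h.eqv.symm h1) (h.eqv.trans (h.eqv.symm hw) h2)
        · right
          obtain ⟨s, hs0, hs⟩ := h.down_some' hm ha hg
          refine ⟨hcc, s, hs0, ?_⟩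
          have h1 := h.al1 _ hm1 hal1
          have h2 := h.next m hm1 (c (m + 1))
          have h3 := h.line m hm (c (m + 1)) (Ne.symm hcc)
          exact h.eqv.trans (h.eqv.symm h1) (h.eqv.trans (h.eqv.symm h2) (h.eqv.trans (h.eqv.symm h3) hs))
      · exact Or.inl (h.na2 _ hm1 hal1)
    -- the end `x`
    have hx : (∃ σ s, σ ≠ some (c (m + 1)) ∧ (gp c m)⁻¹ σ = some s ∧ R (v 0) (lo 0 s)) ∨
        (∃ s, s ≠ c (m + 1) ∧ R (v 0) (up (m + 1) s)) ∨ ∃ s, (gp c m)⁻¹ (some (c m)) = some s ∧ R (v 0) (lo 0 s) := by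
      cases h1 : gp c m none with
      | none =>
        rw [h1] at he
        obtain ⟨s, hs0, hs⟩ := h.down_some' hm ha (σ := some (c m)) (by rw [h1]; simp)
        exact Or.inr (Or.inr ⟨s, hs0, h.eqv.trans he (h.eqv.trans (h.eqv.symm (h.na1 m hm hal)) hs)⟩)
      | some s =>
        rw [h1] at he
        by_cases hs : s = c m
        · subst hs
          obtain ⟨s, hs0, hs⟩ := h.down_some' hm ha (σ := none) (by rw [h1]; simp)
          exact Or.inl ⟨none, s, by simp, hs0, h.eqv.trans he (h.eqv.trans (h.na1 m hm hal) hs)⟩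
        · have h2 : s ≠ c (m + 1) := by
            rintro rfl
            exact hg h1
          exact Or.inr (Or.inl ⟨s, h2,
            h.eqv.trans he (h.eqv.trans (h.line m hm s hs) (h.eqv.trans (h.next m hm1 s) (h.line _ hm1 s h2)))⟩)
    rcases hy with hy | ⟨hcc, s', hs', hy⟩
    · rcases hx with ⟨σ, s, -, -, hx⟩ | ⟨s, hs, hx⟩ | ⟨s, -, hx⟩
      · exact ⟨(s, false), (c (m + 1), true), by simp, hx, hy⟩
      · exact ⟨(s, true), (c (m + 1), true), by simp [hs], hx, hy⟩
      · exact ⟨(s, false), (c (m + 1), true), by simp, hx, hy⟩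
    · rcases hx with ⟨σ, s, hσ, hs, hx⟩ | ⟨s, hs, hx⟩ | ⟨s, hs, hx⟩
      · refine ⟨(s, false), (s', false), ?_, hx, hy⟩
        intro h5
        have h6 : s = s' := congrArg Prod.fst h5
        rw [h6, ← hs'] at hs
        exact hσ ((gp c m)⁻¹.injective hs)
      · exact ⟨(s, true), (s', false), by simp, hx, hy⟩
      · refine ⟨(s, false), (s', false), ?_, hx, hy⟩
        intro h5
        have h6 : s = s' := congrArg Prod.fst h5
        rw [h6, ← hs'] at hs
        exact hcc (Option.some.inj ((gp c m)⁻¹.injective hs))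

end Visit

end Pool.Agent.Lib.MP_688fd0_co.SQ5.H12
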