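import Pool.Agent.Lib.MP_688fd0_co.SQ5.H12.Sel

/-!
The trajectory of a thread (helper12, finding 4311, section 2 and 3): group part.

`pre s t = s 0 * ... * s (t - 1)`. For a periodic sequence whose period value `ω` generates `N` modulo `N0 = N ⊓ H` and whose
prefixes meet all cosets of `N`: all cosets of `H` are visited in one turn of length `q n` (`visit`), one turn later the
trajectory is in the same coset again (`again`), there are at most `4 n ^ 2` types of pairs of visits of one coset (`types`), at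
most `3 n` visits of one coset (`few`), and there is a real number `θ` such that the vertical moves chosen near `θ t` separate
all pairs of visits (`theta`). `choose_S` chooses the vertical moves one after the other.
-/

set_option autoImplicit false

namespace Pool.Agent.Lib.MP_688fd0_co.SQ5.H12

open Finset

variable {Q : Type*} [Group Q]

/-- The prefix products. -/
def pre (s : ℕ → Q) : ℕ → Q
  | 0 => 1
  | t + 1 => pre s t * s t

@[simp] theorem pre_zero (s : ℕ → Q) : pre s 0 = 1 := rfl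

theorem pre_succ (s : ℕ → Q) (t : ℕ) : pre s (t + 1) = pre s t * s t := rfl

theorem pre_add (s : ℕ → Q) (t m : ℕ) : pre s (t + m) = pre s t * pre (fun i => s (t + i)) m := by
  induction m with
  | zero => simp
  | succ m ih => rw [← add_assoc, pre_succ, ih, pre_succ, mul_assoc]

theorem pre_congr {s s' : ℕ → Q} {t : ℕ} (h : ∀ i < t, s i = s' i) : pre s t = pre s' t := by
  induction t with
  | zero => rfl
  | succ t ih => rw [pre_succ, pre_succ, ih fun i hi => h i (by omega), h t (by omega)]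

omit [Group Q] in
theorem per_mul {s : ℕ → Q} {n : ℕ} (per : ∀ t, s (t + n) = s t) (j t : ℕ) : s (j * n + t) = s t := by
  induction j with
  | zero => simp
  | succ j ih =>
    have : (j + 1) * n + t = (j * n + t) + n := by ring
    rw [this, per, ih]

theorem pre_per {s : ℕ → Q} {n : ℕ} (per : ∀ t, s (t + n) = s t) (j i : ℕ) :
    pre s (j * n + i) = pre s n ^ j * pre s i := by
  induction j with
  | zero => simp
  | succ j ih =>
    have h : (j + 1) * n + i = n + (j * n + i) := by ring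
    rw [h, pre_add]
    have h2 : (fun i => s (n + i)) = s := by
      funext i
      rw [add_comm, per]
    rw [h2, ih, pow_succ', mul_assoc]

/-- The periodic sequence of a list. -/
def ofList (l : List Q) (t : ℕ) : Q := l.getD (t % l.length) 1

theorem ofList_per (l : List Q) (t : ℕ) : ofList l (t + l.length) = ofList l t := by
  unfold ofList
  rw [Nat.add_mod_right]

theorem ofList_mem {l : List Q} (hl : l ≠ []) (t : ℕ) : ofList l t ∈ l := by
  unfold ofList
  have h : t % l.length < l.length := Nat.mod_lt _ (List.length_pos_iff.2 hl)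
  rw [List.getD_eq_getElem _ _ h]
  exact List.getElem_mem h

theorem pre_ofList (l : List Q) (i : ℕ) (hi : i ≤ l.length) : pre (ofList l) i = (l.take i).prod := by
  induction i with
  | zero => simp
  | succ i ih =>
    have h : i < l.length := by omega
    rw [pre_succ, ih (by omega), List.prod_take_succ _ _ h]
    congr 1
    unfold ofList
    rw [Nat.mod_eq_of_lt h, List.getD_eq_getElem _ _ h]

/-- The data of a periodic trajectory. -/
structure Per (H N N0 : Subgroup Q) where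
  n : ℕ
  q : ℕ
  n_pos : 0 < n
  q_pos : 0 < q
  s : ℕ → Q
  per : ∀ t, s (t + n) = s t
  notH : ∀ t, s t ∉ H
  nN : N.Normal
  nN0 : N0.Normal
  inf : ∀ x, x ∈ N0 ↔ x ∈ N ∧ x ∈ H
  om : pre s n ∈ N
  ord : ∀ m : ℤ, pre s n ^ m ∈ N0 ↔ (q : ℤ) ∣ m
  all : ∀ x : Q, ∃ i < n, (pre s i)⁻¹ * x ∈ N
  gen : ∀ x ∈ N, ∃ m : ℕ, x⁻¹ * pre s n ^ m ∈ N0

namespace Per

variable {H N N0 : Subgroup Q} (P : Per H N N0)

/-- The positions without the vertical moves. -/
def w (t : ℕ) : Q := pre P.s t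

theorem w_zero : P.w 0 = 1 := rfl

theorem w_succ (t : ℕ) : P.w (t + 1) = P.w t * P.s t := rfl

/-- The value of one period. -/
def ω : Q := pre P.s P.n

theorem w_per (j i : ℕ) : P.w (j * P.n + i) = P.ω ^ j * P.w i := pre_per P.per j i

theorem w_div (t : ℕ) : P.w t = P.ω ^ (t / P.n) * P.w (t % P.n) := by
  conv_lhs => rw [← Nat.div_add_mod t P.n, mul_comm]
  exact P.w_per _ _

include P in
theorem N0_le_H {x : Q} (h : x ∈ N0) : x ∈ H := ((P.inf x).1 h).2

/-- (a) Every coset of `H` is visited in the first turn. -/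
theorem visit (x : Q) : ∃ t < P.q * P.n, (P.w t)⁻¹ * x ∈ H := by
  obtain ⟨i, hi, h⟩ := P.all x
  have h1 : x * (pre P.s i)⁻¹ ∈ N := by
    have := P.nN.conj_mem _ h (pre P.s i)
    have e : pre P.s i * ((pre P.s i)⁻¹ * x) * (pre P.s i)⁻¹ = x * (pre P.s i)⁻¹ := by group
    rwa [e] at this
  obtain ⟨m, hm⟩ := P.gen _ h1
  have hmod : (x * (pre P.s i)⁻¹)⁻¹ * P.ω ^ (m % P.q) ∈ N0 := by
    have e : P.ω ^ m = P.ω ^ (m % P.q) * P.ω ^ (P.q * (m / P.q)) := by
      rw [← pow_add, Nat.mod_add_div]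
    have h2 : P.ω ^ (P.q * (m / P.q)) ∈ N0 := by
      have := (P.ord ((P.q * (m / P.q) : ℕ) : ℤ)).2 ⟨_, by push_cast; rfl⟩
      rwa [zpow_natCast] at this
    have h3 : (x * (pre P.s i)⁻¹)⁻¹ * P.ω ^ (m % P.q) =
        (x * (pre P.s i)⁻¹)⁻¹ * P.ω ^ m * (P.ω ^ (P.q * (m / P.q)))⁻¹ := by
      rw [e]; group
    rw [h3]
    exact N0.mul_mem hm (N0.inv_mem h2)
  refine ⟨m % P.q * P.n + i, ?_, ?_⟩
  · have h4 : m % P.q + 1 ≤ P.q := Nat.mod_lt _ P.q_pos
    calc m % P.q * P.n + i < m % P.q * P.n + P.n := by omega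
      _ = (m % P.q + 1) * P.n := by ring
      _ ≤ P.q * P.n := Nat.mul_le_mul_right _ h4
  · rw [P.w_per]
    have h5 := P.nN0.conj_mem _ (N0.inv_mem hmod) (P.w i)⁻¹
    have e : (P.w i)⁻¹ * ((x * (pre P.s i)⁻¹)⁻¹ * P.ω ^ (m % P.q))⁻¹ * ((P.w i)⁻¹)⁻¹ =
        (P.ω ^ (m % P.q) * P.w i)⁻¹ * x := by
      show (pre P.s i)⁻¹ * ((x * (pre P.s i)⁻¹)⁻¹ * P.ω ^ (m % P.q))⁻¹ * ((pre P.s i)⁻¹)⁻¹ =
        (P.ω ^ (m % P.q) * pre P.s i)⁻¹ * x
      group
    rw [e] at h5
    exact P.N0_le_H h5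

/-- (b) One turn later the trajectory is in the same coset. -/
theorem again (t : ℕ) : (P.w t)⁻¹ * P.w (t + P.q * P.n) ∈ N0 := by
  have h1 : P.w (t + P.q * P.n) = P.ω ^ P.q * P.w t := by
    rw [add_comm, P.w_per]
  rw [h1]
  have h2 : P.ω ^ P.q ∈ N0 := by
    have := (P.ord (P.q : ℤ)).2 (dvd_refl _)
    rwa [zpow_natCast] at this
  have h3 := P.nN0.conj_mem _ h2 (P.w t)⁻¹
  rwa [inv_inv, mul_assoc] at h3

/-- Two vertical positions of a column. -/
theorem same_class {i i' : ℕ} {m m' : ℤ} (h : (P.w i)⁻¹ * P.ω ^ m * P.w i' ∈ H)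
    (h' : (P.w i)⁻¹ * P.ω ^ m' * P.w i' ∈ H) : (P.q : ℤ) ∣ m' - m := by
  have h1 : (P.w i)⁻¹ * P.ω ^ (m' - m) * P.w i ∈ H := by
    have := H.mul_mem h' (H.inv_mem h)
    have e : (P.w i)⁻¹ * P.ω ^ m' * P.w i' * ((P.w i)⁻¹ * P.ω ^ m * P.w i')⁻¹ =
        (P.w i)⁻¹ * P.ω ^ (m' - m) * P.w i := by
      rw [zpow_sub]; group
    rwa [e] at this
  have h2 : P.ω ^ (m' - m) ∈ N := N.zpow_mem P.om _
  have h3 : (P.w i)⁻¹ * P.ω ^ (m' - m) * P.w i ∈ N := by
    have := P.nN.conj_mem _ h2 (P.w i)⁻¹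
    rwa [inv_inv] at this
  have h4 := (P.inf _).2 ⟨h3, h1⟩
  have h5 := P.nN0.conj_mem _ h4 (P.w i)
  have e : P.w i * ((P.w i)⁻¹ * P.ω ^ (m' - m) * P.w i) * (P.w i)⁻¹ = P.ω ^ (m' - m) := by group
  rw [e] at h5
  exact (P.ord _).1 h5

/-- The types of pairs of visits: (element of `H`, difference of the times). -/
noncomputable def types : Finset (Q × ℕ) := by
  classical
  exact (((Finset.range P.n ×ˢ Finset.range P.n) ×ˢ Finset.range (3 * P.q + 1)).filter fun a =>
    (P.w a.1.1)⁻¹ * P.ω ^ a.2 * P.w a.1.2 ∈ H ∧ a.1.1 < a.2 * P.n + a.1.2).image fun a =>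
      ((P.w a.1.1)⁻¹ * P.ω ^ a.2 * P.w a.1.2, a.2 * P.n + a.1.2 - a.1.1)

theorem card_types : P.types.card ≤ 4 * P.n ^ 2 := by
  classical
  unfold types
  refine Finset.card_image_le.trans ?_
  set F := ((Finset.range P.n ×ˢ Finset.range P.n) ×ˢ Finset.range (3 * P.q + 1)).filter fun a =>
    (P.w a.1.1)⁻¹ * P.ω ^ a.2 * P.w a.1.2 ∈ H ∧ a.1.1 < a.2 * P.n + a.1.2 with hF
  have h1 : F.card = ∑ b ∈ Finset.range P.n ×ˢ Finset.range P.n, (F.filter fun a => a.1 = b).card := by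
    refine Finset.card_eq_sum_card_fiberwise fun a ha => ?_
    have := (Finset.mem_filter.1 (Finset.mem_coe.1 ha)).1
    exact (Finset.mem_product.1 this).1
  have h2 : ∀ b ∈ Finset.range P.n ×ˢ Finset.range P.n, (F.filter fun a => a.1 = b).card ≤ 4 := by
    intro b _
    by_cases hne : (F.filter fun a => a.1 = b).Nonempty
    · obtain ⟨a0, ha0⟩ := hne
      have hin : Set.InjOn (fun a : (ℕ × ℕ) × ℕ => a.2 / P.q) (F.filter fun a => a.1 = b : Finset _) := by
        intro a ha a' ha' heq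
        rw [Finset.mem_coe, Finset.mem_filter] at ha ha'
        have e1 := (Finset.mem_filter.1 ha.1).2.1
        have e2 := (Finset.mem_filter.1 ha'.1).2.1
        rw [ha.2] at e1
        rw [ha'.2] at e2
        have e3 : (P.q : ℤ) ∣ (a'.2 : ℤ) - a.2 := by
          refine P.same_class (i := b.1) (i' := b.2) ?_ ?_
          · rwa [zpow_natCast]
          · rwa [zpow_natCast]
        have e4 : a.2 % P.q = a'.2 % P.q := by
          have := (Nat.modEq_iff_dvd (n := P.q) (a := a.2) (b := a'.2)).2 e3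
          exact this
        have e5 : a.2 = a'.2 := by
          rw [← Nat.div_add_mod a.2 P.q, ← Nat.div_add_mod a'.2 P.q, e4]
          have : a.2 / P.q = a'.2 / P.q := heq
          rw [this]
        exact Prod.ext (ha.2.trans ha'.2.symm) e5
      have hmap : ∀ a ∈ (F.filter fun a => a.1 = b), a.2 / P.q ∈ Finset.range 4 := by
        intro a ha
        rw [Finset.mem_filter] at ha
        have e1 := (Finset.mem_filter.1 ha.1).1
        have e2 := Finset.mem_range.1 (Finset.mem_product.1 e1).2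
        rw [Finset.mem_range, Nat.div_lt_iff_lt_mul P.q_pos]
        have := P.q_pos
        omega
      have := Finset.card_le_card_of_injOn _ hmap hin
      simpa using this
    · rw [Finset.not_nonempty_iff_eq_empty] at hne
      rw [hne]
      simp
  rw [h1]
  calc _ ≤ ∑ _b ∈ Finset.range P.n ×ˢ Finset.range P.n, 4 := Finset.sum_le_sum h2
    _ = 4 * P.n ^ 2 := by
      rw [Finset.sum_const, Finset.card_product, Finset.card_range, smul_eq_mul]
      ring

/-- (c) The type of a pair of visits. -/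
theorem mem_types {t t' : ℕ} (htt : t < t') (ht' : t' ≤ 3 * (P.q * P.n)) (h : (P.w t)⁻¹ * P.w t' ∈ H) :
    ((P.w t)⁻¹ * P.w t', t' - t) ∈ P.types := by
  classical
  have hn := P.n_pos
  have hle : t / P.n ≤ t' / P.n := Nat.div_le_div_right htt.le
  obtain ⟨m, hm⟩ := Nat.exists_eq_add_of_le hle
  have e : (P.w t)⁻¹ * P.w t' = (P.w (t % P.n))⁻¹ * P.ω ^ m * P.w (t' % P.n) := by
    rw [P.w_div t, P.w_div t', hm, pow_add]
    group
  have e2 : t' - t = m * P.n + t' % P.n - t % P.n := by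
    have h1 := Nat.div_add_mod t P.n
    have h2 := Nat.div_add_mod t' P.n
    rw [hm, mul_add] at h2
    have h3 : P.n * m = m * P.n := mul_comm _ _
    omega
  have e3 : t % P.n < m * P.n + t' % P.n := by
    have h1 := Nat.div_add_mod t P.n
    have h2 := Nat.div_add_mod t' P.n
    rw [hm, mul_add] at h2
    have h3 : P.n * m = m * P.n := mul_comm _ _
    omega
  have hm3 : m < 3 * P.q + 1 := by
    have h1 : t' / P.n ≤ 3 * P.q := by
      rw [Nat.div_le_iff_le_mul_add_pred hn]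
      calc t' ≤ 3 * (P.q * P.n) := ht'
        _ = P.n * (3 * P.q) := by ring
        _ ≤ _ := Nat.le_add_right _ _
    rw [hm] at h1
    exact Nat.lt_succ_of_le ((Nat.le_add_left _ _).trans h1)
  unfold types
  rw [Finset.mem_image]
  refine ⟨((t % P.n, t' % P.n), m), ?_, ?_⟩
  · rw [Finset.mem_filter, Finset.mem_product, Finset.mem_product, Finset.mem_range, Finset.mem_range, Finset.mem_range]
    exact ⟨⟨⟨Nat.mod_lt _ hn, Nat.mod_lt _ hn⟩, hm3⟩, e ▸ h, e3⟩
  · rw [e, e2]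

theorem types_H {a : Q × ℕ} (h : a ∈ P.types) : a.1 ∈ H ∧ 2 ≤ a.2 := by
  classical
  unfold types at h
  rw [Finset.mem_image] at h
  obtain ⟨b, hb, rfl⟩ := h
  rw [Finset.mem_filter] at hb
  refine ⟨hb.2.1, ?_⟩
  show 2 ≤ b.2 * P.n + b.1.2 - b.1.1
  have h0 := hb.2.2
  by_contra hcon
  have h1 : b.2 * P.n + b.1.2 = b.1.1 + 1 := by omega
  have h2 : P.w (b.2 * P.n + b.1.2) = P.ω ^ b.2 * P.w b.1.2 := P.w_per _ _
  rw [h1, P.w_succ] at h2
  have h3 : (P.w b.1.1)⁻¹ * P.ω ^ b.2 * P.w b.1.2 = P.s b.1.1 := by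
    rw [mul_assoc, ← h2]
    group
  have h4 := hb.2.1
  rw [h3] at h4
  exact P.notH _ h4

/-- (e) At most `3 n` visits of a coset. -/
theorem few (x : Q) [DecidablePred fun t => (P.w t)⁻¹ * x ∈ H] :
    ((Finset.range (3 * (P.q * P.n))).filter fun t => (P.w t)⁻¹ * x ∈ H).card ≤ 3 * P.n := by
  classical
  have hn := P.n_pos
  have hin : Set.InjOn (fun t : ℕ => (t % P.n, t / P.n / P.q))
      ((Finset.range (3 * (P.q * P.n))).filter fun t => (P.w t)⁻¹ * x ∈ H : Finset _) := by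
    intro t ht t' ht' heq
    rw [Finset.mem_coe, Finset.mem_filter] at ht ht'
    simp only [Prod.mk.injEq] at heq
    have h1 : (P.w (t % P.n))⁻¹ * P.ω ^ ((t' / P.n : ℕ) - (t / P.n : ℕ) : ℤ) * P.w (t % P.n) ∈ H := by
      have := H.mul_mem ht.2 (H.inv_mem ht'.2)
      rw [P.w_div t, P.w_div t', ← heq.1] at this
      have e : (P.ω ^ (t / P.n) * P.w (t % P.n))⁻¹ * x * ((P.ω ^ (t' / P.n) * P.w (t % P.n))⁻¹ * x)⁻¹ =
          (P.w (t % P.n))⁻¹ * P.ω ^ ((t' / P.n : ℕ) - (t / P.n : ℕ) : ℤ) * P.w (t % P.n) := by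
        have e2 : P.ω ^ ((t' / P.n : ℕ) - (t / P.n : ℕ) : ℤ) = (P.ω ^ (t / P.n))⁻¹ * P.ω ^ (t' / P.n) := by
          rw [sub_eq_neg_add, zpow_add, zpow_neg, zpow_natCast, zpow_natCast]
        rw [e2]
        group
      rwa [e] at this
    have h2 : (P.w (t % P.n))⁻¹ * P.ω ^ (0 : ℤ) * P.w (t % P.n) ∈ H := by
      have : (P.w (t % P.n))⁻¹ * P.ω ^ (0 : ℤ) * P.w (t % P.n) = 1 := by group
      rw [this]
      exact H.one_mem
    have h3 := P.same_class h2 h1
    rw [sub_zero] at h3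
    have h4 : (t / P.n) % P.q = (t' / P.n) % P.q := (Nat.modEq_iff_dvd (n := P.q)).2 h3
    have h5 : t / P.n = t' / P.n := by
      rw [← Nat.div_add_mod (t / P.n) P.q, ← Nat.div_add_mod (t' / P.n) P.q, h4, heq.2]
    rw [← Nat.div_add_mod t P.n, ← Nat.div_add_mod t' P.n, h5, heq.1]
  have hmap : ∀ t ∈ ((Finset.range (3 * (P.q * P.n))).filter fun t => (P.w t)⁻¹ * x ∈ H),
      (t % P.n, t / P.n / P.q) ∈ Finset.range P.n ×ˢ Finset.range 3 := by
    intro t ht
    rw [Finset.mem_filter, Finset.mem_range] at ht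
    rw [Finset.mem_product, Finset.mem_range, Finset.mem_range]
    refine ⟨Nat.mod_lt _ hn, ?_⟩
    show t / P.n / P.q < 3
    rw [Nat.div_lt_iff_lt_mul P.q_pos, Nat.div_lt_iff_lt_mul hn]
    calc t < 3 * (P.q * P.n) := ht.1
      _ = _ := by ring
  have := Finset.card_le_card_of_injOn _ hmap hin
  rw [Finset.card_product, Finset.card_range, Finset.card_range] at this
  linarith

/-- (d) The real number `θ`. `Y h` = the bad levels of a pair of visits which differ by `h ∈ H` (vertical moves not counted). -/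
theorem theta (u E L : ℕ) (hu : 1 ≤ u) (Y : Q → Set ℤ) (hY : ∀ h ∈ H, Sparse L (Y h))
    (hL : 1000 * (4 * P.n ^ 2 + 1) * u * (4 ^ (40 * P.n ^ 2 + 1) * (30 + 5 * E)) ≤ L) :
    ∃ θ : ℝ, 30 + 5 * (E : ℝ) ≤ θ ∧ θ ≤ 2 * (4 ^ (40 * P.n ^ 2) * (30 + 5 * E)) ∧
      ∀ S : ℕ → ℤ, (∀ t, S t = ⌊θ * t⌋ ∨ S t = ⌊θ * t⌋ + 1) →
        ∀ t t', t < t' → t' ≤ 3 * (P.q * P.n) → (P.w t)⁻¹ * P.w t' ∈ H →
          ∀ y ∈ Y ((P.w t)⁻¹ * P.w t'), u * (θ + 4) + E < |(u : ℝ) * (S t' - S t) - y| := by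
  have hc := P.card_types
  obtain ⟨θ, h1, h2, h3⟩ := sel P.types (fun a => a.2) (fun a => Y a.1) u E L hu (fun a ha => (P.types_H ha).2)
    (fun a ha => hY _ (P.types_H ha).1) (by
      refine le_trans ?_ hL
      have e1 : 1000 * (P.types.card + 1) ≤ 1000 * (4 * P.n ^ 2 + 1) := by omega
      have e2 : 4 ^ (10 * P.types.card + 1) ≤ 4 ^ (40 * P.n ^ 2 + 1) := Nat.pow_le_pow_right (by norm_num) (by omega)
      exact Nat.mul_le_mul (Nat.mul_le_mul_right _ e1) (Nat.mul_le_mul_right _ e2))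
  refine ⟨θ, h1, h2.trans ?_, ?_⟩
  · have e2 : (4 : ℝ) ^ (10 * P.types.card) ≤ 4 ^ (40 * P.n ^ 2) := pow_le_pow_right₀ (by norm_num) (by omega)
    have e3 : (0 : ℝ) ≤ 30 + 5 * E := by positivity
    nlinarith [mul_le_mul_of_nonneg_right e2 e3]
  · intro S hS t t' htt ht' hH y hy
    have h4 := h3 _ (P.mem_types htt ht' hH) (S t' - S t) (by
      have hb : ∀ r : ℕ, θ * r - 1 < S r ∧ (S r : ℝ) ≤ θ * r + 1 := by
        intro r
        have e1 := Int.floor_le (θ * r)
        have e2 := Int.lt_floor_add_one (θ * r)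
        rcases hS r with h | h
        · rw [h]; constructor <;> linarith
        · rw [h]; push_cast; constructor <;> linarith
      have b1 := hb t
      have b2 := hb t'
      show |((S t' - S t : ℤ) : ℝ) - ((t' - t : ℕ) : ℝ) * θ| ≤ 3
      rw [Nat.cast_sub htt.le]
      push_cast
      rw [abs_le]
      constructor <;> nlinarith [b1.1, b1.2, b2.1, b2.2]) y hy
    push_cast at h4
    exact h4

end Per

/-- The vertical moves are chosen one after the other; `Good t S x`: the move `x` at the time `t` from the position `S` is good. -/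
theorem choose_S (θ : ℝ) (Good : ℕ → ℤ → ℤ → Prop) (hG : ∀ t S x, Good t S x ∨ Good t S (x + 1)) :
    ∃ S : ℕ → ℤ, S 0 = 0 ∧ (∀ t, S t = ⌊θ * t⌋ ∨ S t = ⌊θ * t⌋ + 1) ∧ ∀ t, Good t (S t) (S (t + 1) - S t) := by
  classical
  let S : ℕ → ℤ := fun t => Nat.rec 0 (fun t s =>
    if Good t s (⌊θ * ((t + 1 : ℕ) : ℝ)⌋ - s) then ⌊θ * ((t + 1 : ℕ) : ℝ)⌋ else ⌊θ * ((t + 1 : ℕ) : ℝ)⌋ + 1) t
  have hS : ∀ t, S (t + 1) = if Good t (S t) (⌊θ * ((t + 1 : ℕ) : ℝ)⌋ - S t) then ⌊θ * ((t + 1 : ℕ) : ℝ)⌋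
      else ⌊θ * ((t + 1 : ℕ) : ℝ)⌋ + 1 := fun t => rfl
  refine ⟨S, rfl, ?_, ?_⟩
  · intro t
    cases t with
    | zero => left; show (0 : ℤ) = _; simp
    | succ t =>
      rw [hS]
      split_ifs
      · exact Or.inl rfl
      · exact Or.inr rfl
  · intro t
    rw [hS]
    split_ifs with h
    · exact h
    · rcases hG t (S t) (⌊θ * ((t + 1 : ℕ) : ℝ)⌋ - S t) with h' | h'
      · exact absurd h' h
      · have e : ⌊θ * ((t + 1 : ℕ) : ℝ)⌋ + 1 - S t = ⌊θ * ((t + 1 : ℕ) : ℝ)⌋ - S t + 1 := by ring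
        rw [e]
        exact h'

end Pool.Agent.Lib.MP_688fd0_co.SQ5.H12
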