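import Pool.Agent.Lib.MP_688fd0_co.SQ5.H12.Plan
import Pool.Agent.Lib.MP_688fd0_co.SQ5.H12.Traj
import Pool.Agent.Lib.MP_688fd0_co.SQ5.H41.Uniq
import Pool.Agent.Lib.MP_688fd0_co.SQ5.H84.Posc
import Pool.Agent.Lib.MP_688fd0_co.SQ5.H49.Steps
import Pool.Agent.Lib.MP_688fd0_co.SQ5.H58.ThrA

/-!
FT (helper12): the visits of a thread. RESULT: `exists_plan`.
-/

set_option autoImplicit false

namespace Pool.Agent.Lib.MP_688fd0_co.SQ5.H12

open Pool.Agent.Lib.MP_688fd0_co.OSF Pool.Agent.Lib.MP_688fd0_co.SQ5.H76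

universe u v

/-! ### Aligned words -/

section aw

variable {Q : Type*} [Group Q] (q : L3 → Q)

/-- The aligned word with the phase `p`. -/
def Aw (p : ℤ) : ℕ → Q
  | 0 => 1
  | n + 1 => Aw p n * (q (if bw (p + n) = true then .a else .b) * q .t)

theorem Aw_add (p : ℤ) (m n : ℕ) : Aw q p (m + n) = Aw q p m * Aw q (p + m) n := by
  induction n with
  | zero => simp [Aw]
  | succ n ih =>
    rw [← add_assoc]
    show Aw q p (m + n) * _ = Aw q p m * (Aw q (p + m) n * _)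
    have e : p + ((m + n : ℕ) : ℤ) = p + m + n := by push_cast; ring
    rw [ih, e, mul_assoc]

theorem Aw_congr {p p' : ℤ} (h : p % 8 = p' % 8) (n : ℕ) : Aw q p n = Aw q p' n := by
  induction n with
  | zero => rfl
  | succ n ih =>
    show Aw q p n * _ = Aw q p' n * _
    rw [ih, bw_congr (show (p + n) % 8 = (p' + n) % 8 by omega)]

theorem Aw_pow (p : ℤ) (o : ℕ) : Aw q p (8 * o) = Aw q p 8 ^ o := by
  induction o with
  | zero => simp [Aw]
  | succ o ih =>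
    have e : 8 * (o + 1) = 8 * o + 8 := by ring
    rw [e, Aw_add, ih, pow_succ, Aw_congr q (show (p + ((8 * o : ℕ) : ℤ)) % 8 = p % 8 by push_cast; omega)]

theorem Aw_one (p : ℤ) : Aw q p 1 = q (if bw p = true then .a else .b) * q .t := by
  show 1 * (q (if bw (p + ((0 : ℕ) : ℤ)) = true then .a else .b) * q .t) = _
  rw [one_mul, Nat.cast_zero, add_zero]

variable {q}

/-- The central aligned word does not depend on the phase. -/
theorem Aw_phase {o : ℕ} (hc : ∀ (p : ℤ) (i : L3), Aw q p (8 * o) * (q i * q .t) = q i * q .t * Aw q p (8 * o)) (p p' : ℤ) :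
    Aw q p (8 * o) = Aw q p' (8 * o) := by
  have key : ∀ p : ℤ, Aw q (p + 1) (8 * o) = Aw q p (8 * o) := by
    intro p
    have h1 := Aw_add q p 1 (8 * o)
    have h2 := Aw_add q p (8 * o) 1
    rw [add_comm, h2, Aw_congr q (show (p + ((8 * o : ℕ) : ℤ)) % 8 = p % 8 by push_cast; omega), Aw_one, Nat.cast_one] at h1
    rw [hc] at h1
    exact (mul_left_cancel h1).symm
  have key2 : ∀ (n : ℕ) (p : ℤ), Aw q (p + n) (8 * o) = Aw q p (8 * o) := by
    intro n
    induction n with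
    | zero => intro p; rw [Nat.cast_zero, add_zero]
    | succ n ih =>
      intro p
      have e : p + ((n + 1 : ℕ) : ℤ) = p + n + 1 := by push_cast; ring
      rw [e, key, ih]
  rcases le_total p p' with h | h
  · obtain ⟨n, hn⟩ := Int.eq_ofNat_of_zero_le (sub_nonneg.2 h)
    have e : p' = p + n := by linarith
    rw [e, key2]
  · obtain ⟨n, hn⟩ := Int.eq_ofNat_of_zero_le (sub_nonneg.2 h)
    have e : p = p' + n := by linarith
    rw [e, key2]

theorem A_eq_Aw (T : Str Q) (n : ℕ) : T.A n = Aw T.q T.p0 n := by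
  induction n with
  | zero => rfl
  | succ n ih =>
    show T.A n * _ = Aw T.q T.p0 n * _
    rw [ih]
    rfl

/-- The number of letters `a` in a period. -/
theorem four (p : ℤ) {M : Type*} [AddCommGroup M] (al be : M) :
    (∑ n ∈ Finset.range 8, if bw (p + n) = true then al else be) = (4 : ℤ) • al + (4 : ℤ) • be := by
  have h : ∀ n : ℤ, bw (p + n) = bw (p % 8 + n) := fun n => bw_congr (by omega)
  have h8 : p % 8 = 0 ∨ p % 8 = 1 ∨ p % 8 = 2 ∨ p % 8 = 3 ∨ p % 8 = 4 ∨ p % 8 = 5 ∨ p % 8 = 6 ∨ p % 8 = 7 := by omega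
  simp only [Finset.sum_range_succ, Finset.sum_range_zero, h]
  rcases h8 with h8 | h8 | h8 | h8 | h8 | h8 | h8 | h8 <;> rw [h8] <;> simp [bw] <;> module

end aw

/-! ### The spot of a visit in a run -/

section spot

variable {L : AddSubgroup (ℤ × ℤ)} {M R : ℕ} {dc : ℕ → ℤ} {spc : ℕ → Prop} {G : ℤ} {g : Geo L M R dc spc G} {m0 : ℕ}
  {hw : ℤ → ℕ}

theorem e_per (g : Geo L M R dc spc G) (x k : ℤ) : g.w.e (k + x * g.w.Et) = g.w.e k + x * (g.i0 + g.j0) := by
  have key : ∀ n : ℕ, ∀ k, g.w.e (k + n * g.w.Et) = g.w.e k + n * (g.i0 + g.j0) := by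
    intro n
    induction n with
    | zero => intro s; simp
    | succ n ih =>
      intro k
      have e : k + ((n + 1 : ℕ) : ℤ) * g.w.Et = k + n * g.w.Et + g.w.Et := by push_cast; ring
      rw [e, g.w.eEt, ih]
      push_cast
      ring
  obtain ⟨n, rfl | rfl⟩ := x.eq_nat_or_neg
  · exact key n k
  · have h3 := key n (k + -(n : ℤ) * g.w.Et)
    have e : k + -(n : ℤ) * g.w.Et + n * g.w.Et = k := by ring
    rw [e] at h3
    linarith

/-- The run, the block and the white of a point of the zone. -/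
theorem spot (H : Geo.Mn g m0 hw) {kk : ℕ} (hkk : kk < m0) {μ U i j : ℤ} (hz : H49.InZone g kk μ U i j) :
    ∃ (z : ℤ) (n1 : ℕ) (e0 x : ℤ), 0 ≤ z ∧ z < g.w.Et ∧ U ≤ n1 + 1 ∧ n1 + U ≤ g.rE z ∧ μ ≤ e0 ∧ e0 + μ ≤ hw kk ∧
      i + j = g.rs z + n1 + x * (g.i0 + g.j0) ∧
      ((true, i - x * g.i0, j - x * g.j0) : V) =
        Pat.lv (g.rs z + n1 + ((0 : ℕ) : ℤ)) ((H.bd z).I.C kk (g.rs z + n1 + ((0 : ℕ) : ℤ)) + 2 * e0) := by
  obtain ⟨h1, h2, h3⟩ := hz
  obtain ⟨z, x, n1, hz0, hz1, hn, hs, hN⟩ := H.exists_run (i + j)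
  have hLv : g.Lv kk = 0 := H.Lv_zero (Int.natCast_nonneg kk) (by exact_mod_cast hkk.le)
  have hrs := g.rs_add z
  have hev : ∀ k, g.w.e (k + x * g.w.Et) = g.w.e k + x * (g.i0 + g.j0) := fun k => e_per g x k
  have u1 := h3 (z - 1 + x * g.w.Et)
  have u2 := h3 (z + x * g.w.Et)
  rw [hev, hLv] at u1 u2
  have hCC : g.C (kk : ℤ) (i + j) = g.C kk (g.rs z + n1) + x * (g.i0 - g.j0) := by
    rw [hs]; exact H41.C_w0z g x kk _
  have hsucc := H.C_succ (K := (kk : ℤ)) (Int.natCast_nonneg kk) (by exact_mod_cast hkk) (i + j)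
  have hpar := g.par' (kk : ℤ) (g.rs z + n1)
  have hfit : g.C (kk : ℤ) (g.rs z + n1) = (H.bd z).I.C kk (g.rs z + n1) :=
    (H.fit z).C' (kk : ℤ) n1 (Int.natCast_nonneg kk) (by exact_mod_cast hkk.le) (by omega)
  have hrE := g.rE_eq z
  have hrs' : g.rs z = g.w.e (z - 1) + 1 := rfl
  have hd1 : i + j - (0 + (g.w.e (z - 1) + x * (g.i0 + g.j0))) = n1 + 1 := by rw [hs, hrs']; ring
  have hd2 : i + j - (0 + (g.w.e z + x * (g.i0 + g.j0))) = n1 - g.rE z := by rw [hs, ← hrs]; ring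
  rw [hd1] at u1
  rw [hd2] at u2
  have hn' : (n1 : ℤ) ≤ g.rE z := by exact_mod_cast hn
  have u1' : U ≤ n1 + 1 := by rwa [abs_of_nonneg (by omega)] at u1
  have u2' : U ≤ g.rE z - n1 := by
    rw [abs_of_nonpos (by omega)] at u2
    linarith
  -- the white
  have e1 : ∃ e0 : ℤ, i - j = g.C kk (i + j) + 2 * e0 := by
    have hpar' : (g.C (kk : ℤ) (i + j) - (i + j)) % 2 = 0 := g.par' _ _
    exact ⟨(i - j - g.C kk (i + j)) / 2, by omega⟩
  obtain ⟨e0, he0⟩ := e1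
  refine ⟨z, n1, e0, x, hz0, hz1, u1', by linarith, ?_, ?_, hs, ?_⟩
  · rw [he0] at h1; linarith
  · have h4 : g.C ((kk : ℤ) + 1) (i + j) = g.C kk (i + j) + 2 * hw kk := hsucc
    rw [he0, h4] at h2; linarith
  · rw [Nat.cast_zero, add_zero, ← hfit, Pat.lv_even (by omega)]
    have e2 : i - j = g.C kk (g.rs z + n1) + x * (g.i0 - g.j0) + 2 * e0 := by rw [he0, hCC]
    refine Prod.ext rfl (Prod.ext ?_ ?_)
    · show i - x * g.i0 = (g.rs z + n1 + (g.C kk (g.rs z + n1) + 2 * e0)) / 2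
      have : g.rs z + n1 + (g.C kk (g.rs z + n1) + 2 * e0) = 2 * (i - x * g.i0) := by linear_combination -hs - e2
      omega
    · show j - x * g.j0 = (g.rs z + n1 - (g.C kk (g.rs z + n1) + 2 * e0)) / 2
      have : g.rs z + n1 - (g.C kk (g.rs z + n1) + 2 * e0) = 2 * (j - x * g.j0) := by linear_combination -hs + e2
      omega

end spot

/-! ### Words of a visit -/

section step

variable {Q : Type*} [Group Q] {T : Str Q} {v0 : Q} {e0 : ℤ} {hv0 : T.Ov v0 (T.wh 0 e0)} {u : ℕ} {i : Bool} {x : ℕ}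

theorem visK_w (hu : 8 ∣ u) (j : ℕ) : (Str.Vis.visK v0 e0 hv0 u i x).w (x * u + j) =
    v0 * T.A u ^ x * (T.q (if i = true then .a else .b) * T.q .t) ^ j * T.q (if i = true then .a else .b) := by
  show (Str.Vis.visK v0 e0 hv0 u i x).v (x * u + j) *
    T.q (if (if x * u + j < x * u then T.W (x * u + j) else i) = true then .a else .b) = _
  rw [Str.Vis.visK_v' hu, if_neg (by omega : ¬ x * u + j < x * u)]

end step

/-! ### Classes -/

section cls

variable {Q : Type u} [Group Q] {eps : Q →* ℤˣ} {G0 : Subgroup Q} {q : L3 → Q}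

theorem Aw_ker (hneg : ∀ i, eps (q i) = -1) (p : ℤ) (n : ℕ) : eps (Aw q p n) = 1 := by
  induction n with
  | zero => exact map_one _
  | succ n ih =>
    show eps (Aw q p n * _) = 1
    rw [map_mul, ih, map_mul, hneg, hneg]
    decide

theorem Aw_mem (hmem : ∀ i, q i ∈ G0) (p : ℤ) (n : ℕ) : Aw q p n ∈ G0 := by
  induction n with
  | zero => exact G0.one_mem
  | succ n ih => exact G0.mul_mem ih (G0.mul_mem (hmem _) (hmem _))

theorem cth_Aw (hneg : ∀ i, eps (q i) = -1) (hmem : ∀ i, q i ∈ G0) (p : ℤ) (n : ℕ) :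
    H58.cth eps G0 (Aw q p n) = ∑ k ∈ Finset.range n, if bw (p + k) = true then H58.cth eps G0 (q .a * q .t)
      else H58.cth eps G0 (q .b * q .t) := by
  induction n with
  | zero => rw [Finset.sum_range_zero]; exact H58.cth_one
  | succ n ih =>
    have h1 : ∀ i : L3, eps (q i * q .t) = 1 := fun i => by rw [map_mul, hneg, hneg]; decide
    show H58.cth eps G0 (Aw q p n * (q (if bw (p + n) = true then .a else .b) * q .t)) = _
    rw [H58.cth_mul (Aw_ker hneg p n) (Aw_mem hmem p n) (h1 _) (G0.mul_mem (hmem _) (hmem _)), ih, Finset.sum_range_succ]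
    split_ifs <;> rfl

theorem cth_z (hneg : ∀ i, eps (q i) = -1) (hmem : ∀ i, q i ∈ G0) (p : ℤ) (o : ℕ) :
    H58.cth eps G0 (Aw q p (8 * o)) = (4 * (o : ℤ)) • H58.cth eps G0 (q .a * q .t) +
      (4 * (o : ℤ)) • H58.cth eps G0 (q .b * q .t) := by
  rw [Aw_pow, ← zpow_natCast, H58.cth_zpow (Aw_ker hneg _ _) (Aw_mem hmem _ _), cth_Aw hneg hmem, four]
  module

end cls

/-! ### Spots -/

section main

variable {Q : Type u} [Group Q] {eps : Q →* ℤˣ} {G0 : Subgroup Q} {B : Lb.{u, v} Q} {l : L3 → B.L}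
  {M R : ℕ} {dc : ℕ → ℤ} {spc : ℕ → Prop} {G : ℤ} {al be : H58.Th eps G0} {g : Geo (Ltc al be) M R dc spc G} {m0 : ℕ}
  {hw : ℤ → ℕ}

/-- A place in the zone for the even element `y`, `ry` = the representative of its coset. -/
structure Spot (H : Geo.Mn g m0 hw) (c : Cov B l (Ltc al be)) (kk : ℕ) (U : ℤ) (ry y : eps.ker) where
  z : ℤ
  n1 : ℕ
  e0 : ℤ
  run : 0 ≤ z ∧ z < g.w.Et
  lo : U ≤ n1 + 1
  hi : n1 + U ≤ g.rE z
  e1 : 2 ≤ e0
  e2 : e0 + 2 ≤ hw kk
  ov : c.Over (y : Q) (Pat.lv (g.rs z + n1 + ((0 : ℕ) : ℤ)) ((H.bd z).I.C kk (g.rs z + n1 + ((0 : ℕ) : ℤ)) + 2 * e0))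
  i : ℤ
  j : ℤ
  lev : i + j = g.rs z + n1
  cls : H58.cth eps G0 ((ry : Q)⁻¹ * y) = i • al + j • be
  c1 : g.C kk (i + j) ≤ i - j
  c2 : i - j ≤ g.C (kk + 1) (i + j)

theorem exists_spot (H : Geo.Mn g m0 hw) (c : Cov B l (Ltc al be)) {kk : ℕ} (hkk : kk < m0) {U : ℤ} {ry y : eps.ker}
    (hOv : ∀ i j : ℤ, H58.cth eps G0 ((ry : Q)⁻¹ * y) = i • al + j • be → c.Over (y : Q) (true, i, j)) {i j : ℤ}
    (hc : i • al + j • be = H58.cth eps G0 ((ry : Q)⁻¹ * y)) (hz : H49.InZone g kk 2 U i j) :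
    Nonempty (Spot H c kk U ry y) := by
  obtain ⟨z, n1, e0, x, h1, h2, h3, h4, h5, h6, h7, h8⟩ := spot H hkk hz
  have h9 : (i - x * g.i0) • al + (j - x * g.j0) • be = H58.cth eps G0 ((ry : Q)⁻¹ * y) := by
    have h10 : g.i0 • al + g.j0 • be = 0 := g.in0
    rw [← hc, sub_smul, sub_smul, mul_smul, mul_smul]
    have : i • al - x • g.i0 • al + (j • be - x • g.j0 • be) = i • al + j • be - x • (g.i0 • al + g.j0 • be) := by
      module
    rw [this, h10, smul_zero, sub_zero]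
  have hlev : (i - x * g.i0) + (j - x * g.j0) = g.rs z + n1 := by linear_combination h7
  have hC : ∀ K : ℤ, g.C K ((i - x * g.i0) + (j - x * g.j0)) = g.C K (i + j) - x * (g.i0 - g.j0) := by
    intro K
    have h11 := H41.C_w0z g x K ((i - x * g.i0) + (j - x * g.j0))
    have e : (i - x * g.i0) + (j - x * g.j0) + x * (g.i0 + g.j0) = i + j := by ring
    rw [e] at h11
    linarith
  refine ⟨⟨z, n1, e0, ⟨h1, h2⟩, h3, h4, h5, h6, ?_, i - x * g.i0, j - x * g.j0, hlev, h9.symm, ?_, ?_⟩⟩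
  · rw [← h8]
    exact hOv _ _ h9.symm
  · rw [hC]; linarith [hz.1]
  · rw [hC]; linarith [hz.2.1]

theorem Spot.hv0 {H : Geo.Mn g m0 hw} {c : Cov B l (Ltc al be)} {kk : ℕ} {U : ℤ} {ry y : eps.ker} (p : Spot H c kk U ry y)
    (hi : ∀ i, B.inv (l i) = l i) : (str c hi (H.bd p.z) (g.rs p.z) (g.rp p.z) kk p.n1).Ov (y : Q)
      ((str c hi (H.bd p.z) (g.rs p.z) (g.rp p.z) kk p.n1).wh 0 p.e0) := by
  rw [str_wh (runD_bd H p.z)]
  exact p.ov

/-- Two spots in one coset which are at most `G` levels apart. -/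
theorem Spot.far {H : Geo.Mn g m0 hw} {c : Cov B l (Ltc al be)} {kk : ℕ} (hkk : kk < m0) {U : ℤ} {ry y ry' y' : eps.ker}
    (p : Spot H c kk U ry y) (p' : Spot H c kk U ry' y') (hr : ry = ry') (hry : (ry : Q)⁻¹ * y ∈ G0) {h : Q} {f : ℤ} {o : ℕ} (hcl : H58.cth eps G0 ((y : Q)⁻¹ * y') = H58.cth eps G0 h +
      ((4 * (o : ℤ) * f) • al + (4 * (o : ℤ) * f) • be)) (hyy : (y : Q)⁻¹ * y' ∈ G0)
    (hG : |(p'.i + p'.j) - (p.i + p.j)| ≤ G) :
    ∃ yb, (∃ i j : ℤ, i • al + j • be = H58.cth eps G0 h ∧ |i - j| ≤ dc kk + 8 ∧ i + j = -yb) ∧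
      (p'.i + p'.j) - (p.i + p.j) = ((8 * o : ℕ) : ℤ) * f - yb := by
  subst hr
  have hR := H.lt
  have hmod : ((kk : ℤ) % (R : ℤ)).toNat = kk := by
    rw [Int.emod_eq_of_lt (Int.natCast_nonneg kk) (by omega), Int.toNat_natCast]
  have e1 : H58.cth eps G0 ((ry : Q)⁻¹ * y') = H58.cth eps G0 ((ry : Q)⁻¹ * y) + H58.cth eps G0 ((y : Q)⁻¹ * y') := by
    rw [← H58.cth_mul (by rw [map_mul, map_inv, ry.2, y.2, inv_one, one_mul]) hry
      (by rw [map_mul, map_inv, y.2, y'.2, inv_one, one_mul]) hyy]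
    congr 1
    group
  rw [p.cls, p'.cls, hcl] at e1
  obtain ⟨yb, ⟨X, hX, h3, h4⟩, h5⟩ := H41.far_levels g (K := (kk : ℤ)) (by rw [hmod]; omega)
    (by rw [hmod]; exact H.al kk hkk) p.c1 p.c2 p'.c1 p'.c2 hG (u := ((8 * o : ℕ) : ℤ)) (f := f) (by push_cast; omega)
    (p'.i - p.i - f * (((8 * o : ℕ) : ℤ) / 2), p'.j - p.j - f * (((8 * o : ℕ) : ℤ) / 2)) (by
      have e : ((p'.i - p.i - (p'.i - p.i - f * (((8 * o : ℕ) : ℤ) / 2)) - f * (((8 * o : ℕ) : ℤ) / 2),
        p'.j - p.j - (p'.j - p.j - f * (((8 * o : ℕ) : ℤ) / 2)) - f * (((8 * o : ℕ) : ℤ) / 2)) : ℤ × ℤ) = 0 :=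
          Prod.ext (by show _ = (0 : ℤ); ring) (by show _ = (0 : ℤ); ring)
      show (_, _) ∈ Ltc al be
      rw [e]
      exact zero_mem _)
  rw [hmod] at h3
  refine ⟨yb, ⟨_, _, ?_, h3, by rw [h4, neg_neg]⟩, h5⟩
  have hX' : X.1 • al + X.2 • be = 0 := hX
  have e2 : ((8 * o : ℕ) : ℤ) / 2 = 4 * o := by push_cast; omega
  simp only [Prod.fst_add, Prod.snd_add]
  rw [e2]
  have e3 : p'.i • al + p'.j • be - (p.i • al + p.j • be) - ((4 * (o : ℤ) * f) • al + (4 * (o : ℤ) * f) • be) =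
      H58.cth eps G0 h := by rw [e1]; abel
  rw [← e3]
  linear_combination (norm := module) hX'

/-- THE PLAN. -/
theorem exists_plan (hneg : ∀ i, eps (B.q (l i)) = -1) (hmem : ∀ i, B.q (l i) ∈ G0) (hi : ∀ i, B.inv (l i) = l i)
    [Finite (H58.Th eps G0)]
    (hal : al = H58.cth eps G0 (B.q (l .a) * B.q (l .t))) (hbe : be = H58.cth eps G0 (B.q (l .b) * B.q (l .t)))
    (H : Geo.Mn g m0 hw) {kk : ℕ} (hkk : kk < m0) {N' N0' : Subgroup eps.ker} (W : Per (G0.subgroupOf eps.ker) N' N0')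
    {A : Set Q} (hst : ∀ t, ∃ gl ∈ A, gl ∉ G0 ∧ (((W.s t : eps.ker) : Q) = B.q (l .a) * gl ∨
      ((W.s t : eps.ker) : Q) = B.q (l .b) * gl ∨
      ((W.s t : eps.ker) : Q) = B.q (l .a) * B.q (l .t) * B.q (l .a) * gl))
    {o : ℕ} (ho : 1 ≤ o)
    (hcen : ∀ (p : ℤ) (y : Q), eps y = 1 → Aw (qq B l) p (8 * o) * y = y * Aw (qq B l) p (8 * o))
    {gap pd : ℕ} {U : ℤ}
    (hU : (8 * o * (2 * (4 ^ (40 * W.n ^ 2) * (30 + 5 * (gap + 2))) + 3) + gap + pd + 3 : ℕ) ≤ U)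
    (hG : (8 * o * (2 * (4 ^ (40 * W.n ^ 2) * (30 + 5 * (gap + 2))) + 3) + gap + 3 : ℕ) ≤ G)
    (hL : 1000 * (4 * W.n ^ 2 + 1) * (8 * o) * (4 ^ (40 * W.n ^ 2 + 1) * (30 + 5 * (gap + 2))) ≤
      ((g.i0 + g.j0) / 4).toNat)
    (hW1 : (g.i0 + g.j0) * (dc kk + 8) ≤ 2 * M) (hW2 : (g.i0 + g.j0) * (g.i0 - g.j0) ≤ 16 * M)
    (Bad : Finset (H58.Th eps G0))
    (hBad : ∀ τ, τ ∉ Bad → ∃ i j : ℤ, i • al + j • be = τ ∧ H49.InZone g kk 2 U i j)
    (hcard : 2 * (3 * W.n + 1) * Bad.card < Nat.card (H58.Th eps G0)) :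
    ∃ r : eps.ker → eps.ker, H58.Sct eps G0 r ∧ ∀ c : Cov B l (Ltc al be),
      (∀ (y : eps.ker) (i j : ℤ), H58.cth eps G0 ((r y : Q)⁻¹ * y) = i • al + j • be → c.Over (y : Q) (true, i, j)) →
      Nonempty (Plan c hi H G0 A kk (8 * o) gap pd (W.q * W.n)) := by
  classical
  -- the vertical unit
  obtain ⟨z, hzdef⟩ : ∃ z, z = Aw (qq B l) 0 (8 * o) := ⟨_, rfl⟩
  have hz1 : eps z = 1 := by rw [hzdef]; exact Aw_ker hneg _ _
  have hz0 : z ∈ G0 := by rw [hzdef]; exact Aw_mem hmem _ _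
  have heven : ∀ i : L3, eps (qq B l i * qq B l .t) = 1 := fun i => by
    show eps (B.q (l i) * B.q (l .t)) = 1
    rw [map_mul, hneg, hneg]; decide
  have hph : ∀ p, Aw (qq B l) p (8 * o) = z := fun p => by
    rw [hzdef]
    exact Aw_phase (fun p i => hcen p _ (heven i)) p 0
  have hzc : ∀ y : Q, eps y = 1 → z * y = y * z := fun y hy => by rw [hzdef]; exact hcen 0 y hy
  have hclz : H58.cth eps G0 z = (4 * (o : ℤ)) • al + (4 * (o : ℤ)) • be := by
    rw [hzdef, hal, hbe]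
    exact cth_z hneg hmem 0 o
  obtain ⟨zK, hzK⟩ : ∃ zK : eps.ker, (zK : Q) = z := ⟨⟨z, hz1⟩, rfl⟩
  have hzH : zK ∈ G0.subgroupOf eps.ker := by
    show (zK : Q) ∈ G0
    rw [hzK]; exact hz0
  have hzKc : ∀ y : eps.ker, zK * y = y * zK := fun y => Subtype.ext (by
    show (zK : Q) * y = y * zK
    rw [hzK]; exact hzc _ y.2)
  -- theta
  obtain ⟨θ, hθ1, hθ2, hθ3⟩ := W.theta (8 * o) (gap + 2) _ (by omega)
    (fun h => {y | ∃ i j : ℤ, i • al + j • be = H58.cth eps G0 (h : Q) ∧ |i - j| ≤ dc kk + 8 ∧ i + j = -y})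
    (fun h _ => H41.sparse_class g (dc kk + 8) hW1 hW2 _) hL
  obtain ⟨Θ, hΘ⟩ : ∃ Θ : ℕ, Θ = 2 * (4 ^ (40 * W.n ^ 2) * (30 + 5 * (gap + 2))) := ⟨_, rfl⟩
  have hθΘ : θ ≤ (Θ : ℝ) := by
    rw [hΘ]; push_cast
    push_cast at hθ2
    linarith
  rw [← hΘ] at hU hG
  have hxx : 0 ≤ θ := by
    have : (0 : ℝ) ≤ 5 * ((gap + 2 : ℕ) : ℝ) := by positivity
    linarith
  -- the section
  let ct : (G0.subgroupOf eps.ker) →* Multiplicative (H58.Th eps G0) :=
    { toFun := fun h => Multiplicative.ofAdd (Additive.ofMul (Abelianization.of h))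
      map_one' := by rw [map_one]; rfl
      map_mul' := fun x y => by rw [map_mul]; rfl }
  have hct : Function.Surjective ct := by
    intro m
    obtain ⟨h, hh⟩ := QuotientGroup.mk_surjective (Additive.toMul (Multiplicative.toAdd m))
    refine ⟨h, ?_⟩
    show Multiplicative.ofAdd (Additive.ofMul (Abelianization.of h)) = m
    exact congrArg (fun z => Multiplicative.ofAdd (Additive.ofMul z)) hh
  obtain ⟨r, hr1, hr2, hr3⟩ := H49.places_two W ct hct Bad hcard zK hzH (fun t => ⌊θ * t⌋)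
  refine ⟨r, ⟨hr1, hr2⟩, fun c hOv => ?_⟩
  obtain ⟨yy, hyy⟩ : ∃ yy : ℕ → ℤ → eps.ker, ∀ t S, yy t S = W.w t * zK ^ S := ⟨fun t S => W.w t * zK ^ S, fun _ _ => rfl⟩
  have hryy : ∀ t S, r (yy t S) = r (W.w t) := by
    intro t S
    refine hr2 _ _ ?_
    rw [hyy, mul_inv_rev, inv_mul_cancel_right]
    exact Subgroup.inv_mem _ (Subgroup.zpow_mem _ hzH S)
  have hspot : ∀ t ≤ 3 * (W.q * W.n), ∀ S : ℤ, (S = ⌊θ * t⌋ ∨ S = ⌊θ * t⌋ + 1) →
      Nonempty (Spot H c kk U (r (yy t S)) (yy t S)) := by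
    intro t ht S hS
    have hm : (r (W.w t))⁻¹ * (W.w t * zK ^ S) ∈ G0.subgroupOf eps.ker := by
      have := hr1 (yy t S)
      rwa [hryy, hyy] at this
    have h1 := hr3 t ht S hS hm
    have h2 : Multiplicative.toAdd (ct ⟨_, hm⟩) = H58.cth eps G0 ((r (yy t S) : Q)⁻¹ * (yy t S : Q)) := by
      rw [hryy, hyy]
      exact (H58.cth_coe ⟨_, hm⟩).symm
    obtain ⟨i, j, hij, hz⟩ := hBad _ h1
    exact exists_spot H c hkk (hOv _) (by rw [hij, h2]) hz
  -- the letters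
  choose gl hglA hglN hgl using hst
  have hlet : ∀ t, ∃ (i : Bool) (j : ℕ), (j = 0 ∨ j = 1) ∧ ((W.s t : eps.ker) : Q) =
      (qq B l (if i = true then .a else .b) * qq B l .t) ^ j * qq B l (if i = true then .a else .b) * gl t := by
    intro t
    rcases hgl t with h | h | h
    · exact ⟨true, 0, Or.inl rfl, by rw [h, pow_zero, one_mul, if_pos rfl]; rfl⟩
    · exact ⟨false, 0, Or.inl rfl, by rw [h, pow_zero, one_mul, if_neg (by simp)]; rfl⟩
    · exact ⟨true, 1, Or.inr rfl, by rw [h, pow_one, if_pos rfl]; rfl⟩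
  choose ii jj hjj hs using hlet
  -- the levels
  have hgood : ∀ (T : Str Q), T.q = qq B l → ∀ g ∈ T.Gm, Commute (T.A (8 * o)) g := by
    intro T hT
    have hA : T.A (8 * o) = z := by rw [A_eq_Aw, hT]; exact hph _
    have hle : T.Gm ≤ eps.ker := by
      unfold Str.Gm
      rw [Subgroup.closure_le]
      have hab : eps (qq B l .a * qq B l .b) = 1 := by
        show eps (B.q (l .a) * B.q (l .b)) = 1
        rw [map_mul, hneg, hneg]; decide
      rintro x (hx | hx)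
      · rw [hx]
        show eps (T.q .a * T.q .b) = 1
        rw [hT]; exact hab
      · rw [Set.mem_singleton_iff.1 hx]
        show eps (T.q .a * T.q .t) = 1
        rw [hT]; exact heven .a
    intro g hg
    rw [hA]
    exact hzc g (hle hg)
  obtain ⟨S, hS0, hSF, hSG⟩ := choose_S θ (fun t S x => ∀ h : Nonempty (Spot H c kk U (r (yy t S)) (yy t S)), 0 ≤ x →
      Str.Vis.Good (T := str c hi (H.bd (Classical.choice h).z) (g.rs (Classical.choice h).z)
        (g.rp (Classical.choice h).z) kk (Classical.choice h).n1) (yy t S : Q) (Classical.choice h).e0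
        ((Classical.choice h).hv0 hi) (8 * o) (ii t) (jj t) x.toNat) (by
    intro t S x
    by_cases h : Nonempty (Spot H c kk U (r (yy t S)) (yy t S))
    · by_cases hx : 0 ≤ x
      · rcases Str.Vis.good (T := str c hi (H.bd (Classical.choice h).z) (g.rs (Classical.choice h).z)
          (g.rp (Classical.choice h).z) kk (Classical.choice h).n1) (v0 := (yy t S : Q)) (e0 := (Classical.choice h).e0)
          (hv0 := (Classical.choice h).hv0 hi) (u := 8 * o) (i := ii t) (Dvd.intro _ rfl) (hgood _ rfl) (jj t) x.toNat with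
          h1 | h1
        · left; intro h' _; exact h1
        · right
          intro h' _
          have e : (x + 1).toNat = x.toNat + 1 := by omega
          rw [e]
          exact h1
      · left; intro _ h0; exact absurd h0 hx
    · left; intro h'; exact absurd h' h)
  -- bounds for the steps
  have hdif : ∀ k : ℕ, 1 ≤ S (k + 1) - S k ∧ ((S (k + 1) - S k : ℤ) : ℝ) < θ + 2 := by
    intro k
    have a1 : (S (k + 1) : ℝ) ≤ θ * ((k + 1 : ℕ) : ℝ) + 1 ∧ θ * ((k + 1 : ℕ) : ℝ) - 1 < S (k + 1) := by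
      have f1 := Int.floor_le (θ * ((k + 1 : ℕ) : ℝ))
      have f2 := Int.lt_floor_add_one (θ * ((k + 1 : ℕ) : ℝ))
      rcases hSF (k + 1) with h | h <;> rw [h] <;> push_cast at f1 f2 ⊢ <;> constructor <;> linarith
    have a2 : (S k : ℝ) ≤ θ * (k : ℝ) + 1 ∧ θ * (k : ℝ) - 1 < S k := by
      have f1 := Int.floor_le (θ * (k : ℝ))
      have f2 := Int.lt_floor_add_one (θ * (k : ℝ))
      rcases hSF k with h | h <;> rw [h] <;> push_cast at f1 f2 ⊢ <;> constructor <;> linarith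
    push_cast at a1 a2 ⊢
    constructor
    · have : (0 : ℝ) < ((S (k + 1) - S k : ℤ) : ℝ) := by
        push_cast
        have : (0 : ℝ) ≤ 5 * ((gap + 2 : ℕ) : ℝ) := by positivity
        have e : θ * ((k : ℝ) + 1) = θ * k + θ := by ring
        linarith [a1.2, a2.1]
      have h0 : 0 < S (k + 1) - S k := by exact_mod_cast this
      omega
    · have e : θ * ((k : ℝ) + 1) = θ * k + θ := by ring
      linarith [a1.1, a2.2]
  have hlast : ∀ k : ℕ, (((S (k + 1) - S k).toNat * (8 * o) + jj k : ℕ) : ℝ) ≤ (8 * o : ℕ) * (θ + 3) := by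
    intro k
    obtain ⟨b1, b2⟩ := hdif k
    have b3 : (((S (k + 1) - S k).toNat : ℤ) : ℝ) = ((S (k + 1) - S k : ℤ) : ℝ) := by rw [Int.toNat_of_nonneg (by omega)]
    have b4 : (((S (k + 1) - S k).toNat : ℕ) : ℝ) < θ + 2 := by
      rw [← b3] at b2
      exact_mod_cast b2
    have b5 : (jj k : ℝ) ≤ 1 := by rcases hjj k with h | h <;> rw [h] <;> norm_num
    have b6 : (1 : ℝ) ≤ (8 * o : ℕ) := by exact_mod_cast (by omega : 1 ≤ 8 * o)
    push_cast at b6 ⊢
    nlinarith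
  have hlastN : ∀ k : ℕ, (S (k + 1) - S k).toNat * (8 * o) + jj k ≤ 8 * o * (Θ + 3) := by
    intro k
    have h1 := hlast k
    have h2 : ((8 * o : ℕ) : ℝ) * (θ + 3) ≤ ((8 * o * (Θ + 3) : ℕ) : ℝ) := by
      push_cast
      have : (0 : ℝ) ≤ 8 * o := by positivity
      nlinarith
    exact_mod_cast h1.trans h2
  -- the visits
  obtain ⟨tt, htt⟩ : ∃ tt : ℕ → ℕ, ∀ t, tt t = min t (3 * (W.q * W.n)) := ⟨_, fun _ => rfl⟩
  have htt1 : ∀ t, tt t ≤ 3 * (W.q * W.n) := fun t => by rw [htt]; exact min_le_right _ _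
  have htt2 : ∀ t ≤ 3 * (W.q * W.n), tt t = t := fun t ht => by rw [htt]; exact min_eq_left ht
  have hp : ∀ t, Nonempty (Spot H c kk U (r (yy (tt t) (S (tt t)))) (yy (tt t) (S (tt t)))) := fun t =>
    hspot (tt t) (htt1 t) _ (hSF _)
  have hcos : ∀ t S', (((yy t S' : eps.ker) : Q) : Q ⧸ G0) = ((W.w t : eps.ker) : Q) := by
    intro t S'
    rw [QuotientGroup.eq, hyy]
    show ((((W.w t) * zK ^ S' : eps.ker) : Q))⁻¹ * (W.w t : Q) ∈ G0
    rw [Subgroup.coe_mul, mul_inv_rev, inv_mul_cancel_right, Subgroup.coe_zpow, hzK]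
    exact G0.inv_mem (G0.zpow_mem hz0 _)
  have hUb : ∀ t, (S (tt t + 1) - S (tt t)).toNat * (8 * o) + jj (tt t) ≤ 8 * o * (Θ + 3) := fun t => hlastN _
  have hG' : ((8 * o * (Θ + 3) + gap + 3 : ℕ) : ℤ) ≤ G := hG
  have hU' : ((8 * o * (Θ + 3) + gap + pd + 3 : ℕ) : ℤ) ≤ U := hU
  have hfar : ∀ t t', t < t' → t' ≤ 3 * (W.q * W.n) → (W.w t)⁻¹ * W.w t' ∈ G0.subgroupOf eps.ker →
      ∀ (p : Spot H c kk U (r (yy t (S t))) (yy t (S t))) (p' : Spot H c kk U (r (yy t' (S t'))) (yy t' (S t'))),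
      p.z = p'.z → ∀ k : ℕ, ((S (k + 1) - S k).toNat * (8 * o) + jj k : ℕ) + gap + 2 ≤ |(p'.n1 : ℤ) - p.n1| := by
    intro t t' htt' ht' hcl p p' hz k
    have hlv : (p'.i + p'.j) - (p.i + p.j) = (p'.n1 : ℤ) - p.n1 := by rw [p.lev, p'.lev, hz]; ring
    rw [← hlv]
    by_cases hle : |(p'.i + p'.j) - (p.i + p.j)| ≤ G
    · have hr' : r (yy t (S t)) = r (yy t' (S t')) := by
        rw [hryy, hryy]
        exact hr2 _ _ hcl
      have e1 : ((yy t (S t) : eps.ker) : Q)⁻¹ * (yy t' (S t') : Q) =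
          ((W.w t : Q)⁻¹ * (W.w t' : Q)) * z ^ (S t' - S t) := by
        rw [hyy, hyy, Subgroup.coe_mul, Subgroup.coe_mul, Subgroup.coe_zpow, Subgroup.coe_zpow, hzK]
        have hc1 : Commute (z ^ (S t)) (W.w t : Q)⁻¹ :=
          (show Commute z (W.w t : Q) from hzc _ (W.w t).2).inv_right.zpow_left _
        have hc2 : Commute (z ^ (S t)) (W.w t' : Q) := (show Commute z (W.w t' : Q) from hzc _ (W.w t').2).zpow_left _
        have hc3 : Commute (z ^ (S t))⁻¹ ((W.w t : Q)⁻¹ * (W.w t' : Q)) := (hc1.mul_right hc2).inv_left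
        rw [mul_inv_rev, zpow_sub]
        calc (z ^ S t)⁻¹ * (W.w t : Q)⁻¹ * ((W.w t' : Q) * z ^ S t')
            = ((z ^ S t)⁻¹ * ((W.w t : Q)⁻¹ * (W.w t' : Q))) * z ^ S t' := by group
          _ = ((W.w t : Q)⁻¹ * (W.w t' : Q)) * ((z ^ S t)⁻¹ * z ^ S t') := by rw [hc3.eq]; group
          _ = _ := by rw [(Commute.zpow_zpow_self z (S t) (S t')).inv_left.eq]
      have hcl' : (W.w t : Q)⁻¹ * (W.w t' : Q) ∈ G0 := hcl
      have hev : eps ((W.w t : Q)⁻¹ * (W.w t' : Q)) = 1 := ((W.w t)⁻¹ * W.w t').2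
      have hzz : eps (z ^ (S t' - S t)) = 1 := by rw [map_zpow, hz1, one_zpow]
      obtain ⟨yb, hyb, h5⟩ := p.far hkk p' hr' (by
        have := hr1 (yy t (S t))
        exact this) (h := (W.w t : Q)⁻¹ * (W.w t' : Q)) (f := S t' - S t) (o := o) (by
        rw [e1, H58.cth_mul hev hcl' hzz (G0.zpow_mem hz0 _), H58.cth_zpow hz1 hz0, hclz]
        module) (by rw [e1]; exact G0.mul_mem hcl' (G0.zpow_mem hz0 _)) hle
      have h6 := hθ3 S hSF t t' htt' ht' hcl yb hyb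
      have h7 : (((p'.i + p'.j) - (p.i + p.j) : ℤ) : ℝ) = ((8 * o : ℕ) : ℝ) * (S t' - S t) - yb := by
        rw [h5]; push_cast; ring
      rw [← h7] at h6
      have h8 := hlast k
      have h9 : (((S (k + 1) - S k).toNat * (8 * o) + jj k : ℕ) : ℝ) + gap + 2 <
          |(((p'.i + p'.j) - (p.i + p.j) : ℤ) : ℝ)| := by
        have h10 : (0 : ℝ) ≤ (8 * o : ℕ) := by positivity
        push_cast at h6 h8 h10 ⊢
        nlinarith
      have h11 : (((((S (k + 1) - S k).toNat * (8 * o) + jj k : ℕ) : ℤ) + gap + 2 : ℤ) : ℝ) <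
          ((|(p'.i + p'.j) - (p.i + p.j)| : ℤ) : ℝ) := by
        push_cast at h9 ⊢
        exact h9
      exact (Int.cast_lt.1 h11).le
    · have h1 := hlastN k
      have h2 : ((((S (k + 1) - S k).toNat * (8 * o) + jj k : ℕ)) : ℤ) ≤ ((8 * o * (Θ + 3) : ℕ) : ℤ) := by exact_mod_cast h1
      rw [not_le] at hle
      push_cast at h2 hG' ⊢
      linarith
  have hm2 : 2 ≤ W.q * W.n := by
    have hq := W.q_pos
    have hn := W.n_pos
    have h1 : 1 ≤ W.q * W.n := Nat.mul_pos hq hn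
    by_contra hcon
    have h2 : W.q * W.n = 1 := by omega
    obtain ⟨t, ht, h3⟩ := W.visit (W.s 0)
    have h4 : t = 0 := by omega
    subst h4
    rw [W.w_zero, inv_one, one_mul] at h3
    exact W.notH 0 h3
  refine ⟨⟨fun t => (Classical.choice (hp t)).z, fun t => (Classical.choice (hp t)).n1, fun t => (Classical.choice (hp t)).e0,
    fun t => ii (tt t), fun t => jj (tt t), fun t => (S (tt t + 1) - S (tt t)).toNat,
    fun t => (yy (tt t) (S (tt t)) : Q), fun t => gl (tt t), fun t => (Classical.choice (hp t)).hv0 hi,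
    fun t => (Classical.choice (hp t)).run, fun t _ => (Classical.choice (hp t)).e1,
    fun t _ => (Classical.choice (hp t)).e2, fun t => hjj _, ?_, ?_, ?_, ?_, ?_, fun t => hglA _, fun t => hglN _, ?_, ?_,
    hm2⟩⟩
  · intro t _ inst
    have h1 := hSG (tt t) (hp t) (by have := (hdif (tt t)).1; omega)
    rw [Subsingleton.elim inst (fun a b => Classical.propDecidable (a = b))]
    exact h1
  · intro t _
    have h1 := (Classical.choice (hp t)).lo
    push_cast at hU' h1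
    have h2 : (0 : ℤ) ≤ 8 * o * (Θ + 3) := by positivity
    have h3 : (gap : ℤ) + 1 ≤ (Classical.choice (hp t)).n1 := by linarith [Int.natCast_nonneg pd]
    exact_mod_cast h3
  · intro t _
    have h1 := (Classical.choice (hp t)).hi
    have h2 : (((S (tt t + 1) - S (tt t)).toNat * (8 * o) + jj (tt t) : ℕ) : ℤ) ≤ ((8 * o * (Θ + 3) : ℕ) : ℤ) := by
      exact_mod_cast hUb t
    have h3 : (((Classical.choice (hp t)).n1 + ((S (tt t + 1) - S (tt t)).toNat * (8 * o) + jj (tt t)) + gap + pd + 1 : ℕ) : ℤ) ≤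
        g.rE (Classical.choice (hp t)).z := by
      push_cast at hU' h1 h2 ⊢
      linarith
    exact_mod_cast h3
  · intro t ht t' ht' hne hcc hz
    rw [hcos, hcos] at hcc
    rw [htt2 t ht, htt2 t' ht'] at hcc
    have key : ∀ t₁ t₂, t₁ < t₂ → t₂ ≤ 3 * (W.q * W.n) → t₁ ≤ 3 * (W.q * W.n) →
        (((W.w t₁ : eps.ker) : Q) : Q ⧸ G0) = ((W.w t₂ : eps.ker) : Q) →
        (Classical.choice (hp t₁)).z = (Classical.choice (hp t₂)).z → ∀ k : ℕ,
        ((S (k + 1) - S k).toNat * (8 * o) + jj k : ℕ) + gap + 2 ≤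
          |((Classical.choice (hp t₂)).n1 : ℤ) - (Classical.choice (hp t₁)).n1| := by
      intro t₁ t₂ h1 h2 h3 h4 h5 k
      have h6' : ((W.w t₁ : eps.ker) : Q)⁻¹ * ((W.w t₂ : eps.ker) : Q) ∈ G0 := QuotientGroup.eq.1 h4
      have h6 : (W.w t₁)⁻¹ * W.w t₂ ∈ G0.subgroupOf eps.ker := h6'
      have h7 := hfar t₁ t₂ h1 h2 h6
      have e1 := htt2 t₁ h3
      have e2 := htt2 t₂ h2
      revert h5
      generalize Classical.choice (hp t₁) = p₁
      generalize Classical.choice (hp t₂) = p₂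
      revert p₁ p₂
      rw [e1, e2]
      intro p₁ p₂ h5
      exact h7 p₁ p₂ h5 k
    rcases lt_or_gt_of_ne hne with h | h
    · have h1 := key t t' h ht' ht hcc hz (tt t)
      have h2 := key t t' h ht' ht hcc hz (tt t')
      rcases le_total ((Classical.choice (hp t)).n1) ((Classical.choice (hp t')).n1) with h3 | h3
      · left
        rw [abs_of_nonneg (by omega)] at h1
        omega
      · right
        rw [abs_of_nonpos (by omega)] at h2
        omega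
    · have h1 := key t' t h ht ht' hcc.symm hz.symm (tt t)
      have h2 := key t' t h ht ht' hcc.symm hz.symm (tt t')
      rcases le_total ((Classical.choice (hp t)).n1) ((Classical.choice (hp t')).n1) with h3 | h3
      · left
        rw [abs_of_nonpos (by omega)] at h1
        omega
      · right
        rw [abs_of_nonneg (by omega)] at h2
        omega
  · intro t ht
    have e1 := htt2 t (by omega)
    have e2 := htt2 (t + 1) ht
    rw [visK_w (Dvd.intro _ rfl)]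
    have hA : (str c hi (H.bd (Classical.choice (hp t)).z) (g.rs (Classical.choice (hp t)).z)
        (g.rp (Classical.choice (hp t)).z) kk (Classical.choice (hp t)).n1).A (8 * o) = z := by
      rw [A_eq_Aw]; exact hph _
    rw [hA]
    show (yy (tt (t + 1)) (S (tt (t + 1))) : Q) = (yy (tt t) (S (tt t)) : Q) * z ^ (S (tt t + 1) - S (tt t)).toNat *
      (qq B l (if ii (tt t) = true then .a else .b) * qq B l .t) ^ jj (tt t) * qq B l (if ii (tt t) = true then .a else .b) *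
        gl (tt t)
    rw [e1, e2, mul_assoc _ (_ ^ _) (qq B l _), mul_assoc _ (_ * _) (gl t), ← hs t, hyy, hyy, W.w_succ, Subgroup.coe_mul,
      Subgroup.coe_mul, Subgroup.coe_mul, Subgroup.coe_zpow, Subgroup.coe_zpow, hzK, ← zpow_natCast,
      Int.toNat_of_nonneg (by have := (hdif t).1; omega), mul_assoc (W.w t : Q) (z ^ S t), ← zpow_add, add_sub_cancel,
      mul_assoc, mul_assoc]
    congr 1
    exact ((show Commute z (W.s t : Q) from hzc _ (W.s t).2).zpow_left _).eq.symm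
  · intro t ht
    have e1 := htt2 t (by omega)
    have e2 := htt2 (t + W.q * W.n) ht
    show (((yy (tt (t + W.q * W.n)) (S (tt (t + W.q * W.n))) : eps.ker) : Q) : Q ⧸ G0) = ((yy (tt t) (S (tt t)) : eps.ker) : Q)
    rw [hcos, hcos, e1, e2]
    have h1 := W.N0_le_H (W.again t)
    have h1' : ((W.w t : eps.ker) : Q)⁻¹ * ((W.w (t + W.q * W.n) : eps.ker) : Q) ∈ G0 := h1
    exact (QuotientGroup.eq.2 h1').symm
  · intro X
    obtain ⟨y, rfl⟩ := QuotientGroup.mk_surjective X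
    obtain ⟨y', hyy'⟩ : ∃ y' : eps.ker, ((y' : Q) : Q ⧸ G0) = (y : Q ⧸ G0) := by
      rcases Int.units_eq_one_or (eps y) with h | h
      · exact ⟨⟨y, h⟩, rfl⟩
      · refine ⟨⟨y * B.q (l .t), by show eps (y * B.q (l .t)) = 1; rw [map_mul, h, hneg]; decide⟩, QuotientGroup.eq.2 ?_⟩
        show (y * B.q (l .t))⁻¹ * y ∈ G0
        rw [mul_inv_rev, inv_mul_cancel_right]
        exact G0.inv_mem (hmem _)
    obtain ⟨t, ht, h1⟩ := W.visit y'
    have h1' : ((W.w t : eps.ker) : Q)⁻¹ * (y' : Q) ∈ G0 := h1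
    refine ⟨t, ht, ?_⟩
    show (((yy (tt t) (S (tt t)) : eps.ker) : Q) : Q ⧸ G0) = (y : Q ⧸ G0)
    rw [hcos, htt2 t (by omega), ← hyy']
    exact QuotientGroup.eq.2 h1'

end main

end Pool.Agent.Lib.MP_688fd0_co.SQ5.H12
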