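import Pool.Agent.Lib.MP_688fd0_co.SQ5.H12.VPlane

/-!
FT (helper12): the list of all visits of a thread (`Plan`), the input of helper85's row THRR. `Plan` is constructed in
`SQ5/H12/Place.lean`.
-/

set_option autoImplicit false

namespace Pool.Agent.Lib.MP_688fd0_co.SQ5.H12

open Pool.Agent.Lib.MP_688fd0_co.OSF Pool.Agent.Lib.MP_688fd0_co.SQ5.H76

universe u v

/-- All visits of a thread: the visits `0 .. 3 m - 1` and the virtual visit `3 m` (the visits are defined for all `t`, the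
conditions hold for `t ≤ 3 m`). The visit `t` is in the run `z t`, it starts in the block `n1 t` at the vertex `v0 t` over the
white `e0 t` of the strip `kk`, it has `x t * u` aligned levels and then `j t + 1` levels with the letter `i t`; `gl t` = the letter
to the next visit. -/
structure Plan {Q : Type u} [Group Q] {B : Lb.{u, v} Q} {l : L3 → B.L} {L : AddSubgroup (ℤ × ℤ)} (c : Cov B l L)
    (hi : ∀ i, B.inv (l i) = l i) {M R : ℕ} {dc : ℕ → ℤ} {spc : ℕ → Prop} {G : ℤ} {g : Geo L M R dc spc G} {m0 : ℕ}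
    {hw : ℤ → ℕ} (H : Geo.Mn g m0 hw) (G0 : Subgroup Q) (A : Set Q) (kk u gap pd m : ℕ) where
  z : ℕ → ℤ
  n1 : ℕ → ℕ
  e0 : ℕ → ℤ
  i : ℕ → Bool
  j : ℕ → ℕ
  x : ℕ → ℕ
  v0 : ℕ → Q
  gl : ℕ → Q
  hv0 : ∀ t, (str c hi (H.bd (z t)) (g.rs (z t)) (g.rp (z t)) kk (n1 t)).Ov (v0 t)
    ((str c hi (H.bd (z t)) (g.rs (z t)) (g.rp (z t)) kk (n1 t)).wh 0 (e0 t))
  run : ∀ t, 0 ≤ z t ∧ z t < g.w.Et
  e0_ge : ∀ t ≤ 3 * m, 2 ≤ e0 t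
  e0_le : ∀ t ≤ 3 * m, e0 t + 2 ≤ hw kk
  j_le : ∀ t, j t = 0 ∨ j t = 1
  good : ∀ t ≤ 3 * m, ∀ [DecidableEq (str c hi (H.bd (z t)) (g.rs (z t)) (g.rp (z t)) kk (n1 t)).S],
    Str.Vis.Good (v0 t) (e0 t) (hv0 t) u (i t) (j t) (x t)
  lo : ∀ t ≤ 3 * m, gap + 1 ≤ n1 t
  hi : ∀ t ≤ 3 * m, n1 t + (x t * u + j t) + gap + pd + 1 ≤ g.rE (z t)
  sep : ∀ t ≤ 3 * m, ∀ t' ≤ 3 * m, t ≠ t' → (v0 t : Q ⧸ G0) = (v0 t' : Q ⧸ G0) → z t = z t' →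
    n1 t + (x t * u + j t) + gap + 2 ≤ n1 t' ∨ n1 t' + (x t' * u + j t') + gap + 2 ≤ n1 t
  next : ∀ t, t + 1 ≤ 3 * m →
    v0 (t + 1) = (Str.Vis.visK (v0 t) (e0 t) (hv0 t) u (i t) (x t)).w (x t * u + j t) * gl t
  glA : ∀ t, gl t ∈ A
  glN : ∀ t, gl t ∉ G0
  per : ∀ t, t + m ≤ 3 * m → (v0 (t + m) : Q ⧸ G0) = (v0 t : Q ⧸ G0)
  all : ∀ X : Q ⧸ G0, ∃ t < m, (v0 t : Q ⧸ G0) = X
  m2 : 2 ≤ m

end Pool.Agent.Lib.MP_688fd0_co.SQ5.H12
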