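import Mathlib

/-!
Choice of the vertical moves of a thread (helper12, finding 4311, section 3).

`sel`: for finitely many types `j` of pairs of visits (time difference `Q j ≥ 2`, set `Y j` of bad levels, at most five bad
levels in every interval of length `L`) there is a real number `θ` such that `u * f` stays at distance `> u (θ + 4) + E` from
every bad level whenever `f` is an integer with `|f - Q j θ| ≤ 3`. There is no bound on `Q j`.
-/

set_option autoImplicit false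

namespace Pool.Agent.Lib.MP_688fd0_co.SQ5.H12

open Finset

/-- At most five elements in every interval of length `L`. -/
def Sparse (L : ℕ) (Y : Set ℤ) : Prop :=
  ∀ (y : ℤ) (F : Finset ℤ), (∀ x ∈ F, x ∈ Y ∧ y ≤ x ∧ x ≤ y + L) → F.card ≤ 5

theorem exists_notMem {ι : Type*} (a b : ℝ) (F : Finset ι) (lo hi : ι → ℝ) (len : ι → ℝ)
    (h0 : ∀ i ∈ F, 0 ≤ len i) (hl : ∀ i ∈ F, hi i - lo i ≤ len i)
    (hsum : ∑ i ∈ F, len i < b - a) : ∃ θ ∈ Set.Icc a b, ∀ i ∈ F, θ ∉ Set.Icc (lo i) (hi i) := by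
  by_contra hcon
  push Not at hcon
  have hsub : Set.Icc a b ⊆ ⋃ i ∈ F, Set.Icc (lo i) (hi i) := by
    intro θ hθ
    obtain ⟨i, hi, h⟩ := hcon θ hθ
    exact Set.mem_biUnion hi h
  have h1 := MeasureTheory.measure_mono (μ := MeasureTheory.volume) hsub
  have h2 := h1.trans (MeasureTheory.measure_biUnion_finset_le F _)
  rw [Real.volume_Icc] at h2
  have h3 : ∑ i ∈ F, MeasureTheory.volume (Set.Icc (lo i) (hi i)) ≤ ENNReal.ofReal (∑ i ∈ F, len i) := by
    rw [ENNReal.ofReal_sum_of_nonneg h0]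
    refine Finset.sum_le_sum fun i hi => ?_
    rw [Real.volume_Icc]
    exact ENNReal.ofReal_le_ofReal (hl i hi)
  have h4 := h2.trans h3
  have h5 : 0 ≤ ∑ i ∈ F, len i := Finset.sum_nonneg h0
  rw [ENNReal.ofReal_le_ofReal_iff h5] at h4
  linarith

theorem card_windows {L : ℕ} {Y : Set ℤ} (hY : Sparse L Y) [DecidablePred (· ∈ Y)] (n : ℕ) :
    ((Finset.Ico (0 : ℤ) (n * (L + 1))).filter (· ∈ Y)).card ≤ 5 * n := by
  induction n with
  | zero => simp
  | succ n ih =>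
    have hsplit : (Finset.Ico (0 : ℤ) (((n + 1 : ℕ) : ℤ) * (L + 1))).filter (· ∈ Y) ⊆
        (Finset.Ico (0 : ℤ) (n * (L + 1))).filter (· ∈ Y) ∪
        (Finset.Ico ((n : ℤ) * (L + 1)) (((n + 1 : ℕ) : ℤ) * (L + 1))).filter (· ∈ Y) := by
      intro x hx
      simp only [Finset.mem_filter, Finset.mem_Ico, Finset.mem_union] at hx ⊢
      rcases lt_or_ge x ((n : ℤ) * (L + 1)) with h | h
      · exact Or.inl ⟨⟨hx.1.1, h⟩, hx.2⟩
      · exact Or.inr ⟨⟨h, hx.1.2⟩, hx.2⟩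
    have h2 : ((Finset.Ico ((n : ℤ) * (L + 1)) (((n + 1 : ℕ) : ℤ) * (L + 1))).filter (· ∈ Y)).card ≤ 5 := by
      refine hY ((n : ℤ) * (L + 1)) _ fun x hx => ?_
      simp only [Finset.mem_filter, Finset.mem_Ico] at hx
      refine ⟨hx.2, hx.1.1, ?_⟩
      have := hx.1.2
      push_cast at this
      linarith
    calc _ ≤ _ := Finset.card_le_card hsplit
      _ ≤ _ := Finset.card_union_le _ _
      _ ≤ 5 * n + 5 := Nat.add_le_add ih h2
      _ = 5 * (n + 1) := by ring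

/-- The bad set of a type. -/
def Bad (u E : ℕ) (Q : ℕ) (Y : Set ℤ) (θ : ℝ) : Prop :=
  ∃ y ∈ Y, |(u : ℝ) * Q * θ - y| ≤ u * (θ + 7) + E

theorem bad_bounds {u E Q : ℕ} {y : ℤ} {θ : ℝ} (h : |(u : ℝ) * Q * θ - y| ≤ u * (θ + 7) + E) :
    (u : ℝ) * (Q - 1) * θ ≤ y + (7 * u + E) ∧ (y : ℝ) - (7 * u + E) ≤ u * (Q + 1) * θ := by
  rw [abs_le] at h
  constructor <;> nlinarith [h.1, h.2]

theorem not_bad {u E Q : ℕ} {Y : Set ℤ} {θ : ℝ} (h : ¬ Bad u E Q Y θ) (f : ℤ) (hf : |(f : ℝ) - Q * θ| ≤ 3)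
    (y : ℤ) (hy : y ∈ Y) : u * (θ + 4) + E < |(u : ℝ) * f - y| := by
  by_contra hcon
  push Not at hcon
  refine h ⟨y, hy, ?_⟩
  have h1 : (u : ℝ) * Q * θ - y = (u * f - y) - u * (f - Q * θ) := by ring
  rw [h1]
  have hu : (0 : ℝ) ≤ u := Nat.cast_nonneg _
  calc |(u : ℝ) * f - y - u * (f - Q * θ)| ≤ |(u : ℝ) * f - y| + |(u : ℝ) * (f - Q * θ)| := abs_sub _ _
    _ ≤ (u * (θ + 4) + E) + u * 3 := by
      rw [abs_mul, abs_of_nonneg hu]
      exact add_le_add hcon (mul_le_mul_of_nonneg_left hf hu)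
    _ = u * (θ + 7) + E := by ring

/-- Small `Q`: at most ten scales are bad. -/
theorem small_scales {u E Q L : ℕ} {Y : Set ℤ} (hY : Sparse L Y) (hu : 1 ≤ u) (hQ : 2 ≤ Q) (A : ℕ)
    (hL : ∀ a < A, 3 * (u : ℝ) * (Q + 1) * ((4 : ℝ) ^ a * (30 + 5 * E)) ≤ L)
    (B : Finset ℕ) (hB : ∀ a ∈ B, a < A ∧ ∃ θ : ℝ, (4 : ℝ) ^ a * (30 + 5 * E) ≤ θ ∧
      θ ≤ 2 * ((4 : ℝ) ^ a * (30 + 5 * E)) ∧ Bad u E Q Y θ) : B.card ≤ 10 := by
  classical
  have hu' : (1 : ℝ) ≤ u := by exact_mod_cast hu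
  have hQ' : (2 : ℝ) ≤ Q := by exact_mod_cast hQ
  have hE' : (0 : ℝ) ≤ E := Nat.cast_nonneg _
  choose! hA θ h1 h2 h3 using hB
  unfold Bad at h3
  choose! y hyY hy using h3
  have hpos : ∀ a : ℕ, (1 : ℝ) ≤ (4 : ℝ) ^ a := fun a => one_le_pow₀ (by norm_num)
  have hb1 : ∀ a ∈ B, (u : ℝ) * (Q - 1) * θ a ≤ y a + (7 * u + E) := fun a ha => (bad_bounds (hy a ha)).1
  have hb2 : ∀ a ∈ B, (y a : ℝ) - (7 * u + E) ≤ u * (Q + 1) * θ a := fun a ha => (bad_bounds (hy a ha)).2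
  have hθ : ∀ a ∈ B, (30 + 5 * (E : ℝ)) ≤ θ a := fun a ha => by
    have := h1 a ha
    nlinarith [hpos a]
  have hylow : ∀ a ∈ B, (21 * (u : ℝ) + 3 * E) ≤ y a := by
    intro a ha
    have e1 := hb1 a ha
    have e2 := hθ a ha
    have e3 : (u : ℝ) * (30 + 5 * E) ≤ u * (Q - 1) * θ a := by
      have : (u : ℝ) * (30 + 5 * E) ≤ u * θ a := mul_le_mul_of_nonneg_left e2 (by linarith)
      have h4 : (u : ℝ) * θ a ≤ u * (Q - 1) * θ a := by
        have h5 : 0 ≤ (u : ℝ) * θ a := mul_nonneg (by linarith) (by linarith)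
        nlinarith
      linarith
    nlinarith [mul_le_mul_of_nonneg_right hu' hE']
  -- the values
  have hval : ∀ a ∈ B, (y a) ∈ Y ∧ (0 : ℤ) ≤ y a ∧ y a ≤ 0 + L := by
    intro a ha
    refine ⟨hyY a ha, ?_, ?_⟩
    · have := hylow a ha
      have h0 : (0 : ℝ) ≤ y a := by nlinarith
      exact_mod_cast h0
    · have e1 := hb2 a ha
      have e2 := h2 a ha
      have e3 := hL a (hA a ha)
      have e4 : (y a : ℝ) ≤ L := by
        have e5 : (7 * (u : ℝ) + E) ≤ u * (Q + 1) * ((4 : ℝ) ^ a * (30 + 5 * E)) := by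
          have e6 : (30 + 5 * (E : ℝ)) ≤ (4 : ℝ) ^ a * (30 + 5 * E) := by nlinarith [hpos a]
          have e7 : (u : ℝ) * 3 * (30 + 5 * E) ≤ u * (Q + 1) * ((4 : ℝ) ^ a * (30 + 5 * E)) := by
            have : (u : ℝ) * 3 ≤ u * (Q + 1) := by nlinarith
            exact mul_le_mul this e6 (by nlinarith) (by nlinarith)
          nlinarith [mul_le_mul_of_nonneg_right hu' hE']
        have e8 : (u : ℝ) * (Q + 1) * θ a ≤ u * (Q + 1) * (2 * ((4 : ℝ) ^ a * (30 + 5 * E))) :=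
          mul_le_mul_of_nonneg_left e2 (by nlinarith)
        nlinarith
      have : (y a : ℝ) ≤ ((0 + L : ℤ) : ℝ) := by push_cast; linarith
      exact_mod_cast this
  have himg : (B.image y).card ≤ 5 := by
    refine hY 0 _ fun x hx => ?_
    obtain ⟨a, ha, rfl⟩ := Finset.mem_image.1 hx
    exact hval a ha
  -- the fibres
  have hfib : ∀ x ∈ B.image y, (B.filter fun a => y a = x).card ≤ 2 := by
    intro x _
    by_contra hcon
    push Not at hcon
    -- three elements: the smallest and the largest differ by at least 2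
    obtain ⟨a, b, ha, hb, hab⟩ : ∃ a b, a ∈ B.filter (fun a => y a = x) ∧ b ∈ B.filter (fun a => y a = x) ∧ a + 2 ≤ b := by
      have hne : (B.filter fun a => y a = x).Nonempty := Finset.card_pos.1 (by omega)
      refine ⟨(B.filter fun a => y a = x).min' hne, (B.filter fun a => y a = x).max' hne, Finset.min'_mem _ _,
        Finset.max'_mem _ _, ?_⟩
      have hsub : (B.filter fun a => y a = x) ⊆
          Finset.Icc ((B.filter fun a => y a = x).min' hne) ((B.filter fun a => y a = x).max' hne) := by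
        intro a ha
        exact Finset.mem_Icc.2 ⟨Finset.min'_le _ _ ha, Finset.le_max' _ _ ha⟩
      have := Finset.card_le_card hsub
      rw [Nat.card_Icc] at this
      omega
    rw [Finset.mem_filter] at ha hb
    have e1 := hb1 b hb.1
    have e2 := hb2 a ha.1
    have e3 := h1 b hb.1
    have e4 := h2 a ha.1
    have e5 := hylow a ha.1
    have hyy : (y b : ℝ) = y a := by rw [hb.2, ha.2]
    rw [hyy] at e1
    -- y + c ≤ 2 (y - c)
    have e6 : (y a : ℝ) + (7 * u + E) ≤ 2 * (y a - (7 * u + E)) := by linarith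
    have e7 : (16 : ℝ) * (4 : ℝ) ^ a ≤ (4 : ℝ) ^ b := by
      have : (4 : ℝ) ^ (a + 2) ≤ (4 : ℝ) ^ b := pow_le_pow_right₀ (by norm_num) hab
      calc (16 : ℝ) * (4 : ℝ) ^ a = (4 : ℝ) ^ (a + 2) := by rw [pow_add]; norm_num; ring
        _ ≤ _ := this
    set c0 : ℝ := 30 + 5 * E with hc0
    have hc0p : (0 : ℝ) < c0 := by rw [hc0]; linarith
    have e8 : (u : ℝ) * (Q - 1) * (16 * ((4 : ℝ) ^ a * c0)) ≤ u * (Q - 1) * θ b := by
      refine mul_le_mul_of_nonneg_left ?_ (by nlinarith)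
      nlinarith
    have e9 : (u : ℝ) * (Q + 1) * θ a ≤ u * (Q + 1) * (2 * ((4 : ℝ) ^ a * c0)) :=
      mul_le_mul_of_nonneg_left e4 (by nlinarith)
    have e10 : (u : ℝ) * (Q - 1) * (16 * ((4 : ℝ) ^ a * c0)) ≤ 2 * (u * (Q + 1) * (2 * ((4 : ℝ) ^ a * c0))) := by
      linarith
    have e11 : 0 < (u : ℝ) * ((4 : ℝ) ^ a * c0) := by positivity
    have e12 : (16 : ℝ) * (Q - 1) ≤ 4 * (Q + 1) := by
      by_contra hc
      push Not at hc
      have := mul_lt_mul_of_pos_left hc e11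
      nlinarith
    linarith
  calc B.card ≤ ∑ x ∈ B.image y, (B.filter fun a => y a = x).card := by
        rw [← Finset.card_eq_sum_card_image y B]
    _ ≤ ∑ _x ∈ B.image y, 2 := Finset.sum_le_sum hfib
    _ = 2 * (B.image y).card := by rw [Finset.sum_const, smul_eq_mul, mul_comm]
    _ ≤ 10 := by omega

theorem sel {ι : Type*} (J : Finset ι) (Q : ι → ℕ) (Y : ι → Set ℤ) (u E L : ℕ) (hu : 1 ≤ u)
    (hQ : ∀ j ∈ J, 2 ≤ Q j) (hY : ∀ j ∈ J, Sparse L (Y j))
    (hL : 1000 * (J.card + 1) * u * (4 ^ (10 * J.card + 1) * (30 + 5 * E)) ≤ L) :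
    ∃ θ : ℝ, 30 + 5 * (E : ℝ) ≤ θ ∧ θ ≤ 2 * (4 ^ (10 * J.card) * (30 + 5 * E)) ∧
      ∀ j ∈ J, ∀ f : ℤ, |(f : ℝ) - Q j * θ| ≤ 3 → ∀ y ∈ Y j, u * (θ + 4) + E < |(u : ℝ) * f - y| := by
  classical
  set m := J.card with hm
  have hu' : (1 : ℝ) ≤ u := by exact_mod_cast hu
  have hE' : (0 : ℝ) ≤ E := Nat.cast_nonneg _
  have hm' : (0 : ℝ) ≤ m := Nat.cast_nonneg _
  set c0 : ℝ := 30 + 5 * E with hc0
  have hc0p : (30 : ℝ) ≤ c0 := by rw [hc0]; linarith
  have hpos : ∀ a : ℕ, (1 : ℝ) ≤ (4 : ℝ) ^ a := fun a => one_le_pow₀ (by norm_num)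
  have hLr : 1000 * ((m : ℝ) + 1) * u * (4 ^ (10 * m + 1) * c0) ≤ L := by
    rw [hc0]; exact_mod_cast hL
  have hmono : ∀ a < 10 * m + 1, (4 : ℝ) ^ a * c0 ≤ 4 ^ (10 * m) * c0 := fun a ha =>
    mul_le_mul_of_nonneg_right (pow_le_pow_right₀ (by norm_num) (by omega)) (by linarith)
  have hLa : ∀ a < 10 * m + 1, 4000 * ((m : ℝ) + 1) * u * ((4 : ℝ) ^ a * c0) ≤ L := by
    intro a ha
    have h1 := hmono a ha
    have h2 : (4 : ℝ) ^ (10 * m + 1) * c0 = 4 * (4 ^ (10 * m) * c0) := by rw [pow_succ]; ring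
    rw [h2] at hLr
    have h3 : 0 ≤ 4000 * ((m : ℝ) + 1) * u := by positivity
    nlinarith [mul_le_mul_of_nonneg_left h1 h3]
  -- choice of the scale
  let Bs : ι → Finset ℕ := fun j => (Finset.range (10 * m + 1)).filter fun a =>
    ∃ θ : ℝ, (4 : ℝ) ^ a * c0 ≤ θ ∧ θ ≤ 2 * ((4 : ℝ) ^ a * c0) ∧ Bad u E (Q j) (Y j) θ
  have hBs : ∀ j ∈ J.filter (fun j => Q j ≤ 100 * m + 1), (Bs j).card ≤ 10 := by
    intro j hj
    rw [Finset.mem_filter] at hj
    refine small_scales (E := E) (A := 10 * m + 1) (hY j hj.1) hu (hQ j hj.1) ?_ _ ?_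
    · intro a ha
      have h1 := hLa a ha
      have h2 : (Q j : ℝ) ≤ 100 * m + 1 := by exact_mod_cast hj.2
      have h3 : 0 < (u : ℝ) * ((4 : ℝ) ^ a * c0) := by
        have := hpos a
        positivity
      have h4 : 3 * (u : ℝ) * (Q j + 1) * ((4 : ℝ) ^ a * c0) = 3 * (Q j + 1) * ((u : ℝ) * ((4 : ℝ) ^ a * c0)) := by ring
      have h5 : 4000 * ((m : ℝ) + 1) * u * ((4 : ℝ) ^ a * c0) = 4000 * (m + 1) * ((u : ℝ) * ((4 : ℝ) ^ a * c0)) := by ring
      rw [h5] at h1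
      show 3 * (u : ℝ) * (Q j + 1) * ((4 : ℝ) ^ a * c0) ≤ L
      rw [h4]
      have h6 : 3 * ((Q j : ℝ) + 1) ≤ 4000 * (m + 1) := by linarith
      exact (mul_le_mul_of_nonneg_right h6 h3.le).trans h1
    · intro a ha
      rw [Finset.mem_filter, Finset.mem_range] at ha
      exact ha
  obtain ⟨a, ha, hab⟩ : ∃ a ∈ Finset.range (10 * m + 1), a ∉ (J.filter (fun j => Q j ≤ 100 * m + 1)).biUnion Bs := by
    by_contra hcon
    push Not at hcon
    have h1 : Finset.range (10 * m + 1) ⊆ (J.filter (fun j => Q j ≤ 100 * m + 1)).biUnion Bs := hcon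
    have h2 := Finset.card_le_card h1
    rw [Finset.card_range] at h2
    have h3 := Finset.card_biUnion_le_card_mul (J.filter (fun j => Q j ≤ 100 * m + 1)) Bs 10 hBs
    have h4 : (J.filter (fun j => Q j ≤ 100 * m + 1)).card ≤ m := Finset.card_filter_le _ _
    have h5 := h2.trans (h3.trans (Nat.mul_le_mul_right 10 h4))
    omega
  rw [Finset.mem_range] at ha
  set Θ : ℝ := (4 : ℝ) ^ a * c0 with hΘ
  have hΘc : c0 ≤ Θ := by rw [hΘ]; nlinarith [hpos a]
  have hΘp : 0 < Θ := by linarith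
  have hLΘ := hLa a ha
  -- the bad intervals of the large types
  let Jl := J.filter fun j => ¬ Q j ≤ 100 * m + 1
  let n : ι → ℕ := fun j => ⌊3 * (u : ℝ) * (Q j + 1) * Θ / (L + 1)⌋₊ + 1
  let Fy : ι → Finset ℤ := fun j => ((Finset.Ico (0 : ℤ) (n j * (L + 1))).filter (· ∈ Y j)).filter
    fun y => (y : ℝ) ≤ 3 * (u : ℝ) * (Q j + 1) * Θ
  have hFy : ∀ j ∈ Jl, ((Fy j).card : ℝ) ≤ 5 * (3 * (u : ℝ) * (Q j + 1) * Θ / (L + 1) + 1) := by
    intro j hj
    have h1 : (Fy j).card ≤ 5 * n j :=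
      (Finset.card_filter_le _ _).trans (card_windows (hY j (Finset.mem_filter.1 hj).1) (n j))
    have h2 : ((Fy j).card : ℝ) ≤ 5 * (n j : ℝ) := by exact_mod_cast h1
    have h3 : ((⌊3 * (u : ℝ) * (Q j + 1) * Θ / (L + 1)⌋₊ : ℕ) : ℝ) ≤ 3 * (u : ℝ) * (Q j + 1) * Θ / (L + 1) :=
      Nat.floor_le (by positivity)
    have h4 : (n j : ℝ) = (⌊3 * (u : ℝ) * (Q j + 1) * Θ / (L + 1)⌋₊ : ℕ) + 1 := by simp [n]
    rw [h4] at h2
    linarith
  let c' : ℝ := 7 * u + E
  have hc'Θ : c' ≤ u * Θ := by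
    show 7 * (u : ℝ) + E ≤ u * Θ
    have : (u : ℝ) * c0 ≤ u * Θ := mul_le_mul_of_nonneg_left hΘc (by linarith)
    rw [hc0] at this
    nlinarith [mul_le_mul_of_nonneg_right hu' hE']
  have hc'0 : 0 ≤ c' := by show 0 ≤ 7 * (u : ℝ) + E; linarith
  obtain ⟨θ, hθ, hθn⟩ := exists_notMem Θ (2 * Θ) (Jl.sigma Fy)
    (fun i => ((i.2 : ℝ) - c') / (u * (Q i.1 + 1))) (fun i => ((i.2 : ℝ) + c') / (u * (Q i.1 - 1)))
    (fun i => 8 * Θ / (Q i.1 - 1)) (by
      rintro ⟨j, y⟩ hi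
      rw [Finset.mem_sigma] at hi
      have h1 : ¬ Q j ≤ 100 * m + 1 := (Finset.mem_filter.1 hi.1).2
      have h2 : (1 : ℝ) < Q j := by
        have : 1 < Q j := by omega
        exact_mod_cast this
      have h3 : 0 < (Q j : ℝ) - 1 := by linarith
      show 0 ≤ 8 * Θ / ((Q j : ℝ) - 1)
      positivity) (by
      rintro ⟨j, y⟩ hi
      rw [Finset.mem_sigma] at hi
      have h1 : ¬ Q j ≤ 100 * m + 1 := (Finset.mem_filter.1 hi.1).2
      have h2 : (1 : ℝ) < Q j := by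
        have : 1 < Q j := by omega
        exact_mod_cast this
      have h3 : 0 < (Q j : ℝ) - 1 := by linarith
      have hup : 0 < (u : ℝ) := by linarith
      have h4 : (y : ℝ) ≤ 3 * (u : ℝ) * (Q j + 1) * Θ := (Finset.mem_filter.1 hi.2).2
      show ((y : ℝ) + c') / (u * (Q j - 1)) - ((y : ℝ) - c') / (u * (Q j + 1)) ≤ 8 * Θ / (Q j - 1)
      rw [div_sub_div _ _ (by positivity) (by positivity), div_le_div_iff₀ (by positivity) (by positivity)]
      have h5 : ((y : ℝ) + c') * (u * (Q j + 1)) - u * (Q j - 1) * (y - c') = u * (2 * y + 2 * c' * Q j) := by ring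
      rw [h5]
      have h6 : 2 * (y : ℝ) + 2 * c' * Q j ≤ 8 * Θ * (u * (Q j + 1)) := by
        have h7 : 2 * c' * (Q j : ℝ) ≤ 2 * (u * Θ) * (Q j + 1) := by
          have : c' * (Q j : ℝ) ≤ (u * Θ) * (Q j + 1) := mul_le_mul hc'Θ (by linarith) (by linarith) (by positivity)
          linarith
        nlinarith
      have h8 : 0 ≤ (u : ℝ) * (Q j - 1) := by positivity
      have := mul_le_mul_of_nonneg_right h6 h8
      nlinarith) (by
      rw [Finset.sum_sigma]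
      have h1 : ∀ j ∈ Jl, ∑ _y ∈ Fy j, 8 * Θ / ((Q j : ℝ) - 1) ≤ Θ * (9 / (10 * ((m : ℝ) + 1))) := by
        intro j hj
        rw [Finset.sum_const, nsmul_eq_mul]
        have h1 : ¬ Q j ≤ 100 * m + 1 := (Finset.mem_filter.1 hj).2
        have h2 : 100 * ((m : ℝ) + 1) - 99 ≤ (Q j : ℝ) - 1 := by
          have : 100 * m + 2 ≤ Q j := by omega
          have : (100 * (m : ℝ) + 2) ≤ Q j := by exact_mod_cast this
          linarith
        have hm1 : 1 ≤ m := by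
          have : 0 < J.card := Finset.card_pos.2 ⟨j, (Finset.mem_filter.1 hj).1⟩
          omega
        have hm1' : (1 : ℝ) ≤ m := by exact_mod_cast hm1
        have h3 : 0 < (Q j : ℝ) - 1 := by linarith
        have h4 := hFy j hj
        have hLp : 0 < (L : ℝ) + 1 := by positivity
        have h5 : ((Fy j).card : ℝ) * (8 * Θ / ((Q j : ℝ) - 1)) ≤
            5 * (3 * (u : ℝ) * (Q j + 1) * Θ / (L + 1) + 1) * (8 * Θ / ((Q j : ℝ) - 1)) :=
          mul_le_mul_of_nonneg_right h4 (by positivity)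
        refine h5.trans ?_
        -- two parts
        have h6 : (Q j : ℝ) + 1 ≤ 3 * (Q j - 1) := by linarith
        have h7 : 3 * (u : ℝ) * (Q j + 1) * Θ / (L + 1) * (1 / ((Q j : ℝ) - 1)) ≤ 1 / (400 * ((m : ℝ) + 1)) := by
          rw [div_mul_div_comm, div_le_div_iff₀ (by positivity) (by positivity)]
          have h8 : 4000 * ((m : ℝ) + 1) * u * Θ ≤ L + 1 := by linarith
          have h9 : 3 * (u : ℝ) * (Q j + 1) * Θ * 1 * (400 * ((m : ℝ) + 1)) ≤
              3 * (u : ℝ) * (3 * (Q j - 1)) * Θ * 1 * (400 * ((m : ℝ) + 1)) := by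
            have : 0 ≤ 3 * (u : ℝ) * Θ * (400 * ((m : ℝ) + 1)) := by positivity
            nlinarith [mul_le_mul_of_nonneg_left h6 this]
          have h10 : 3 * (u : ℝ) * (3 * (Q j - 1)) * Θ * 1 * (400 * ((m : ℝ) + 1)) =
              (3600 * ((m : ℝ) + 1) * u * Θ) * (Q j - 1) := by ring
          have h11 : (3600 * ((m : ℝ) + 1) * u * Θ) * (Q j - 1) ≤ 1 * ((L + 1) * (Q j - 1)) := by
            have : 3600 * ((m : ℝ) + 1) * u * Θ ≤ L + 1 := by
              have : 0 ≤ ((m : ℝ) + 1) * u * Θ := by positivity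
              nlinarith
            nlinarith [mul_le_mul_of_nonneg_right this h3.le]
          linarith
        have h12 : 1 / ((Q j : ℝ) - 1) ≤ 1 / (100 * (m : ℝ)) :=
          one_div_le_one_div_of_le (by positivity) (by linarith)
        have h13 : 1 / (100 * (m : ℝ)) ≤ 1 / (50 * ((m : ℝ) + 1)) := by
          refine one_div_le_one_div_of_le (by positivity) (by linarith)
        have h14 : 5 * (3 * (u : ℝ) * (Q j + 1) * Θ / (L + 1) + 1) * (8 * Θ / ((Q j : ℝ) - 1)) =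
            40 * Θ * (3 * (u : ℝ) * (Q j + 1) * Θ / (L + 1) * (1 / ((Q j : ℝ) - 1)) + 1 / ((Q j : ℝ) - 1)) := by
          field_simp
          ring
        rw [h14]
        have h15 : 40 * Θ * (3 * (u : ℝ) * (Q j + 1) * Θ / (L + 1) * (1 / ((Q j : ℝ) - 1)) + 1 / ((Q j : ℝ) - 1)) ≤
            40 * Θ * (1 / (400 * ((m : ℝ) + 1)) + 1 / (50 * ((m : ℝ) + 1))) :=
          mul_le_mul_of_nonneg_left (by linarith) (by positivity)
        refine h15.trans ?_
        have h16 : 40 * Θ * (1 / (400 * ((m : ℝ) + 1)) + 1 / (50 * ((m : ℝ) + 1))) = Θ * (9 / (10 * ((m : ℝ) + 1))) := by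
          field_simp
          ring
        rw [h16]
      calc ∑ j ∈ Jl, ∑ _y ∈ Fy j, 8 * Θ / ((Q j : ℝ) - 1) ≤ ∑ _j ∈ Jl, Θ * (9 / (10 * ((m : ℝ) + 1))) :=
            Finset.sum_le_sum h1
        _ = (Jl.card : ℝ) * (Θ * (9 / (10 * ((m : ℝ) + 1)))) := by rw [Finset.sum_const, nsmul_eq_mul]
        _ ≤ (m : ℝ) * (Θ * (9 / (10 * ((m : ℝ) + 1)))) := by
          refine mul_le_mul_of_nonneg_right ?_ (by positivity)
          exact_mod_cast Finset.card_filter_le _ _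
        _ < 2 * Θ - Θ := by
          have h2 : (m : ℝ) * (Θ * (9 / (10 * ((m : ℝ) + 1)))) = Θ * (9 * m / (10 * ((m : ℝ) + 1))) := by ring
          rw [h2]
          have h3 : 9 * (m : ℝ) / (10 * ((m : ℝ) + 1)) < 1 := by
            rw [div_lt_one (by positivity)]
            linarith
          nlinarith)
  refine ⟨θ, hΘc.trans hθ.1, hθ.2.trans ?_, ?_⟩
  · have := hmono a ha
    linarith
  intro j hj
  have hnb : ¬ Bad u E (Q j) (Y j) θ := by
    intro hbad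
    by_cases hs : Q j ≤ 100 * m + 1
    · refine hab (Finset.mem_biUnion.2 ⟨j, Finset.mem_filter.2 ⟨hj, hs⟩, ?_⟩)
      exact Finset.mem_filter.2 ⟨Finset.mem_range.2 ha, θ, hθ.1, hθ.2, hbad⟩
    · obtain ⟨y, hyY, hy⟩ := hbad
      have hQ2 : (2 : ℝ) ≤ Q j := by exact_mod_cast hQ j hj
      have hup : 0 < (u : ℝ) := by linarith
      have e1 := (bad_bounds hy).1
      have e2 := (bad_bounds hy).2
      have e3 : c' ≤ u * Θ := hc'Θ
      have e4 : (u : ℝ) * Θ ≤ u * θ := mul_le_mul_of_nonneg_left hθ.1 hup.le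
      have e5 : (u : ℝ) * θ ≤ u * (2 * Θ) := mul_le_mul_of_nonneg_left hθ.2 hup.le
      have e6 : (u : ℝ) * θ ≤ u * (Q j - 1) * θ := by
        have : 0 ≤ (u : ℝ) * θ := by nlinarith
        nlinarith
      have hc'e : c' = 7 * (u : ℝ) + E := rfl
      rw [← hc'e] at e1 e2
      have hy0 : 0 ≤ (y : ℝ) := by linarith
      have hy1 : (y : ℝ) ≤ 3 * (u : ℝ) * (Q j + 1) * Θ := by
        have e7 : (u : ℝ) * (Q j + 1) * θ ≤ (Q j + 1) * (u * (2 * Θ)) := by
          have : 0 ≤ (Q j : ℝ) + 1 := by linarith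
          nlinarith [mul_le_mul_of_nonneg_left e5 this]
        have e8 : 0 < (u : ℝ) * Θ := by positivity
        nlinarith
      refine hθn ⟨j, y⟩ ?_ ⟨?_, ?_⟩
      · refine Finset.mem_sigma.2 ⟨Finset.mem_filter.2 ⟨hj, hs⟩, Finset.mem_filter.2 ⟨Finset.mem_filter.2 ⟨?_, hyY⟩, hy1⟩⟩
        rw [Finset.mem_Ico]
        refine ⟨by exact_mod_cast hy0, ?_⟩
        have e9 : 3 * (u : ℝ) * (Q j + 1) * Θ / (L + 1) < n j := by
          have := Nat.lt_floor_add_one (3 * (u : ℝ) * (Q j + 1) * Θ / (L + 1))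
          simpa [n] using this
        rw [div_lt_iff₀ (by positivity)] at e9
        have : (y : ℝ) < (((n j : ℤ) * ((L : ℤ) + 1) : ℤ) : ℝ) := by
          push_cast
          linarith
        exact_mod_cast this
      · show ((y : ℝ) - c') / (u * (Q j + 1)) ≤ θ
        rw [div_le_iff₀ (by positivity)]
        linarith
      · show θ ≤ ((y : ℝ) + c') / (u * (Q j - 1))
        have : 0 < (Q j : ℝ) - 1 := by linarith
        rw [le_div_iff₀ (by positivity)]
        linarith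
  intro f hf y hy
  exact not_bad hnb f hf y hy

end Pool.Agent.Lib.MP_688fd0_co.SQ5.H12
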