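import Pool.Agent.Lib.MP_688fd0_co.SQ5.H12.Hand2
import Pool.Agent.Lib.MP_688fd0_co.SQ5.H76.Pull

/-!
The local model of a visit of a thread in a wide aligned strip (helper12, finding 4311).

`q` = the three letters (involutions), `Ov x v` = `x` lies over the site `v` (and in the coset). Levels `l : ℕ`, phase `p0 + l`.
The wall on the left side of the wide strip is at the level `l` at the white site `(I l, J l)`; whites of the level `l` have the
coordinate `e`: `wh l e = (I l + e, J l - e)`. Walls: `e = -mm, 0, m, m + mp`; the wide strip is between `0` and `m`.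
Strands: `true` = centred at the wall `0`, `false` = centred at the wall `m`.
-/

set_option autoImplicit false

namespace Pool.Agent.Lib.MP_688fd0_co.SQ5.H12

open Equiv Pool.Agent.Lib.MP_688fd0_co.SQ5.H76

/-- At these phases the line of the wide strip is on the strand `true`. -/
def isA (x : ℤ) : Bool := decide (x % 8 = 5 ∨ x % 8 = 6 ∨ x % 8 = 7 ∨ x % 8 = 0)

/-- The local model. -/
structure Str (Q : Type*) [Group Q] where
  q : L3 → Q
  qq : ∀ i, q i * q i = 1
  Ov : Q → V → Prop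
  hO : ∀ x v i, Ov x v → Ov (x * q i) (nb v i)
  p0 : ℤ
  I0 : ℤ
  J0 : ℤ
  mm : ℤ
  m : ℤ
  mp : ℤ

namespace Str

variable {Q : Type*} [Group Q] (T : Str Q)

def W (l : ℕ) : Bool := bw (T.p0 + l)

def I : ℕ → ℤ
  | 0 => T.I0
  | l + 1 => I l + if T.W l = true then 1 else 0

def J : ℕ → ℤ
  | 0 => T.J0
  | l + 1 => J l + if T.W l = true then 0 else 1

/-- The white site with the coordinate `e`. -/
def wh (l : ℕ) (e : ℤ) : V := (true, T.I l + e, T.J l - e)

/-- One step to the right, two columns. -/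
def sg : Q := T.q .a * T.q .b

/-- The coordinate of the left wall of the strip used by the strand `τ`. -/
def eL (τ : Bool) (l : ℕ) : ℤ :=
  if τ = true then (if isA (T.p0 + l) = true then 0 else -T.mm) else (if isA (T.p0 + l) = true then T.m else 0)

def eR (τ : Bool) (l : ℕ) : ℤ :=
  if τ = true then (if isA (T.p0 + l) = true then T.m else 0) else (if isA (T.p0 + l) = true then T.m + T.mp else T.m)

/-- The coordinate of the lower end. -/
def ep (τ : Bool) (l : ℕ) : ℤ := if T.W l = true then T.eR τ l else T.eL τ l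

theorem ep_succ (τ : Bool) (l : ℕ) : T.ep τ (l + 1) = if T.W l = true then T.eL τ l else T.eR τ l := by
  unfold ep eL eR W isA bw
  have e : T.p0 + ((l + 1 : ℕ) : ℤ) = T.p0 + l + 1 := by push_cast; ring
  rw [e]
  generalize T.p0 + (l : ℤ) = x
  have h : x % 8 = 0 ∨ x % 8 = 1 ∨ x % 8 = 2 ∨ x % 8 = 3 ∨ x % 8 = 4 ∨ x % 8 = 5 ∨ x % 8 = 6 ∨ x % 8 = 7 := by omega
  rcases h with h | h | h | h | h | h | h | h
  · have h' : (x + 1) % 8 = 1 := by omega
    rw [h, h']; cases τ <;> simp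
  · have h' : (x + 1) % 8 = 2 := by omega
    rw [h, h']; cases τ <;> simp
  · have h' : (x + 1) % 8 = 3 := by omega
    rw [h, h']; cases τ <;> simp
  · have h' : (x + 1) % 8 = 4 := by omega
    rw [h, h']; cases τ <;> simp
  · have h' : (x + 1) % 8 = 5 := by omega
    rw [h, h']; cases τ <;> simp
  · have h' : (x + 1) % 8 = 6 := by omega
    rw [h, h']; cases τ <;> simp
  · have h' : (x + 1) % 8 = 7 := by omega
    rw [h, h']; cases τ <;> simp
  · have h' : (x + 1) % 8 = 0 := by omega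
    rw [h, h']; cases τ <;> simp

/-- The word of a line from the lower to the upper end. -/
def lw (τ : Bool) (l : ℕ) : Q :=
  if T.W l = true then T.sg ^ (T.eL τ l - T.eR τ l) * T.q .a else T.sg ^ (T.eR τ l - T.eL τ l - 1) * T.q .a

/-- The word of a strand. -/
def U (τ : Bool) : ℕ → Q
  | 0 => 1
  | l + 1 => U τ l * (T.lw τ l * T.q .t)

variable {T}

theorem ov_inv {x : Q} {v : V} {i : L3} (h : T.Ov (x * T.q i) (nb v i)) : T.Ov x v := by
  have := T.hO _ _ i h
  rwa [mul_assoc, T.qq, mul_one, nb_nb] at this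

theorem ov_iff {x : Q} {v : V} {i : L3} : T.Ov (x * T.q i) (nb v i) ↔ T.Ov x v := ⟨ov_inv, T.hO _ _ _⟩

theorem ov_sg {x : Q} {i j : ℤ} : T.Ov (x * T.sg) (true, i + 1, j - 1) ↔ T.Ov x (true, i, j) := by
  have e : x * T.sg = x * T.q .a * T.q .b := by unfold sg; rw [mul_assoc]
  rw [e]
  have h1 : ((true, i + 1, j - 1) : V) = nb (nb (true, i, j) .a) .b := rfl
  rw [h1, ov_iff, ov_iff]

theorem ov_pow (n : ℤ) : ∀ {x : Q} {i j : ℤ}, T.Ov (x * T.sg ^ n) (true, i + n, j - n) ↔ T.Ov x (true, i, j) := by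
  induction n using Int.induction_on with
  | zero => intro x i j; simp
  | succ n ih =>
    intro x i j
    have e : x * T.sg ^ ((n : ℤ) + 1) = x * T.sg ^ (n : ℤ) * T.sg := by rw [zpow_add, zpow_one, mul_assoc]
    have e1 : i + ((n : ℤ) + 1) = i + n + 1 := by ring
    have e2 : j - ((n : ℤ) + 1) = j - n - 1 := by ring
    rw [e, e1, e2, ov_sg, ih]
  | pred n ih =>
    intro x i j
    have e : x * T.sg ^ (-(n : ℤ) - 1) * T.sg = x * T.sg ^ (-(n : ℤ)) := by
      rw [mul_assoc, ← zpow_add_one, sub_add_cancel]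
    have h1 := ih (x := x) (i := i) (j := j)
    rw [← h1, ← e]
    have e1 : i + -(n : ℤ) = i + (-(n : ℤ) - 1) + 1 := by ring
    have e2 : j - -(n : ℤ) = j - (-(n : ℤ) - 1) - 1 := by ring
    rw [e1, e2, ov_sg]

theorem ov_wh (n : ℤ) {x : Q} {l : ℕ} {e : ℤ} : T.Ov (x * T.sg ^ n) (T.wh l (e + n)) ↔ T.Ov x (T.wh l e) := by
  unfold wh
  have e1 : T.I l + (e + n) = T.I l + e + n := by ring
  have e2 : T.J l - (e + n) = T.J l - e - n := by ring
  rw [e1, e2, ov_pow]

/-- Up along a letter and `t`. -/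
theorem ov_up {x : Q} {l : ℕ} {e : ℤ} {i : Bool} :
    T.Ov (x * T.q (if i = true then .a else .b) * T.q .t)
      (T.wh (l + 1) (e + (if i = true then 1 else 0) - (if T.W l = true then 1 else 0))) ↔ T.Ov x (T.wh l e) := by
  unfold wh
  cases i
  · rw [if_neg (by simp), if_neg (by simp)]
    have : ((true, T.I (l + 1) + (e + 0 - (if T.W l = true then 1 else 0)),
        T.J (l + 1) - (e + 0 - (if T.W l = true then 1 else 0))) : V) = nb (nb (true, T.I l + e, T.J l - e) .b) .t := by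
      show _ = ((true, T.I l + e, T.J l - e + 1) : V)
      show ((true, (T.I l + if T.W l = true then 1 else 0) + _, (T.J l + if T.W l = true then 0 else 1) - _) : V) = _
      split_ifs
      · refine Prod.ext rfl (Prod.ext ?_ ?_) <;> simp only <;> ring
      · refine Prod.ext rfl (Prod.ext ?_ ?_) <;> simp only <;> ring
    rw [this, ov_iff, ov_iff]
  · rw [if_pos rfl, if_pos rfl]
    have : ((true, T.I (l + 1) + (e + 1 - (if T.W l = true then 1 else 0)),
        T.J (l + 1) - (e + 1 - (if T.W l = true then 1 else 0))) : V) = nb (nb (true, T.I l + e, T.J l - e) .a) .t := by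
      show _ = ((true, T.I l + e + 1, T.J l - e) : V)
      show ((true, (T.I l + if T.W l = true then 1 else 0) + _, (T.J l + if T.W l = true then 0 else 1) - _) : V) = _
      split_ifs
      · refine Prod.ext rfl (Prod.ext ?_ ?_) <;> simp only <;> ring
      · refine Prod.ext rfl (Prod.ext ?_ ?_) <;> simp only <;> ring
    rw [this, ov_iff, ov_iff]

/-- The step of a strand. -/
theorem ov_step {x : Q} {τ : Bool} {l : ℕ} :
    T.Ov (x * (T.lw τ l * T.q .t)) (T.wh (l + 1) (T.ep τ (l + 1))) ↔ T.Ov x (T.wh l (T.ep τ l)) := by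
  rw [T.ep_succ]
  unfold lw ep
  by_cases hW : T.W l = true
  · rw [if_pos hW, if_pos hW, if_pos hW]
    have e : x * (T.sg ^ (T.eL τ l - T.eR τ l) * T.q .a * T.q .t) =
        x * T.sg ^ (T.eL τ l - T.eR τ l) * T.q .a * T.q .t := by group
    have h := ov_up (T := T) (x := x * T.sg ^ (T.eL τ l - T.eR τ l)) (l := l) (e := T.eR τ l + (T.eL τ l - T.eR τ l)) (i := true)
    rw [if_pos rfl, if_pos rfl, if_pos hW] at h
    have e1 : T.eR τ l + (T.eL τ l - T.eR τ l) + 1 - 1 = T.eL τ l := by ring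
    rw [e1] at h
    rw [e, h, ov_wh]
  · rw [if_neg hW, if_neg hW, if_neg hW]
    have e : x * (T.sg ^ (T.eR τ l - T.eL τ l - 1) * T.q .a * T.q .t) =
        x * T.sg ^ (T.eR τ l - T.eL τ l - 1) * T.q .a * T.q .t := by group
    have h := ov_up (T := T) (x := x * T.sg ^ (T.eR τ l - T.eL τ l - 1)) (l := l)
      (e := T.eL τ l + (T.eR τ l - T.eL τ l - 1)) (i := true)
    rw [if_pos rfl, if_pos rfl, if_neg hW] at h
    have e1 : T.eL τ l + (T.eR τ l - T.eL τ l - 1) + 1 - 0 = T.eR τ l := by ring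
    rw [e1] at h
    rw [e, h, ov_wh]

theorem ov_U {x : Q} {τ : Bool} {l : ℕ} : T.Ov (x * T.U τ l) (T.wh l (T.ep τ l)) ↔ T.Ov x (T.wh 0 (T.ep τ 0)) := by
  induction l with
  | zero => simp [U]
  | succ l ih =>
    show T.Ov (x * (T.U τ l * (T.lw τ l * T.q .t))) _ ↔ _
    rw [← mul_assoc, ov_step, ih]

variable (T)

/-- The strands. -/
def S : Type _ := {s : Bool × Q // T.Ov s.2 (T.wh 0 (T.ep s.1 0))}

variable {T}

def lo (l : ℕ) (s : T.S) : Q := s.1.2 * T.U s.1.1 l

def up (l : ℕ) (s : T.S) : Q := T.lo l s * T.lw s.1.1 l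

theorem lo_succ (l : ℕ) (s : T.S) : T.lo (l + 1) s = T.up l s * T.q .t := by
  unfold up lo
  show s.1.2 * (T.U s.1.1 l * (T.lw s.1.1 l * T.q .t)) = _
  group

theorem ov_lo (l : ℕ) (s : T.S) : T.Ov (T.lo l s) (T.wh l (T.ep s.1.1 l)) := ov_U.2 s.2

/-- The strand whose line of level `l` has the lower end `x`. -/
def mkS (τ : Bool) (l : ℕ) (x : Q) (h : T.Ov x (T.wh l (T.ep τ l))) : T.S :=
  ⟨(τ, x * (T.U τ l)⁻¹), (ov_U (l := l)).1 (by simpa using h)⟩

theorem lo_mk (τ : Bool) (l : ℕ) (x : Q) (h : T.Ov x (T.wh l (T.ep τ l))) : T.lo l (T.mkS τ l x h) = x := by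
  show x * (T.U τ l)⁻¹ * T.U τ l = x
  group

theorem mk_eq {τ : Bool} {l : ℕ} {x : Q} (h : T.Ov x (T.wh l (T.ep τ l))) {s : T.S} (h1 : s.1.1 = τ)
    (h2 : T.lo l s = x) : s = T.mkS τ l x h := by
  subst h1
  refine Subtype.ext (Prod.ext rfl ?_)
  show s.1.2 = x * (T.U s.1.1 l)⁻¹
  rw [← h2]
  unfold lo
  group

variable (T)

/-- The walls. -/
def wall (e : ℤ) : Prop := e = -T.mm ∨ e = 0 ∨ e = T.m ∨ e = T.m + T.mp

/-- A thread in the strip: start `v0` with the coordinate `e0`, letters `lt`. -/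
structure Vis where
  v0 : Q
  e0 : ℤ
  hv0 : T.Ov v0 (T.wh 0 e0)
  lt : ℕ → Bool

variable {T}

namespace Vis

variable (K : T.Vis)

def v : ℕ → Q
  | 0 => K.v0
  | l + 1 => v l * T.q (if K.lt l = true then .a else .b) * T.q .t

def ev : ℕ → ℤ
  | 0 => K.e0
  | l + 1 => ev l + (if K.lt l = true then 1 else 0) - (if T.W l = true then 1 else 0)

def w (l : ℕ) : Q := K.v l * T.q (if K.lt l = true then .a else .b)

theorem v_succ (l : ℕ) : K.v (l + 1) = K.w l * T.q .t := rfl

theorem ov_v (l : ℕ) : T.Ov (K.v l) (T.wh l (K.ev l)) := by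
  induction l with
  | zero => exact K.hv0
  | succ l ih => exact ov_up.2 ih

/-- The type of the cut strand. -/
def ty (l : ℕ) : Bool := (fun _ : T.Vis => isA (T.p0 + l)) K

def z (l : ℕ) : Q := K.v l * T.sg ^ (T.ep (K.ty l) l - K.ev l)

theorem ov_z (l : ℕ) : T.Ov (K.z l) (T.wh l (T.ep (K.ty l) l)) := by
  have h := (ov_wh (T := T) (T.ep (K.ty l) l - K.ev l)).2 (K.ov_v l)
  rwa [add_sub_cancel] at h

/-- The cut strand. -/
def c (l : ℕ) : T.S := T.mkS (K.ty l) l (K.z l) (K.ov_z l)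

theorem lo_c (l : ℕ) : T.lo l (K.c l) = K.z l := lo_mk _ _ _ _

theorem c_ty (l : ℕ) : (K.c l).1.1 = K.ty l := rfl

/-- What is needed of the relation. -/
structure RH (R : Q → Q → Prop) (n : ℕ) : Prop where
  eqv : Equivalence R
  ra : ∀ l < n, ∀ x e, T.Ov x (T.wh l e) → -T.mm ≤ e → e < T.m + T.mp → ¬ (T.W l = true ∧ T.wall e) →
    ¬ (x = K.v l ∧ K.lt l = true) → R x (x * T.q .a)
  rb : ∀ l < n, ∀ x e, T.Ov x (T.wh l e) → -T.mm < e → e ≤ T.m + T.mp → ¬ (T.W l = false ∧ T.wall e) →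
    ¬ (x = K.v l ∧ K.lt l = false) → R x (x * T.q .b)
  rt : ∀ l, l + 1 < n → ∀ x e, T.Ov x (T.wh (l + 1) e) → T.wall e → R (x * T.q .t) x
  rh : ∀ l, l + 1 < n → R (K.w l) (K.v (l + 1))
  uniq : ∀ l < n, ∀ x e e', T.Ov x (T.wh l e) → T.Ov x (T.wh l e') → -T.mm ≤ e → e ≤ T.m + T.mp →
    -T.mm ≤ e' → e' ≤ T.m + T.mp → e = e'
  inn : ∀ l < n, 1 ≤ K.ev l ∧ K.ev l ≤ T.m - 1
  mm_pos : 0 < T.mm
  mp_pos : 0 < T.mp

variable {K} {R : Q → Q → Prop} {n : ℕ}

theorem RH.m2 (H : K.RH R n) (hn : 0 < n) : 2 ≤ T.m := by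
  have := H.inn 0 hn
  omega

/-- The strips of a strand. -/
theorem strip_cases (τ : Bool) (l : ℕ) : (T.eL τ l = -T.mm ∧ T.eR τ l = 0) ∨
    (T.eL τ l = 0 ∧ T.eR τ l = T.m ∧ τ = isA (T.p0 + l)) ∨ (T.eL τ l = T.m ∧ T.eR τ l = T.m + T.mp) := by
  unfold eL eR
  cases τ <;> cases isA (T.p0 + l) <;> simp

/-- The white of the line of `s` with the coordinate `e`. -/
def y (l : ℕ) (s : T.S) (e : ℤ) : Q := T.lo l s * T.sg ^ (e - T.ep s.1.1 l)

theorem ov_y (l : ℕ) (s : T.S) (e : ℤ) : T.Ov (y l s e) (T.wh l e) := by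
  have h := (ov_wh (T := T) (e - T.ep s.1.1 l)).2 (T.ov_lo l s)
  rwa [add_sub_cancel] at h

theorem y_ab (l : ℕ) (s : T.S) (e : ℤ) : y l s e * T.q .a = y l s (e + 1) * T.q .b := by
  unfold y
  have e1 : e + 1 - T.ep s.1.1 l = e - T.ep s.1.1 l + 1 := by ring
  rw [e1, zpow_add_one]
  unfold sg
  simp only [mul_assoc]
  rw [T.qq, mul_one]

theorem y_lo (l : ℕ) (s : T.S) : y l s (T.ep s.1.1 l) = T.lo l s := by
  unfold y; rw [sub_self, zpow_zero, mul_one]

theorem up_eq (l : ℕ) (s : T.S) :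
    T.up l s = if T.W l = true then y l s (T.eL s.1.1 l) * T.q .a else y l s (T.eR s.1.1 l - 1) * T.q .a := by
  unfold up lw y ep
  by_cases hW : T.W l = true
  · rw [if_pos hW, if_pos hW, if_pos hW, mul_assoc]
  · rw [if_neg hW, if_neg hW, if_neg hW, mul_assoc]
    congr 3
    ring

theorem RH.edge_a (H : K.RH R n) {l : ℕ} (hl : l < n) {s : T.S} {e : ℤ} (h1 : T.eL s.1.1 l ≤ e) (h2 : e < T.eR s.1.1 l)
    (h3 : ¬ (T.W l = true ∧ e = T.eL s.1.1 l)) (h4 : ¬ (y l s e = K.v l ∧ K.lt l = true)) :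
    R (y l s e) (y l s e * T.q .a) := by
  have a1 := H.mm_pos
  have a2 := H.mp_pos
  have a3 := H.m2 (by omega)
  refine H.ra l hl _ e (ov_y l s e) ?_ ?_ ?_ h4
  · rcases strip_cases (T := T) s.1.1 l with h | h | h <;> omega
  · rcases strip_cases (T := T) s.1.1 l with h | h | h <;> omega
  · rintro ⟨h5, h6⟩
    refine h3 ⟨h5, ?_⟩
    rcases strip_cases (T := T) s.1.1 l with h | h | h <;> rcases h6 with h6 | h6 | h6 | h6 <;> omega

theorem RH.edge_b (H : K.RH R n) {l : ℕ} (hl : l < n) {s : T.S} {e : ℤ} (h1 : T.eL s.1.1 l < e) (h2 : e ≤ T.eR s.1.1 l)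
    (h3 : ¬ (T.W l = false ∧ e = T.eR s.1.1 l)) (h4 : ¬ (y l s e = K.v l ∧ K.lt l = false)) :
    R (y l s e) (y l s e * T.q .b) := by
  have a1 := H.mm_pos
  have a2 := H.mp_pos
  have a3 := H.m2 (by omega)
  refine H.rb l hl _ e (ov_y l s e) ?_ ?_ ?_ h4
  · rcases strip_cases (T := T) s.1.1 l with h | h | h <;> omega
  · rcases strip_cases (T := T) s.1.1 l with h | h | h <;> omega
  · rintro ⟨h5, h6⟩
    refine h3 ⟨h5, ?_⟩
    rcases strip_cases (T := T) s.1.1 l with h | h | h <;> rcases h6 with h6 | h6 | h6 | h6 <;> omega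

/-- A segment of a line. -/
theorem seg (hR : Equivalence R) {l : ℕ} {s : T.S} {e₁ : ℤ} (k : ℕ)
    (ha : ∀ e, e₁ ≤ e → e < e₁ + k → R (y l s e) (y l s e * T.q .a))
    (hb : ∀ e, e₁ < e → e ≤ e₁ + k → R (y l s e) (y l s e * T.q .b)) : R (y l s e₁) (y l s (e₁ + k)) := by
  induction k with
  | zero => simpa using hR.refl _
  | succ k ih =>
    have h1 := ih (fun e h1 h2 => ha e h1 (by push_cast; omega)) fun e h1 h2 => hb e h1 (by push_cast; omega)
    have h2 := ha (e₁ + k) (by omega) (by push_cast; omega)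
    have h3 := hb (e₁ + k + 1) (by omega) (by push_cast; omega)
    rw [y_ab] at h2
    have e1 : e₁ + ((k + 1 : ℕ) : ℤ) = e₁ + k + 1 := by push_cast; ring
    rw [e1]
    exact hR.trans h1 (hR.trans h2 (hR.symm h3))

theorem seg' (hR : Equivalence R) {l : ℕ} {s : T.S} {e₁ e₂ : ℤ} (h : e₁ ≤ e₂)
    (ha : ∀ e, e₁ ≤ e → e < e₂ → R (y l s e) (y l s e * T.q .a))
    (hb : ∀ e, e₁ < e → e ≤ e₂ → R (y l s e) (y l s e * T.q .b)) : R (y l s e₁) (y l s e₂) := by
  obtain ⟨k, rfl⟩ : ∃ k : ℕ, e₂ = e₁ + k := ⟨(e₂ - e₁).toNat, by omega⟩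
  exact seg hR k ha hb

/-- A point of a line which is the start of the cut. -/
theorem RH.y_v (H : K.RH R n) {l : ℕ} (hl : l < n) {s : T.S} {e : ℤ} (h1 : T.eL s.1.1 l ≤ e) (h2 : e ≤ T.eR s.1.1 l)
    (h : y l s e = K.v l) : e = K.ev l ∧ s = K.c l := by
  have a1 := H.mm_pos
  have a2 := H.mp_pos
  have a3 := H.m2 (by omega)
  have a4 := H.inn l hl
  have h3 : T.Ov (K.v l) (T.wh l e) := h ▸ ov_y l s e
  have h4 : e = K.ev l := by
    refine H.uniq l hl (K.v l) e (K.ev l) h3 (K.ov_v l) ?_ ?_ ?_ ?_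
    · rcases strip_cases (T := T) s.1.1 l with h | h | h <;> omega
    · rcases strip_cases (T := T) s.1.1 l with h | h | h <;> omega
    · omega
    · omega
  refine ⟨h4, ?_⟩
  have h5 : s.1.1 = K.ty l := by
    rcases strip_cases (T := T) s.1.1 l with h | h | h
    · omega
    · exact h.2.2
    · omega
  refine mk_eq (K.ov_z l) h5 ?_
  unfold z
  rw [← h5, ← h, ← h4]
  unfold y
  rw [mul_assoc, ← zpow_add]
  simp

theorem RH.line (H : K.RH R n) {l : ℕ} (hl : l < n) {s : T.S} (hs : s ≠ K.c l) : R (T.lo l s) (T.up l s) := by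
  have a1 := H.mm_pos
  have a2 := H.mp_pos
  have a3 := H.m2 (by omega)
  have hlr : T.eL s.1.1 l < T.eR s.1.1 l := by rcases strip_cases (T := T) s.1.1 l with h | h | h <;> omega
  have hc : ∀ e, T.eL s.1.1 l ≤ e → e ≤ T.eR s.1.1 l → y l s e ≠ K.v l := fun e h1 h2 h => hs (H.y_v hl h1 h2 h).2
  rw [up_eq, ← y_lo]
  by_cases hW : T.W l = true
  · rw [if_pos hW]
    have he : T.ep s.1.1 l = T.eR s.1.1 l := by unfold ep; rw [if_pos hW]
    rw [he, y_ab]
    refine H.eqv.trans (H.eqv.symm (seg' H.eqv (e₁ := T.eL s.1.1 l + 1) (by omega) ?_ ?_)) ?_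
    · intro e h1 h2
      exact H.edge_a hl (by omega) (by omega) (by omega) fun h => hc e (by omega) (by omega) h.1
    · intro e h1 h2
      exact H.edge_b hl (by omega) (by omega) (by rw [hW]; simp) fun h => hc e (by omega) (by omega) h.1
    · exact H.edge_b hl (by omega) (by omega) (by rw [hW]; simp) fun h => hc _ (by omega) (by omega) h.1
  · rw [if_neg hW]
    have he : T.ep s.1.1 l = T.eL s.1.1 l := by unfold ep; rw [if_neg hW]
    rw [he]
    refine H.eqv.trans (seg' H.eqv (e₂ := T.eR s.1.1 l - 1) (by omega) ?_ ?_) ?_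
    · intro e h1 h2
      exact H.edge_a hl (by omega) (by omega) (fun h => hW h.1) fun h => hc e (by omega) (by omega) h.1
    · intro e h1 h2
      exact H.edge_b hl (by omega) (by omega) (by omega) fun h => hc e (by omega) (by omega) h.1
    · exact H.edge_a hl (by omega) (by omega) (fun h => hW h.1) fun h => hc _ (by omega) (by omega) h.1

theorem c_strip (K : T.Vis) (l : ℕ) : T.eL (K.c l).1.1 l = 0 ∧ T.eR (K.c l).1.1 l = T.m := by
  have h : (K.c l).1.1 = isA (T.p0 + l) := rfl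
  unfold eL eR
  rw [h]
  cases isA (T.p0 + l) <;> simp

theorem y_c (K : T.Vis) (l : ℕ) : y l (K.c l) (K.ev l) = K.v l := by
  unfold y
  rw [lo_c]
  unfold z
  have h : (K.c l).1.1 = K.ty l := rfl
  rw [h, mul_assoc, ← zpow_add]
  simp

theorem RH.ne (H : K.RH R n) {l : ℕ} (hl : l < n) {e : ℤ} (h1 : 0 ≤ e) (h2 : e ≤ T.m) (h : e ≠ K.ev l) :
    y l (K.c l) e ≠ K.v l := fun h' => h (H.y_v hl (by rw [(c_strip K l).1]; exact h1) (by rw [(c_strip K l).2]; exact h2) h').1

theorem RH.al1 (H : K.RH R n) {l : ℕ} (hl : l < n) (ha : K.lt l = T.W l) : R (T.lo l (K.c l)) (K.w l) := by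
  obtain ⟨hL, hR⟩ := c_strip K l
  have hin := H.inn l hl
  rw [← y_lo]
  unfold w
  rw [← y_c K l]
  by_cases hW : T.W l = true
  · have he : T.ep (K.c l).1.1 l = T.m := by unfold ep; rw [if_pos hW, hR]
    rw [he, if_pos (ha.trans hW), y_ab]
    refine H.eqv.trans (H.eqv.symm (seg' H.eqv (e₁ := K.ev l + 1) (by omega) ?_ ?_)) ?_
    · intro e h1 h2
      exact H.edge_a hl (by omega) (by omega) (by omega) fun h => H.ne hl (by omega) (by omega) (by omega) h.1
    · intro e h1 h2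
      exact H.edge_b hl (by omega) (by omega) (by rw [hW]; simp) fun h => H.ne hl (by omega) (by omega) (by omega) h.1
    · exact H.edge_b hl (by omega) (by omega) (by rw [hW]; simp) fun h => H.ne hl (by omega) (by omega) (by omega) h.1
  · have hW' : T.W l = false := by simpa using hW
    have he : T.ep (K.c l).1.1 l = 0 := by unfold ep; rw [if_neg hW, hL]
    have h0 := y_ab l (K.c l) (K.ev l - 1)
    rw [sub_add_cancel] at h0
    rw [he, if_neg (by rw [ha, hW']; simp), ← h0]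
    refine H.eqv.trans (seg' H.eqv (e₂ := K.ev l - 1) (by omega) ?_ ?_) ?_
    · intro e h1 h2
      exact H.edge_a hl (by omega) (by omega) (fun h => hW h.1) fun h => H.ne hl (by omega) (by omega) (by omega) h.1
    · intro e h1 h2
      exact H.edge_b hl (by omega) (by omega) (by omega) fun h => H.ne hl (by omega) (by omega) (by omega) h.1
    · exact H.edge_a hl (by omega) (by omega) (fun h => hW h.1) fun h => H.ne hl (by omega) (by omega) (by omega) h.1

theorem RH.al2 (H : K.RH R n) {l : ℕ} (hl : l < n) (ha : K.lt l = T.W l) : R (K.v l) (T.up l (K.c l)) := by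
  obtain ⟨hL, hR⟩ := c_strip K l
  have hin := H.inn l hl
  rw [← y_c K l, up_eq]
  by_cases hW : T.W l = true
  · rw [if_pos hW, y_ab, hL]
    have hlt : ¬ K.lt l = false := by rw [ha, hW]; simp
    refine H.eqv.trans (H.eqv.symm (seg' H.eqv (e₁ := 0 + 1) (by omega) ?_ ?_)) ?_
    · intro e h1 h2
      exact H.edge_a hl (by omega) (by omega) (by omega) fun h => H.ne hl (by omega) (by omega) (by omega) h.1
    · intro e h1 h2
      exact H.edge_b hl (by omega) (by omega) (by rw [hW]; simp) fun h => hlt h.2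
    · exact H.edge_b hl (by omega) (by omega) (by rw [hW]; simp) fun h => hlt h.2
  · have hlt : ¬ K.lt l = true := by rw [ha]; exact hW
    rw [if_neg hW, hR]
    refine H.eqv.trans (seg' H.eqv (e₂ := T.m - 1) (by omega) ?_ ?_) ?_
    · intro e h1 h2
      exact H.edge_a hl (by omega) (by omega) (fun h => hW h.1) fun h => hlt h.2
    · intro e h1 h2
      exact H.edge_b hl (by omega) (by omega) (by omega) fun h => H.ne hl (by omega) (by omega) (by omega) h.1
    · exact H.edge_a hl (by omega) (by omega) (fun h => hW h.1) fun h => hlt h.2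

theorem RH.na1 (H : K.RH R n) {l : ℕ} (hl : l < n) (ha : ¬ K.lt l = T.W l) : R (T.lo l (K.c l)) (K.v l) := by
  obtain ⟨hL, hR⟩ := c_strip K l
  have hin := H.inn l hl
  rw [← y_lo, ← y_c K l]
  by_cases hW : T.W l = true
  · have he : T.ep (K.c l).1.1 l = T.m := by unfold ep; rw [if_pos hW, hR]
    have hlt : ¬ K.lt l = true := by rw [hW] at ha; exact ha
    rw [he]
    refine H.eqv.symm (seg' H.eqv (by omega) ?_ ?_)
    · intro e h1 h2
      exact H.edge_a hl (by omega) (by omega) (by omega) fun h => hlt h.2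
    · intro e h1 h2
      exact H.edge_b hl (by omega) (by omega) (by rw [hW]; simp) fun h => H.ne hl (by omega) (by omega) (by omega) h.1
  · have hW' : T.W l = false := by simpa using hW
    have he : T.ep (K.c l).1.1 l = 0 := by unfold ep; rw [if_neg hW, hL]
    have hlt : ¬ K.lt l = false := by rw [hW'] at ha; exact ha
    rw [he]
    refine seg' H.eqv (by omega) ?_ ?_
    · intro e h1 h2
      exact H.edge_a hl (by omega) (by omega) (fun h => hW h.1) fun h => H.ne hl (by omega) (by omega) (by omega) h.1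
    · intro e h1 h2
      exact H.edge_b hl (by omega) (by omega) (by omega) fun h => hlt h.2

theorem RH.na2 (H : K.RH R n) {l : ℕ} (hl : l < n) (ha : ¬ K.lt l = T.W l) : R (K.w l) (T.up l (K.c l)) := by
  obtain ⟨hL, hR⟩ := c_strip K l
  have hin := H.inn l hl
  unfold w
  rw [← y_c K l, up_eq]
  by_cases hW : T.W l = true
  · have hlt : ¬ K.lt l = true := by rw [hW] at ha; exact ha
    have h0 := y_ab l (K.c l) (K.ev l - 1)
    rw [sub_add_cancel] at h0
    rw [if_pos hW, if_neg hlt, ← h0, hL]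
    by_cases h1 : K.ev l - 1 = 0
    · rw [h1]; exact H.eqv.refl _
    · refine H.eqv.trans (H.eqv.symm (H.edge_a hl (by omega) (by omega) (by omega) fun h => hlt h.2)) ?_
      rw [y_ab l (K.c l) 0]
      refine H.eqv.trans (H.eqv.symm (seg' H.eqv (e₁ := 0 + 1) (by omega) ?_ ?_)) ?_
      · intro e h1 h2
        exact H.edge_a hl (by omega) (by omega) (by omega) fun h => hlt h.2
      · intro e h1 h2
        exact H.edge_b hl (by omega) (by omega) (by rw [hW]; simp) fun h => H.ne hl (by omega) (by omega) (by omega) h.1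
      · exact H.edge_b hl (by omega) (by omega) (by rw [hW]; simp) fun h => H.ne hl (by omega) (by omega) (by omega) h.1
  · have hW' : T.W l = false := by simpa using hW
    have hlt : ¬ K.lt l = false := by rw [hW'] at ha; exact ha
    have hlt' : K.lt l = true := by simpa using hlt
    rw [if_neg hW, if_pos hlt', hR]
    by_cases h1 : K.ev l = T.m - 1
    · rw [h1]; exact H.eqv.refl _
    · rw [y_ab]
      refine H.eqv.trans (H.eqv.symm (H.edge_b hl (by omega) (by omega) (by omega) fun h => hlt h.2)) ?_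
      refine H.eqv.trans (seg' H.eqv (e₂ := T.m - 1) (by omega) ?_ ?_) ?_
      · intro e h1 h2
        exact H.edge_a hl (by omega) (by omega) (fun h => hW h.1) fun h => H.ne hl (by omega) (by omega) (by omega) h.1
      · intro e h1 h2
        exact H.edge_b hl (by omega) (by omega) (by omega) fun h => hlt h.2
      · exact H.edge_a hl (by omega) (by omega) (fun h => hW h.1) fun h => H.ne hl (by omega) (by omega) (by omega) h.1

theorem wall_ep (τ : Bool) (l : ℕ) : T.wall (T.ep τ l) := by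
  unfold wall ep
  rcases strip_cases (T := T) τ l with h | h | h <;> split_ifs <;> omega

/-- THE VISIT. -/
theorem RH.visit [DecidableEq T.S] (H : K.RH R n) :
    Visit R T.lo T.up K.v K.w K.c (fun l => K.lt l = T.W l) n where
  eqv := H.eqv
  line _ hl _ hs := H.line hl hs
  next l hl s := by
    have h := H.rt l hl (T.lo (l + 1) s) _ (T.ov_lo (l + 1) s) (wall_ep _ _)
    have e : T.lo (l + 1) s * T.q .t = T.up l s := by rw [lo_succ, mul_assoc, T.qq, mul_one]
    rw [e] at h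
    exact h
  hand l hl := H.rh l hl
  al1 _ hl ha := H.al1 hl ha
  al2 _ hl ha := H.al2 hl ha
  na1 _ hl ha := H.na1 hl ha
  na2 _ hl ha := H.na2 hl ha

end Vis

end Str

end Pool.Agent.Lib.MP_688fd0_co.SQ5.H12
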