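import Pool.Agent.Lib.MP_688fd0_co.SQ5.H12.Strip

/-!
The drift of the strands along an aligned thread (helper12): of two consecutive numbers of periods one gives a good visit.
-/

set_option autoImplicit false

namespace Pool.Agent.Lib.MP_688fd0_co.SQ5.H12

open Equiv Pool.Agent.Lib.MP_688fd0_co.SQ5.H76

theorem gp_congr {S : Type*} [DecidableEq S] {c c' : ℕ → S} {m : ℕ} (h : ∀ l < m, c l = c' l) : gp c m = gp c' m := by
  induction m with
  | zero => rfl
  | succ m ih =>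
    show swap none (some (c m)) * gp c m = swap none (some (c' m)) * gp c' m
    rw [ih fun l hl => h l (by omega), h m (by omega)]

namespace Str

variable {Q : Type*} [Group Q] (T : Str Q)

/-- The word of an aligned thread. -/
def A : ℕ → Q
  | 0 => 1
  | l + 1 => A l * (T.q (if T.W l = true then .a else .b) * T.q .t)

/-- The rotations. -/
def Gm : Subgroup Q := Subgroup.closure {T.sg, T.q .a * T.q .t}

variable {T}

theorem sg_mem : T.sg ∈ T.Gm := Subgroup.subset_closure (by simp)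

theorem at_mem : T.q .a * T.q .t ∈ T.Gm := Subgroup.subset_closure (by simp)

theorem bt_mem : T.q .b * T.q .t ∈ T.Gm := by
  have h := T.Gm.mul_mem (T.Gm.inv_mem T.sg_mem) T.at_mem
  have e : T.sg⁻¹ * (T.q .a * T.q .t) = T.q .b * T.q .t := by
    have h1 : (T.q .b)⁻¹ = T.q .b := inv_eq_of_mul_eq_one_right (T.qq .b)
    unfold sg
    rw [mul_inv_rev, h1]
    group
  rwa [e] at h

theorem lt_mem (i : Bool) : T.q (if i = true then .a else .b) * T.q .t ∈ T.Gm := by
  cases i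
  · exact T.bt_mem
  · exact T.at_mem

theorem A_mem (l : ℕ) : T.A l ∈ T.Gm := by
  induction l with
  | zero => exact T.Gm.one_mem
  | succ l ih => exact T.Gm.mul_mem ih (lt_mem _)

theorem step_mem (τ : Bool) (l : ℕ) : T.lw τ l * T.q .t ∈ T.Gm := by
  unfold lw
  split_ifs
  · rw [mul_assoc]
    exact T.Gm.mul_mem (T.Gm.zpow_mem sg_mem _) at_mem
  · rw [mul_assoc]
    exact T.Gm.mul_mem (T.Gm.zpow_mem sg_mem _) at_mem

theorem U_mem (τ : Bool) (l : ℕ) : T.U τ l ∈ T.Gm := by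
  induction l with
  | zero => exact T.Gm.one_mem
  | succ l ih => exact T.Gm.mul_mem ih (step_mem τ l)

section per

variable {u : ℕ}

theorem W_add (hu : 8 ∣ u) (l : ℕ) : T.W (u + l) = T.W l := by
  unfold W
  refine bw_congr ?_
  push_cast
  omega

theorem isA_add (hu : 8 ∣ u) (l : ℕ) : isA (T.p0 + ((u + l : ℕ) : ℤ)) = isA (T.p0 + l) := by
  unfold isA
  have : (T.p0 + ((u + l : ℕ) : ℤ)) % 8 = (T.p0 + l) % 8 := by push_cast; omega
  rw [this]

theorem eL_add (hu : 8 ∣ u) (τ : Bool) (l : ℕ) : T.eL τ (u + l) = T.eL τ l := by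
  unfold eL; rw [isA_add hu]

theorem eR_add (hu : 8 ∣ u) (τ : Bool) (l : ℕ) : T.eR τ (u + l) = T.eR τ l := by
  unfold eR; rw [isA_add hu]

theorem ep_add (hu : 8 ∣ u) (τ : Bool) (l : ℕ) : T.ep τ (u + l) = T.ep τ l := by
  unfold ep; rw [W_add hu, eL_add hu, eR_add hu]

theorem lw_add (hu : 8 ∣ u) (τ : Bool) (l : ℕ) : T.lw τ (u + l) = T.lw τ l := by
  unfold lw; rw [W_add hu, eL_add hu, eR_add hu]

theorem A_add (hu : 8 ∣ u) (l : ℕ) : T.A (u + l) = T.A u * T.A l := by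
  induction l with
  | zero => simp [A]
  | succ l ih =>
    rw [← add_assoc]
    show T.A (u + l) * _ = T.A u * (T.A l * _)
    rw [ih, W_add hu, mul_assoc]

theorem U_add (hu : 8 ∣ u) (τ : Bool) (l : ℕ) : T.U τ (u + l) = T.U τ u * T.U τ l := by
  induction l with
  | zero => simp [U]
  | succ l ih =>
    rw [← add_assoc]
    show T.U τ (u + l) * _ = T.U τ u * (T.U τ l * _)
    rw [ih, lw_add hu, mul_assoc]

theorem A_mul (hu : 8 ∣ u) (x : ℕ) : T.A (x * u) = T.A u ^ x := by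
  induction x with
  | zero => simp [A]
  | succ x ih =>
    have e : (x + 1) * u = u + x * u := by ring
    rw [e, A_add hu, ih, pow_succ']

theorem U_mul (hu : 8 ∣ u) (τ : Bool) (x : ℕ) : T.U τ (x * u) = T.U τ u ^ x := by
  induction x with
  | zero => simp [U]
  | succ x ih =>
    have e : (x + 1) * u = u + x * u := by ring
    rw [e, U_add hu, ih, pow_succ']

theorem ov_A {x : Q} {e : ℤ} (l : ℕ) : T.Ov (x * T.A l) (T.wh l e) ↔ T.Ov x (T.wh 0 e) := by
  induction l with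
  | zero => simp [A]
  | succ l ih =>
    show T.Ov (x * (T.A l * _)) _ ↔ _
    rw [← ih]
    have h := ov_up (T := T) (x := x * T.A l) (l := l) (e := e) (i := T.W l)
    rw [add_sub_cancel_right] at h
    rw [← h, ← mul_assoc, ← mul_assoc]

/-- The drift of the strands. -/
def drift (u : ℕ) (hu : 8 ∣ u) : Perm T.S where
  toFun s := ⟨(s.1.1, s.1.2 * T.A u * (T.U s.1.1 u)⁻¹), by
    rw [← ov_U (l := u)]
    show T.Ov (s.1.2 * T.A u * (T.U s.1.1 u)⁻¹ * T.U s.1.1 u) (T.wh u (T.ep s.1.1 u))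
    rw [inv_mul_cancel_right, ov_A]
    have h := ep_add (T := T) hu s.1.1 0
    rw [add_zero] at h
    rw [h]
    exact s.2⟩
  invFun s := ⟨(s.1.1, s.1.2 * T.U s.1.1 u * (T.A u)⁻¹), by
    show T.Ov (s.1.2 * T.U s.1.1 u * (T.A u)⁻¹) (T.wh 0 (T.ep s.1.1 0))
    rw [← ov_A (l := u), inv_mul_cancel_right]
    have h := ep_add (T := T) hu s.1.1 0
    rw [add_zero] at h
    rw [← h, ov_U]
    exact s.2⟩
  left_inv s := by
    refine Subtype.ext (Prod.ext rfl ?_)
    show s.1.2 * T.A u * (T.U s.1.1 u)⁻¹ * T.U s.1.1 u * (T.A u)⁻¹ = s.1.2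
    group
  right_inv s := by
    refine Subtype.ext (Prod.ext rfl ?_)
    show s.1.2 * T.U s.1.1 u * (T.A u)⁻¹ * T.A u * (T.U s.1.1 u)⁻¹ = s.1.2
    group

theorem drift_pow' (hu : 8 ∣ u) (x : ℕ) (s : T.S) :
    ((T.drift u hu ^ x) s).1 = (s.1.1, s.1.2 * (T.A u * (T.U s.1.1 u)⁻¹) ^ x) := by
  induction x with
  | zero => simp
  | succ x ih =>
    rw [pow_succ', Perm.mul_apply]
    show (((T.drift u hu ^ x) s).1.1, ((T.drift u hu ^ x) s).1.2 * T.A u * (T.U ((T.drift u hu ^ x) s).1.1 u)⁻¹) = _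
    rw [ih, pow_succ]
    simp only [mul_assoc]

end per

namespace Vis

/-- The visit with `x` periods and the exit letter `i`. -/
def visK (v0 : Q) (e0 : ℤ) (hv0 : T.Ov v0 (T.wh 0 e0)) (u : ℕ) (i : Bool) (x : ℕ) : T.Vis :=
  ⟨v0, e0, hv0, fun l => if l < x * u then T.W l else i⟩

variable {v0 : Q} {e0 : ℤ} {hv0 : T.Ov v0 (T.wh 0 e0)} {u : ℕ} {i : Bool} {x : ℕ}

theorem visK_v {l : ℕ} (hl : l ≤ x * u) : (visK v0 e0 hv0 u i x).v l = v0 * T.A l := by
  induction l with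
  | zero => show v0 = v0 * 1; rw [mul_one]
  | succ l ih =>
    show (visK v0 e0 hv0 u i x).v l * T.q (if (if l < x * u then T.W l else i) = true then .a else .b) * T.q .t =
      v0 * (T.A l * (T.q (if T.W l = true then .a else .b) * T.q .t))
    rw [ih (by omega), if_pos (by omega : l < x * u)]
    simp only [mul_assoc]

theorem visK_ev {l : ℕ} (hl : l ≤ x * u) : (visK v0 e0 hv0 u i x).ev l = e0 := by
  induction l with
  | zero => rfl
  | succ l ih =>
    show (visK v0 e0 hv0 u i x).ev l + (if (if l < x * u then T.W l else i) = true then 1 else 0) -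
      (if T.W l = true then 1 else 0) = e0
    rw [ih (by omega), if_pos (by omega : l < x * u)]
    ring

theorem visK_v' (hu : 8 ∣ u) (j : ℕ) :
    (visK v0 e0 hv0 u i x).v (x * u + j) = v0 * T.A u ^ x * (T.q (if i = true then .a else .b) * T.q .t) ^ j := by
  induction j with
  | zero => rw [add_zero, visK_v le_rfl, A_mul hu, pow_zero, mul_one]
  | succ j ih =>
    show (visK v0 e0 hv0 u i x).v (x * u + j) * T.q (if (if x * u + j < x * u then T.W (x * u + j) else i) = true then .a else .b) *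
      T.q .t = _
    rw [ih, if_neg (by omega : ¬ x * u + j < x * u), pow_succ]
    simp only [mul_assoc]

theorem visK_ev' (hu : 8 ∣ u) (j : ℕ) : (visK v0 e0 hv0 u i x).ev (x * u + j) = (visK v0 e0 hv0 u i 0).ev j := by
  induction j with
  | zero => rw [add_zero, visK_ev le_rfl]; rfl
  | succ j ih =>
    show (visK v0 e0 hv0 u i x).ev (x * u + j) + (if (if x * u + j < x * u then T.W (x * u + j) else i) = true then 1 else 0) -
      (if T.W (x * u + j) = true then 1 else 0) = (visK v0 e0 hv0 u i 0).ev j +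
      (if (if j < 0 * u then T.W j else i) = true then 1 else 0) - (if T.W j = true then 1 else 0)
    rw [ih, if_neg (by omega : ¬ x * u + j < x * u), if_neg (by omega : ¬ j < 0 * u), W_add (Dvd.dvd.mul_left hu x)]

theorem c_eq {K K' : T.Vis} {l : ℕ} (h1 : K.v l = K'.v l) (h2 : K.ev l = K'.ev l) : K.c l = K'.c l := by
  refine Subtype.ext (Prod.ext rfl ?_)
  show K.z l * (T.U (K.ty l) l)⁻¹ = K'.z l * (T.U (K'.ty l) l)⁻¹
  have h3 : K.ty l = K'.ty l := rfl
  unfold z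
  rw [h1, h2, h3]

/-- The strand of an exit level. -/
theorem visK_c (hu : 8 ∣ u) (hc : ∀ g ∈ T.Gm, Commute (T.A u) g) (j : ℕ) :
    (visK v0 e0 hv0 u i x).c (x * u + j) = (T.drift u hu ^ x) ((visK v0 e0 hv0 u i 0).c j) := by
  apply Subtype.ext
  rw [drift_pow']
  have hxu : 8 ∣ x * u := Dvd.dvd.mul_left hu x
  have hty : (visK v0 e0 hv0 u i x).ty (x * u + j) = (visK v0 e0 hv0 u i 0).ty j := by
    show isA (T.p0 + ((x * u + j : ℕ) : ℤ)) = isA (T.p0 + j)
    exact isA_add hxu j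
  refine Prod.ext hty ?_
  show (visK v0 e0 hv0 u i x).z (x * u + j) * (T.U ((visK v0 e0 hv0 u i x).ty (x * u + j)) (x * u + j))⁻¹ =
    (visK v0 e0 hv0 u i 0).z j * (T.U ((visK v0 e0 hv0 u i 0).ty j) j)⁻¹ *
      (T.A u * (T.U ((visK v0 e0 hv0 u i 0).ty j) u)⁻¹) ^ x
  rw [hty]
  unfold z
  rw [hty, visK_v' hu, visK_ev' hu, ep_add hxu, U_add hxu, U_mul hu]
  have h0 := visK_v' (v0 := v0) (e0 := e0) (hv0 := hv0) (u := u) (i := i) (x := 0) hu j
  rw [Nat.zero_mul, Nat.zero_add, pow_zero, mul_one] at h0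
  rw [h0]
  generalize (visK v0 e0 hv0 u i 0).ty j = τ
  generalize T.ep τ j - (visK v0 e0 hv0 u i 0).ev j = k
  have hcU : Commute (T.A u) (T.U τ u)⁻¹ := (hc _ (U_mem τ u)).inv_right
  rw [hcU.mul_pow, mul_inv_rev, inv_pow]
  have h1 : T.A u ^ x * ((T.q (if i = true then .a else .b) * T.q .t) ^ j * T.sg ^ k * (T.U τ j)⁻¹) =
      ((T.q (if i = true then .a else .b) * T.q .t) ^ j * T.sg ^ k * (T.U τ j)⁻¹) * T.A u ^ x := by
    refine ((hc _ ?_).pow_left x).eq
    exact T.Gm.mul_mem (T.Gm.mul_mem (T.Gm.pow_mem (lt_mem i) j) (T.Gm.zpow_mem sg_mem k)) (T.Gm.inv_mem (U_mem τ j))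
  calc v0 * T.A u ^ x * (T.q (if i = true then .a else .b) * T.q .t) ^ j * T.sg ^ k *
        ((T.U τ j)⁻¹ * (T.U τ u ^ x)⁻¹)
      = v0 * (T.A u ^ x * ((T.q (if i = true then .a else .b) * T.q .t) ^ j * T.sg ^ k * (T.U τ j)⁻¹)) *
        (T.U τ u ^ x)⁻¹ := by simp only [mul_assoc]
    _ = _ := by rw [h1]; simp only [mul_assoc]

/-- The aligned thread is periodic up to the drift. -/
theorem alc (hu : 8 ∣ u) (hc : ∀ g ∈ T.Gm, Commute (T.A u) g) (l : ℕ) :
    (⟨v0, e0, hv0, T.W⟩ : T.Vis).c (l + u) = T.drift u hu ((⟨v0, e0, hv0, T.W⟩ : T.Vis).c l) := by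
  have hv : ∀ l, (⟨v0, e0, hv0, T.W⟩ : T.Vis).v l = v0 * T.A l := by
    intro l
    induction l with
    | zero => show v0 = v0 * 1; rw [mul_one]
    | succ l ih =>
      show (⟨v0, e0, hv0, T.W⟩ : T.Vis).v l * T.q (if T.W l = true then .a else .b) * T.q .t = v0 * (T.A l * _)
      rw [ih]
      simp only [mul_assoc]
  have hev : ∀ l, (⟨v0, e0, hv0, T.W⟩ : T.Vis).ev l = e0 := by
    intro l
    induction l with
    | zero => rfl
    | succ l ih =>
      show (⟨v0, e0, hv0, T.W⟩ : T.Vis).ev l + (if T.W l = true then 1 else 0) - (if T.W l = true then 1 else 0) = e0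
      rw [ih]; ring
  have e : l + u = u + l := by ring
  rw [e]
  refine Subtype.ext (Prod.ext (isA_add hu l) ?_)
  show (⟨v0, e0, hv0, T.W⟩ : T.Vis).z (u + l) * (T.U (isA (T.p0 + ((u + l : ℕ) : ℤ))) (u + l))⁻¹ =
    (⟨v0, e0, hv0, T.W⟩ : T.Vis).z l * (T.U (isA (T.p0 + l)) l)⁻¹ * T.A u * (T.U (isA (T.p0 + l)) u)⁻¹
  unfold z
  show (⟨v0, e0, hv0, T.W⟩ : T.Vis).v (u + l) * T.sg ^ (T.ep (isA (T.p0 + ((u + l : ℕ) : ℤ))) (u + l) -
      (⟨v0, e0, hv0, T.W⟩ : T.Vis).ev (u + l)) * (T.U (isA (T.p0 + ((u + l : ℕ) : ℤ))) (u + l))⁻¹ =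
    (⟨v0, e0, hv0, T.W⟩ : T.Vis).v l * T.sg ^ (T.ep (isA (T.p0 + l)) l - (⟨v0, e0, hv0, T.W⟩ : T.Vis).ev l) *
      (T.U (isA (T.p0 + l)) l)⁻¹ * T.A u * (T.U (isA (T.p0 + l)) u)⁻¹
  rw [hv, hv, hev, hev, isA_add hu, ep_add hu, U_add hu, A_add hu]
  generalize isA (T.p0 + (l : ℤ)) = τ
  generalize T.ep τ l - e0 = k
  have h1 : T.A u * (T.A l * T.sg ^ k * (T.U τ l)⁻¹) = (T.A l * T.sg ^ k * (T.U τ l)⁻¹) * T.A u :=
    (hc _ (T.Gm.mul_mem (T.Gm.mul_mem (A_mem l) (T.Gm.zpow_mem sg_mem k)) (T.Gm.inv_mem (U_mem τ l)))).eq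
  calc v0 * (T.A u * T.A l) * T.sg ^ k * (T.U τ u * T.U τ l)⁻¹
      = v0 * (T.A u * (T.A l * T.sg ^ k * (T.U τ l)⁻¹)) * (T.U τ u)⁻¹ := by
        rw [mul_inv_rev]; simp only [mul_assoc]
    _ = _ := by rw [h1]; simp only [mul_assoc]

/-- The hand permutation of the visit is the one of the aligned thread. -/
theorem visK_gp [DecidableEq T.S] (m : ℕ) (hm : m ≤ x * u) :
    gp (visK v0 e0 hv0 u i x).c m = gp (⟨v0, e0, hv0, T.W⟩ : T.Vis).c m := by
  refine gp_congr fun l hl => ?_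
  have hv : ∀ l, (⟨v0, e0, hv0, T.W⟩ : T.Vis).v l = v0 * T.A l := by
    intro l
    induction l with
    | zero => show v0 = v0 * 1; rw [mul_one]
    | succ l ih =>
      show (⟨v0, e0, hv0, T.W⟩ : T.Vis).v l * T.q (if T.W l = true then .a else .b) * T.q .t = v0 * (T.A l * _)
      rw [ih]
      simp only [mul_assoc]
  have hev : ∀ l, (⟨v0, e0, hv0, T.W⟩ : T.Vis).ev l = e0 := by
    intro l
    induction l with
    | zero => rfl
    | succ l ih =>
      show (⟨v0, e0, hv0, T.W⟩ : T.Vis).ev l + (if T.W l = true then 1 else 0) - (if T.W l = true then 1 else 0) = e0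
      rw [ih]; ring
  exact c_eq (by rw [visK_v (by omega), hv]) (by rw [visK_ev (by omega), hev])

/-- The number of periods `x` is good for the exit level `j` (`j = 0` or `1`). -/
def Good [DecidableEq T.S] (v0 : Q) (e0 : ℤ) (hv0 : T.Ov v0 (T.wh 0 e0)) (u : ℕ) (i : Bool) (j x : ℕ) : Prop :=
  gp (visK v0 e0 hv0 u i x).c (x * u) none ≠ some ((visK v0 e0 hv0 u i x).c (x * u + j))

theorem good [DecidableEq T.S] (hu : 8 ∣ u) (hc : ∀ g ∈ T.Gm, Commute (T.A u) g) (j x : ℕ) :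
    Good v0 e0 hv0 u i j x ∨ Good v0 e0 hv0 u i j (x + 1) := by
  unfold Good
  rw [visK_gp _ le_rfl, visK_gp _ le_rfl, visK_c hu hc, visK_c hu hc]
  exact good_or' (alc hu hc) _ x

theorem isA_ne {l : ℕ} (h : T.W l = T.W (l + 1)) : isA (T.p0 + l) ≠ isA (T.p0 + ((l + 1 : ℕ) : ℤ)) := by
  unfold W bw at h
  unfold isA
  have e : T.p0 + ((l + 1 : ℕ) : ℤ) = T.p0 + l + 1 := by push_cast; ring
  rw [e] at h ⊢
  revert h
  generalize T.p0 + (l : ℤ) = x
  intro h
  have hx : x % 8 = 0 ∨ x % 8 = 1 ∨ x % 8 = 2 ∨ x % 8 = 3 ∨ x % 8 = 4 ∨ x % 8 = 5 ∨ x % 8 = 6 ∨ x % 8 = 7 := by omega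
  rcases hx with h' | h' | h' | h' | h' | h' | h' | h'
  · have h2 : (x + 1) % 8 = 1 := by omega
    rw [h', h2]; decide
  · have h2 : (x + 1) % 8 = 2 := by omega
    rw [h', h2] at h; exact absurd h (by decide)
  · have h2 : (x + 1) % 8 = 3 := by omega
    rw [h', h2] at h; exact absurd h (by decide)
  · have h2 : (x + 1) % 8 = 4 := by omega
    rw [h', h2] at h; exact absurd h (by decide)
  · have h2 : (x + 1) % 8 = 5 := by omega
    rw [h', h2]; decide
  · have h2 : (x + 1) % 8 = 6 := by omega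
    rw [h', h2] at h; exact absurd h (by decide)
  · have h2 : (x + 1) % 8 = 7 := by omega
    rw [h', h2] at h; exact absurd h (by decide)
  · have h2 : (x + 1) % 8 = 0 := by omega
    rw [h', h2] at h; exact absurd h (by decide)

/-- THE VISIT, conclusion: the two ends go to two different ends of strands, everything is joined to an end of a strand. -/
theorem conc [DecidableEq T.S] {R : Q → Q → Prop} {j : ℕ} (hj : j = 0 ∨ j = 1)
    (H : (visK v0 e0 hv0 u i x).RH R (x * u + j + 1)) (hg : Good v0 e0 hv0 u i j x) :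
    Ends R T.lo T.up (x * u + j + 1) ((visK v0 e0 hv0 u i x).v 0) ((visK v0 e0 hv0 u i x).w (x * u + j)) ∧
      ∀ l < x * u + j + 1, ∀ s, Visit.Term R T.lo T.up (x * u + j + 1) (T.lo l s) ∧
        Visit.Term R T.lo T.up (x * u + j + 1) (T.up l s) := by
  have hV := H.visit
  have ha : ∀ l < x * u, (visK v0 e0 hv0 u i x).lt l = T.W l := fun l hl => if_pos hl
  have hl : ∀ l, ¬ l < x * u → (visK v0 e0 hv0 u i x).lt l = i := fun l hl => if_neg hl
  rcases hj with rfl | rfl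
  · exact ⟨hV.ends_one' ha hg, hV.all_one ha hg⟩
  · have hd : ((visK v0 e0 hv0 u i x).lt (x * u) = T.W (x * u) ↔
        (visK v0 e0 hv0 u i x).lt (x * u + 1) = T.W (x * u + 1)) →
        (visK v0 e0 hv0 u i x).c (x * u) ≠ (visK v0 e0 hv0 u i x).c (x * u + 1) := by
      intro h1 h2
      rw [hl _ (by omega), hl _ (by omega)] at h1
      have h3 : T.W (x * u) = T.W (x * u + 1) := by
        revert h1
        cases i <;> cases T.W (x * u) <;> cases T.W (x * u + 1) <;> simp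
      exact isA_ne h3 (congrArg (fun s : T.S => s.1.1) h2)
    exact ⟨hV.ends_two' ha hg hd, hV.all_two ha hg hd⟩

/-- The cut vertices are joined to ends of strands. -/
theorem conc_T [DecidableEq T.S] {R : Q → Q → Prop} {j : ℕ} (hj : j = 0 ∨ j = 1)
    (H : (visK v0 e0 hv0 u i x).RH R (x * u + j + 1)) (hg : Good v0 e0 hv0 u i j x) {l : ℕ} (hl : l < x * u + j + 1) :
    Visit.Term R T.lo T.up (x * u + j + 1) ((visK v0 e0 hv0 u i x).v l) ∧
      Visit.Term R T.lo T.up (x * u + j + 1) ((visK v0 e0 hv0 u i x).w l) := by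
  have h := (conc hj H hg).2 l hl ((visK v0 e0 hv0 u i x).c l)
  by_cases ha : (visK v0 e0 hv0 u i x).lt l = T.W l
  · exact ⟨Visit.Term.trans H.visit (H.al2 hl ha) h.2, Visit.Term.trans H.visit (H.eqv.symm (H.al1 hl ha)) h.1⟩
  · exact ⟨Visit.Term.trans H.visit (H.eqv.symm (H.na1 hl ha)) h.1, Visit.Term.trans H.visit (H.na2 hl ha) h.2⟩

end Vis

end Str

end Pool.Agent.Lib.MP_688fd0_co.SQ5.H12
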