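import Pool.Agent.Lib.MP_688fd0_co.SQ4.H49.Walk

/-!
LEMMA UNION (helper12, finding 4280), without groups.

`Sep` (SQ4.H49.Walk) is closed under union: two regions with `Sep` and three direct arcs between them form a region with
`Sep`. So clusters of windows may be joined by three direct arcs between ANY of their windows, and at the end the two
cycles can be chosen such that they go through two given arcs (those that were not used as joining arcs).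

Flat form: `E` all ports, `Spt S a`: `a` is an involution that moves exactly the points of `S`. Outside `O` with `Spt S O`,
inside `k` with `Spt S k`. In the union the outside of the first region is `Con O k₂`.
-/

set_option autoImplicit false

namespace Pool.Agent.Lib.MP_688fd0_co.SQ5.H12

open Function Relation
open Pool.Agent.Lib.MP_688fd0_co.SQ4.H49

universe u v

/-- An involution that moves exactly the points of `S`. -/
def Spt {E : Type*} (S : Set E) (a : E → E) : Prop := ∀ x, a (a x) = x ∧ (a x = x ↔ x ∉ S)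

section flat

variable {E : Type u} {S T : Set E} {a b O k : E → E}

theorem Spt.inv (h : Spt S a) (x : E) : a (a x) = x := (h x).1

theorem Spt.off (h : Spt S a) {x : E} (hx : x ∉ S) : a x = x := (h x).2.2 hx

theorem Spt.ne (h : Spt S a) {x : E} (hx : x ∈ S) : a x ≠ x := fun h' => (h x).2.1 h' hx

theorem Spt.mem (h : Spt S a) {x : E} (hx : x ∈ S) : a x ∈ S := by
  by_contra h1
  have h2 := h.off h1
  rw [h.inv] at h2
  exact h.ne hx h2.symm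

theorem Spt.mem_iff (h : Spt S a) {x : E} : a x ∈ S ↔ x ∈ S := by
  refine ⟨fun hx => ?_, fun hx => h.mem hx⟩
  have := h.mem hx
  rwa [h.inv] at this

/-- One step: outside, then inside. -/
def sp (O k : E → E) (x : E) : E := k (O x)

theorem sp_inj (hO : Spt S O) (hk : Spt T k) : Injective (sp O k) := by
  intro x y h
  have h1 := congrArg k h
  unfold sp at h1
  rw [hk.inv, hk.inv] at h1
  have h2 := congrArg O h1
  rwa [hO.inv, hO.inv] at h2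

/-- First return to the points of `S` outside of `T`. -/
def Rt (O k : E → E) (U : Set E) (e e' : E) : Prop :=
  ∃ n : ℕ, O ((sp O k)^[n] e) = e' ∧ e' ∈ U ∧ ∀ m < n, O ((sp O k)^[m] e) ∉ U

/-- `k` moves `T`, `O` moves `S = T ∪ U`, `T` and `U` disjoint. -/
structure Reg (O k : E → E) (T U : Set E) : Prop where
  hO : Spt (T ∪ U) O
  hk : Spt T k
  hd : Disjoint T U

variable {U : Set E}

theorem Reg.notT (h : Reg O k T U) {x : E} (hx : x ∈ U) : x ∉ T :=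
  fun h' => (Set.disjoint_left.1 h.hd) h' hx

theorem Reg.notU (h : Reg O k T U) {x : E} (hx : x ∈ T) : x ∉ U :=
  (Set.disjoint_left.1 h.hd) hx

theorem Reg.spS (h : Reg O k T U) {x : E} (hx : x ∈ T ∪ U) : sp O k x ∈ T ∪ U := by
  unfold sp
  have h1 := h.hO.mem hx
  rcases h1 with h1 | h1
  · exact Or.inl (h.hk.mem h1)
  · rw [h.hk.off (h.notT h1)]; exact Or.inr h1

theorem Reg.itS (h : Reg O k T U) {x : E} (hx : x ∈ T ∪ U) (n : ℕ) : (sp O k)^[n] x ∈ T ∪ U := by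
  induction n with
  | zero => exact hx
  | succ n ih => rw [iterate_succ_apply']; exact h.spS ih

theorem Reg.rt_exists [Finite E] (h : Reg O k T U) {e : E} (he : e ∈ U) : ∃ e', Rt O k U e e' := by
  classical
  have hex : ∃ n : ℕ, O ((sp O k)^[n] e) ∈ U := by
    obtain ⟨n, hn, hper⟩ := mem_periodicPts.1 ((sp_inj h.hO h.hk).mem_periodicPts e)
    obtain ⟨m, rfl⟩ : ∃ m, n = m + 1 := ⟨n - 1, by omega⟩
    refine ⟨m, ?_⟩
    have h1 : (sp O k)^[m + 1] e = e := hper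
    rw [iterate_succ_apply'] at h1
    have h2 : O ((sp O k)^[m] e) = k e := by
      have := congrArg k h1
      unfold sp at this
      rw [h.hk.inv] at this
      exact this
    rw [h2, h.hk.off (h.notT he)]
    exact he
  exact ⟨_, Nat.find hex, rfl, Nat.find_spec hex, fun m hm => Nat.find_min hex hm⟩

theorem rt_unique {e e₁ e₂ : E} (h₁ : Rt O k U e e₁) (h₂ : Rt O k U e e₂) : e₁ = e₂ := by
  obtain ⟨n, h1, hu1, h2⟩ := h₁
  obtain ⟨m, h3, hu2, h4⟩ := h₂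
  have hnm : n = m := by
    rcases lt_trichotomy n m with h | h | h
    · exact absurd (by rw [h1]; exact hu1) (h4 n h)
    · exact h
    · exact absurd (by rw [h3]; exact hu2) (h2 m h)
  subst hnm
  rw [← h1, h3]

/-- The reversed walk. -/
theorem Reg.rev (h : Reg O k T U) (x : E) (n : ℕ) :
    ∀ m ≤ n, (sp O k)^[m] (O ((sp O k)^[n] x)) = O ((sp O k)^[n - m] x) := by
  intro m
  induction m with
  | zero => intro _; rfl
  | succ m ih =>
    intro hm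
    rw [iterate_succ_apply', ih (by omega)]
    obtain ⟨j, hj⟩ : ∃ j, n - m = j + 1 := ⟨n - m - 1, by omega⟩
    have hj' : n - (m + 1) = j := by omega
    rw [hj, hj', iterate_succ_apply']
    show k (O (O (k (O ((sp O k)^[j] x))))) = _
    rw [h.hO.inv, h.hk.inv]

/-- Inner points of the walk lie in `T`. -/
theorem Reg.inner (h : Reg O k T U) {e : E} (he : e ∈ U) {n : ℕ} (hn : ∀ m < n, O ((sp O k)^[m] e) ∉ U) {m : ℕ}
    (hm : m < n) : O ((sp O k)^[m] e) ∈ T ∧ (sp O k)^[m + 1] e ∈ T := by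
  have h1 : O ((sp O k)^[m] e) ∈ T ∪ U := h.hO.mem (h.itS (Or.inr he) m)
  have h2 : O ((sp O k)^[m] e) ∈ T := h1.resolve_right (hn m hm)
  refine ⟨h2, ?_⟩
  rw [iterate_succ_apply']
  exact h.hk.mem h2

theorem Reg.rt_symm (h : Reg O k T U) {e e' : E} (he : e ∈ U) (hr : Rt O k U e e') : Rt O k U e' e := by
  obtain ⟨n, h1, hu, h2⟩ := hr
  refine ⟨n, ?_, he, ?_⟩
  · rw [← h1, h.rev _ n n le_rfl, Nat.sub_self, h.hO.inv]
    rfl
  · intro m hm
    rw [← h1, h.rev _ n m hm.le, h.hO.inv]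
    obtain ⟨j, hj⟩ : ∃ j, n - m = j + 1 := ⟨n - m - 1, by omega⟩
    rw [hj]
    exact h.notU (h.inner he h2 (by omega)).2

theorem Reg.rt_ne (h : Reg O k T U) {e : E} (he : e ∈ U) (hr : Rt O k U e e) : False := by
  obtain ⟨n, h1, -, h2⟩ := hr
  have key : ∀ m ≤ n, (sp O k)^[m] e = O ((sp O k)^[n - m] e) := by
    intro m hm
    have := h.rev e n m hm
    rwa [h1] at this
  rcases Nat.even_or_odd' n with ⟨j, hj | hj⟩
  · have := key j (by omega)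
    rw [show n - j = j by omega] at this
    exact h.hO.ne (h.itS (Or.inr he) j) this.symm
  · have := key (j + 1) (by omega)
    rw [show n - (j + 1) = j by omega, iterate_succ_apply'] at this
    exact h.hk.ne (h.inner he h2 (show j < n by omega)).1 this

theorem rt_con {e e' : E} (hr : Rt O k U e e') : Con O k e e' := by
  obtain ⟨n, h1, -, -⟩ := hr
  have key : ∀ m, Con O k e ((sp O k)^[m] e) := by
    intro m
    induction m with
    | zero => exact Con.rfl'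
    | succ m ih =>
      rw [iterate_succ_apply']
      exact ih.trans ((con_left _ _ _).trans (con_right _ _ _))
  rw [← h1]
  exact (key n).trans (con_left _ _ _)

/-- Everything connected with `e` outside of `U` lies on the walk. -/
theorem Reg.rt_class (h : Reg O k T U) {e e' x : E} {n : ℕ} (he : e ∈ U) (h1 : O ((sp O k)^[n] e) = e') (hu : e' ∈ U)
    (h2 : ∀ m < n, O ((sp O k)^[m] e) ∉ U) (hx : Con O k e x) :
    ∃ m ≤ n, x = (sp O k)^[m] e ∨ x = O ((sp O k)^[m] e) := by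
  have key : (∃ m ≤ n, e = (sp O k)^[m] e ∨ e = O ((sp O k)^[m] e)) ↔
      ∃ m ≤ n, x = (sp O k)^[m] e ∨ x = O ((sp O k)^[m] e) := by
    refine Con.le (ρ := fun x y => (∃ m ≤ n, x = (sp O k)^[m] e ∨ x = O ((sp O k)^[m] e)) ↔
      ∃ m ≤ n, y = (sp O k)^[m] e ∨ y = O ((sp O k)^[m] e))
      ⟨fun _ => Iff.rfl, fun h => h.symm, fun h h' => h.trans h'⟩ ?_ ?_ hx
    · have hf : ∀ x, (∃ m ≤ n, x = (sp O k)^[m] e ∨ x = O ((sp O k)^[m] e)) →
          ∃ m ≤ n, O x = (sp O k)^[m] e ∨ O x = O ((sp O k)^[m] e) := by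
        rintro x ⟨m, hm, rfl | rfl⟩
        · exact ⟨m, hm, Or.inr rfl⟩
        · exact ⟨m, hm, Or.inl (h.hO.inv _)⟩
      intro x
      refine ⟨hf x, fun hx => ?_⟩
      have := hf _ hx
      rwa [h.hO.inv] at this
    · have hf : ∀ x, (∃ m ≤ n, x = (sp O k)^[m] e ∨ x = O ((sp O k)^[m] e)) →
          ∃ m ≤ n, k x = (sp O k)^[m] e ∨ k x = O ((sp O k)^[m] e) := by
        rintro x ⟨m, hm, rfl | rfl⟩
        · rcases m with _ | m
          · exact ⟨0, hm, Or.inl (h.hk.off (h.notT he))⟩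
          · refine ⟨m, by omega, Or.inr ?_⟩
            rw [iterate_succ_apply']
            exact h.hk.inv _
        · rcases hm.lt_or_eq with hm | rfl
          · refine ⟨m + 1, hm, Or.inl ?_⟩
            rw [iterate_succ_apply']
            rfl
          · refine ⟨m, le_rfl, Or.inr ?_⟩
            rw [h1]
            exact h.hk.off (h.notT hu)
      intro x
      refine ⟨hf x, fun hx => ?_⟩
      have := hf _ hx
      rwa [h.hk.inv] at this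
  exact key.1 ⟨0, Nat.zero_le _, Or.inl rfl⟩

theorem Reg.rt_exact (h : Reg O k T U) {e e' x : E} (he : e ∈ U) (hr : Rt O k U e e') (hx : Con O k e x)
    (hxU : x ∈ U) : x = e ∨ x = e' := by
  obtain ⟨n, h1, hu, h2⟩ := hr
  obtain ⟨m, hm, rfl | rfl⟩ := h.rt_class he h1 hu h2 hx
  · rcases m with _ | m
    · exact Or.inl rfl
    · exact absurd hxU (h.notU (h.inner he h2 (by omega)).2)
  · rcases hm.lt_or_eq with hm | rfl
    · exact absurd hxU (h2 m hm)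
    · exact Or.inr h1

/-- The arcs outside of `U`. -/
theorem Reg.arcs [Finite E] (h : Reg O k T U) :
    ∃ A : E → E, Spt U A ∧ (∀ x, Con O k x (A x)) ∧ (∀ x ∈ U, ∀ y ∈ U, Con O k x y → y = x ∨ y = A x) ∧
      ∀ x ∈ U, O x ∈ U → A x = O x ∧ ∀ y, Con O k x y → y = x ∨ y = O x := by
  classical
  choose A hA using fun e : U => h.rt_exists e.2
  have hAU : ∀ e, A e ∈ U := by
    intro e
    obtain ⟨n, h1, hu, h2⟩ := hA e
    exact hu
  refine ⟨fun x => if hx : x ∈ U then A ⟨x, hx⟩ else x, ?_, ?_, ?_, ?_⟩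
  · intro x
    by_cases hx : x ∈ U
    · have h1 := hAU ⟨x, hx⟩
      simp only [hx, h1, dif_pos, not_true_eq_false, iff_false]
      refine ⟨rt_unique (hA ⟨A ⟨x, hx⟩, h1⟩) (h.rt_symm hx (hA ⟨x, hx⟩)), fun h' => ?_⟩
      have h2 := hA ⟨x, hx⟩
      rw [h'] at h2
      exact h.rt_ne hx h2
    · simp [hx]
  · intro x
    by_cases hx : x ∈ U
    · simp only [hx, dif_pos]
      exact rt_con (hA ⟨x, hx⟩)
    · simp only [hx, dif_neg, not_false_eq_true]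
      exact Con.rfl'
  · intro x hx y hy hxy
    simp only [hx, dif_pos]
    exact h.rt_exact hx (hA ⟨x, hx⟩) hxy hy
  · intro x hx hOx
    have h1 : Rt O k U x (O x) := ⟨0, rfl, hOx, fun m hm => absurd hm (Nat.not_lt_zero m)⟩
    refine ⟨?_, ?_⟩
    · simp only [hx, dif_pos]
      exact rt_unique (hA ⟨x, hx⟩) h1
    · intro y hy
      obtain ⟨m, hm, h2⟩ := h.rt_class (n := 0) hx rfl hOx (fun m hm => absurd hm (Nat.not_lt_zero m)) hy
      obtain rfl : m = 0 := by omega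
      exact h2

/-! ### Two regions -/

/-- The property `Sep` for a region `S` in which the outside arcs at the ports of `I` are known: `O x = d x`. -/
def SepF (S : Set E) (K : Set (E → E)) (I : Set E) (d : E → E) : Prop :=
  ∀ O : E → E, Spt S O → (∀ x ∈ I, O x = d x) → ∀ e₁ ∈ S, ∀ e₂ ∈ S, e₁ ∉ I → e₂ ∉ I → e₂ ≠ e₁ → e₂ ≠ O e₁ →
    ∃ k ∈ K, ∀ x ∈ S, Con O k x e₁ ∨ Con O k x e₂

theorem SepF.pick {K : Set (E → E)} {I : Set E} {d : E → E} (h : SepF S K I d) (hO : Spt S O)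
    (hI : ∀ x ∈ I, O x = d x) (p : Fin 3 → E) (hp : Injective p) (hpS : ∀ i, p i ∈ S) (hpI : ∀ i, p i ∉ I) :
    ∃ k ∈ K, ∃ i j : Fin 3, ∀ x ∈ S, Con O k x (p i) ∨ Con O k x (p j) := by
  obtain ⟨i, j, h1, h2⟩ : ∃ i j : Fin 3, p j ≠ p i ∧ p j ≠ O (p i) := by
    by_cases h : p 1 = O (p 0)
    · refine ⟨0, 2, fun h' => absurd (hp h') (by decide), fun h' => ?_⟩
      exact absurd (hp (h'.trans h.symm)) (by decide)
    · exact ⟨0, 1, fun h' => absurd (hp h') (by decide), h⟩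
  obtain ⟨k, hk, h3⟩ := h O hO hI _ (hpS i) _ (hpS j) (hpI i) (hpI j) h1 h2
  exact ⟨k, hk, i, j, h3⟩

variable {S₁ S₂ : Set E} {k₁ k₂ : E → E}

/-- The data of two regions. -/
structure Two (O k₁ k₂ : E → E) (S₁ S₂ : Set E) : Prop where
  hO : Spt (S₁ ∪ S₂) O
  h₁ : Spt S₁ k₁
  h₂ : Spt S₂ k₂
  hd : Disjoint S₁ S₂

theorem Two.comm (h : Two O k₁ k₂ S₁ S₂) : k₁ ∘ k₂ = k₂ ∘ k₁ := by
  funext x
  by_cases hx : x ∈ S₁
  · have h2 : x ∉ S₂ := Set.disjoint_left.1 h.hd hx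
    have h3 : k₁ x ∉ S₂ := Set.disjoint_left.1 h.hd (h.h₁.mem hx)
    simp only [comp_apply, h.h₂.off h2, h.h₂.off h3]
  · have h3 : k₂ x ∉ S₁ := by
      by_cases h4 : x ∈ S₂
      · exact Set.disjoint_right.1 h.hd (h.h₂.mem h4)
      · rwa [h.h₂.off h4]
    simp only [comp_apply, h.h₁.off hx, h.h₁.off h3]

theorem Two.swap (h : Two O k₁ k₂ S₁ S₂) : Two O k₂ k₁ S₂ S₁ :=
  ⟨by rw [Set.union_comm]; exact h.hO, h.h₂, h.h₁, h.hd.symm⟩

theorem Two.reg₁ (h : Two O k₁ k₂ S₁ S₂) : Reg O k₂ S₂ S₁ := ⟨h.swap.hO, h.h₂, h.hd.symm⟩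

theorem Two.reg₂ (h : Two O k₁ k₂ S₁ S₂) : Reg O k₁ S₁ S₂ := h.swap.reg₁

theorem Two.spt (h : Two O k₁ k₂ S₁ S₂) : Spt (S₁ ∪ S₂) (k₁ ∘ k₂) := by
  intro x
  have hc : ∀ y, k₁ (k₂ y) = k₂ (k₁ y) := fun y => congrFun h.comm y
  refine ⟨?_, ?_⟩
  · simp only [comp_apply]
    rw [hc (k₁ (k₂ x)), h.h₁.inv, h.h₂.inv]
  · simp only [comp_apply]
    by_cases h1 : x ∈ S₁
    · have h2 : x ∉ S₂ := Set.disjoint_left.1 h.hd h1
      rw [h.h₂.off h2]
      exact ⟨fun h' => absurd h' (h.h₁.ne h1), fun h' => absurd (Or.inl h1) h'⟩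
    · by_cases h2 : x ∈ S₂
      · rw [hc, h.h₁.off h1]
        exact ⟨fun h' => absurd h' (h.h₂.ne h2), fun h' => absurd (Or.inr h2) h'⟩
      · rw [h.h₂.off h2, h.h₁.off h1]
        exact ⟨fun _ h' => h'.elim h1 h2, fun _ => rfl⟩

theorem Two.con₂ (h : Two O k₁ k₂ S₁ S₂) {x y : E} (hxy : Con O k₂ x y) : Con O (k₁ ∘ k₂) x y := by
  refine Con.le (ρ := Con O (k₁ ∘ k₂)) ⟨fun _ => Con.rfl', fun h => h.symm, fun h h' => h.trans h'⟩ ?_ ?_ hxy
  · intro x; exact con_left _ _ _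
  · intro x
    by_cases h2 : x ∈ S₂
    · have h3 : k₂ x ∉ S₁ := Set.disjoint_right.1 h.hd (h.h₂.mem h2)
      have := con_right O (k₁ ∘ k₂) x
      rwa [comp_apply, h.h₁.off h3] at this
    · rw [h.h₂.off h2]; exact Con.rfl'

theorem Two.con₁ (h : Two O k₁ k₂ S₁ S₂) {x y : E} (hxy : Con O k₁ x y) : Con O (k₁ ∘ k₂) x y := by
  rw [h.comm]; exact h.swap.con₂ hxy

/-- The cut at the first region. -/
theorem Two.cut (h : Two O k₁ k₂ S₁ S₂) {x y : E} (hxy : Con O (k₁ ∘ k₂) x y) :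
    Con O k₂ x y ∨ ((∃ e ∈ S₁, Con O k₂ x e) ∧ ∃ e ∈ S₁, Con O k₂ y e) := by
  refine Con.le (ρ := fun x y => Con O k₂ x y ∨ ((∃ e ∈ S₁, Con O k₂ x e) ∧ ∃ e ∈ S₁, Con O k₂ y e))
    ⟨?_, ?_, ?_⟩ ?_ ?_ hxy
  · intro x; exact Or.inl Con.rfl'
  · rintro x y (h | ⟨h1, h2⟩)
    · exact Or.inl h.symm
    · exact Or.inr ⟨h2, h1⟩
  · rintro x y z (h | ⟨h1, h2⟩) (h' | ⟨h1', h2'⟩)
    · exact Or.inl (h.trans h')
    · obtain ⟨e, he, he'⟩ := h1'
      exact Or.inr ⟨⟨e, he, h.trans he'⟩, h2'⟩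
    · obtain ⟨e, he, he'⟩ := h2
      exact Or.inr ⟨h1, ⟨e, he, h'.symm.trans he'⟩⟩
    · exact Or.inr ⟨h1, h2'⟩
  · intro x; exact Or.inl (con_left _ _ _)
  · intro x
    by_cases h1 : k₂ x ∈ S₁
    · refine Or.inr ⟨⟨k₂ x, h1, con_right _ _ _⟩, ⟨k₁ (k₂ x), h.h₁.mem h1, ?_⟩⟩
      exact Con.rfl'
    · rw [comp_apply, h.h₁.off h1]
      exact Or.inl (con_right _ _ _)

theorem Two.cut_port (h : Two O k₁ k₂ S₁ S₂) {x e : E} (he : e ∈ S₁) (hxy : Con O (k₁ ∘ k₂) x e) :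
    ∃ e' ∈ S₁, Con O k₂ x e' := by
  rcases h.cut hxy with h | ⟨h, _⟩
  · exact ⟨e, he, h⟩
  · exact h

/-- Connections over the arcs outside of the first region. -/
theorem Two.lift (h : Two O k₁ k₂ S₁ S₂) {A : E → E} (hA : ∀ x, Con O k₂ x (A x)) {x y : E}
    (hxy : Con A k₁ x y) : Con O (k₁ ∘ k₂) x y := by
  refine Con.le (ρ := Con O (k₁ ∘ k₂)) ⟨fun _ => Con.rfl', fun h => h.symm, fun h h' => h.trans h'⟩ ?_ ?_ hxy
  · intro x; exact h.con₂ (hA x)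
  · intro x; exact h.con₁ (con_right _ _ _)

theorem Two.lift₂ (h : Two O k₁ k₂ S₁ S₂) {A : E → E} (hA : ∀ x, Con O k₁ x (A x)) {x y : E}
    (hxy : Con A k₂ x y) : Con O (k₁ ∘ k₂) x y := by
  rw [h.comm]; exact h.swap.lift hA hxy

theorem Two.cut_port₂ (h : Two O k₁ k₂ S₁ S₂) {x e : E} (he : e ∈ S₂) (hxy : Con O (k₁ ∘ k₂) x e) :
    ∃ e' ∈ S₂, Con O k₁ x e' := by
  rw [h.comm] at hxy; exact h.swap.cut_port he hxy

/-- The hypotheses of LEMMA UNION: two regions, insides `K₁`, `K₂`, known arcs `I₁`, `I₂` and three direct arcs. -/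
structure Hyp (S₁ S₂ : Set E) (K₁ K₂ : Set (E → E)) (I₁ I₂ : Set E) (d : E → E) (p : Fin 3 → E) : Prop where
  h₁ : SepF S₁ K₁ I₁ d
  h₂ : SepF S₂ K₂ I₂ d
  hK₁ : ∀ k ∈ K₁, Spt S₁ k
  hK₂ : ∀ k ∈ K₂, Spt S₂ k
  hd : Disjoint S₁ S₂
  dd : ∀ x, d (d x) = x
  hI₁ : ∀ x ∈ I₁, x ∈ S₁ ∧ d x ∈ I₁
  hI₂ : ∀ x ∈ I₂, x ∈ S₂ ∧ d x ∈ I₂
  hp : Injective p
  hp₁ : ∀ i, p i ∈ S₁
  hp₂ : ∀ i, d (p i) ∈ S₂

variable {K₁ K₂ : Set (E → E)} {I₁ I₂ : Set E} {d : E → E} {p : Fin 3 → E}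

/-- The arcs used inside of the union. -/
def used (I₁ I₂ : Set E) (d : E → E) (p : Fin 3 → E) : Set E := I₁ ∪ I₂ ∪ (Set.range p ∪ Set.range fun i => d (p i))

theorem used_p (i : Fin 3) : p i ∈ used I₁ I₂ d p := Or.inr (Or.inl ⟨i, rfl⟩)

theorem used_dp (i : Fin 3) : d (p i) ∈ used I₁ I₂ d p := Or.inr (Or.inr ⟨i, rfl⟩)

theorem Hyp.two_of (H : Hyp S₁ S₂ K₁ K₂ I₁ I₂ d p) (hO : Spt (S₁ ∪ S₂) O) (h1 : k₁ ∈ K₁) (h2 : k₂ ∈ K₂) :
    Two O k₁ k₂ S₁ S₂ := ⟨hO, H.hK₁ _ h1, H.hK₂ _ h2, H.hd⟩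

theorem Hyp.arcs₁ [Finite E] (H : Hyp S₁ S₂ K₁ K₂ I₁ I₂ d p) (hO : Spt (S₁ ∪ S₂) O)
    (hI : ∀ x ∈ used I₁ I₂ d p, O x = d x) (h2 : k₂ ∈ K₂) :
    ∃ A : E → E, Spt S₁ A ∧ (∀ x, Con O k₂ x (A x)) ∧ (∀ x ∈ S₁, ∀ y ∈ S₁, Con O k₂ x y → y = x ∨ y = A x) ∧
      (∀ x ∈ I₁, A x = d x) ∧ ∀ x ∈ I₁, ∀ y, Con O k₂ x y → y ∈ I₁ := by
  have R : Reg O k₂ S₂ S₁ := ⟨by rw [Set.union_comm]; exact hO, H.hK₂ _ h2, H.hd.symm⟩
  obtain ⟨A, hA, hA1, hA2, hA3⟩ := R.arcs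
  have key : ∀ x ∈ I₁, O x = d x := fun x hx => hI x (Or.inl (Or.inl hx))
  have key2 : ∀ x ∈ I₁, O x ∈ S₁ := fun x hx => by rw [key x hx]; exact (H.hI₁ _ (H.hI₁ x hx).2).1
  refine ⟨A, hA, hA1, hA2, fun x hx => ?_, fun x hx y hy => ?_⟩
  · rw [(hA3 x (H.hI₁ x hx).1 (key2 x hx)).1, key x hx]
  · rcases (hA3 x (H.hI₁ x hx).1 (key2 x hx)).2 y hy with rfl | rfl
    · exact hx
    · rw [key x hx]; exact (H.hI₁ x hx).2

theorem Hyp.arcs₂ [Finite E] (H : Hyp S₁ S₂ K₁ K₂ I₁ I₂ d p) (hO : Spt (S₁ ∪ S₂) O)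
    (hI : ∀ x ∈ used I₁ I₂ d p, O x = d x) (h1 : k₁ ∈ K₁) :
    ∃ A : E → E, Spt S₂ A ∧ (∀ x, Con O k₁ x (A x)) ∧ (∀ x ∈ S₂, ∀ y ∈ S₂, Con O k₁ x y → y = x ∨ y = A x) ∧
      (∀ x ∈ I₂, A x = d x) ∧ ∀ x ∈ I₂, ∀ y, Con O k₁ x y → y ∈ I₂ := by
  have R : Reg O k₁ S₁ S₂ := ⟨hO, H.hK₁ _ h1, H.hd⟩
  obtain ⟨A, hA, hA1, hA2, hA3⟩ := R.arcs
  have key : ∀ x ∈ I₂, O x = d x := fun x hx => hI x (Or.inl (Or.inr hx))
  have key2 : ∀ x ∈ I₂, O x ∈ S₂ := fun x hx => by rw [key x hx]; exact (H.hI₂ _ (H.hI₂ x hx).2).1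
  refine ⟨A, hA, hA1, hA2, fun x hx => ?_, fun x hx y hy => ?_⟩
  · rw [(hA3 x (H.hI₂ x hx).1 (key2 x hx)).1, key x hx]
  · rcases (hA3 x (H.hI₂ x hx).1 (key2 x hx)).2 y hy with rfl | rfl
    · exact hx
    · rw [key x hx]; exact (H.hI₂ x hx).2

theorem Hyp.p_notI₁ (H : Hyp S₁ S₂ K₁ K₂ I₁ I₂ d p) (i : Fin 3) : p i ∉ I₁ := fun h =>
  Set.disjoint_left.1 H.hd (H.hI₁ _ (H.hI₁ _ h).2).1 (H.hp₂ i)

theorem Hyp.dp_notI₂ (H : Hyp S₁ S₂ K₁ K₂ I₁ I₂ d p) (i : Fin 3) : d (p i) ∉ I₂ := fun h => by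
  have h1 := (H.hI₂ _ (H.hI₂ _ h).2).1
  rw [H.dd] at h1
  exact Set.disjoint_left.1 H.hd (H.hp₁ i) h1

/-- Two picks: at most two cycles, through joining arcs. -/
theorem Hyp.two [Finite E] (H : Hyp S₁ S₂ K₁ K₂ I₁ I₂ d p) (hne : K₂.Nonempty) (hO : Spt (S₁ ∪ S₂) O)
    (hI : ∀ x ∈ used I₁ I₂ d p, O x = d x) :
    ∃ k₁ ∈ K₁, ∃ k₂ ∈ K₂, ∃ i j : Fin 3, ∀ x ∈ S₁ ∪ S₂,
      Con O (k₁ ∘ k₂) x (p i) ∨ Con O (k₁ ∘ k₂) x (p j) := by
  obtain ⟨k₀, hk₀⟩ := hne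
  obtain ⟨A, hA, hA1, hA2, hA3, -⟩ := H.arcs₁ hO hI hk₀
  obtain ⟨k₁, hk₁, i, j, h3⟩ := H.h₁.pick hA hA3 p H.hp H.hp₁ H.p_notI₁
  obtain ⟨B, hB, hB1, hB2, hB3, -⟩ := H.arcs₂ hO hI hk₁
  obtain ⟨k₂, hk₂, i', j', h4⟩ := H.h₂.pick hB hB3 (fun i => d (p i))
    (fun x y hxy => H.hp (by have := congrArg d hxy; simpa only [H.dd] using this)) H.hp₂ H.dp_notI₂
  have T0 := H.two_of hO hk₁ hk₀
  have T := H.two_of hO hk₁ hk₂
  have hOp : ∀ i, O (p i) = d (p i) := fun i => hI _ (used_p i)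
  have c2 : ∀ x ∈ S₂, Con O (k₁ ∘ k₂) x (p i') ∨ Con O (k₁ ∘ k₂) x (p j') := by
    intro x hx
    rcases h4 x hx with h | h
    · refine Or.inl ((T.lift₂ hB1 h).trans ?_)
      rw [← hOp]; exact (con_left _ _ _).symm
    · refine Or.inr ((T.lift₂ hB1 h).trans ?_)
      rw [← hOp]; exact (con_left _ _ _).symm
  refine ⟨k₁, hk₁, k₂, hk₂, i', j', ?_⟩
  rintro x (hx | hx)
  · obtain ⟨l, hl⟩ : ∃ l, Con O (k₁ ∘ k₀) x (p l) := by
      rcases h3 x hx with h | h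
      · exact ⟨_, T0.lift hA1 h⟩
      · exact ⟨_, T0.lift hA1 h⟩
    have h5 : Con O (k₁ ∘ k₀) x (d (p l)) := by
      rw [← hOp]; exact hl.trans (con_left _ _ _)
    obtain ⟨e, he, h6⟩ := T0.cut_port₂ (H.hp₂ l) h5
    have h7 := T.con₁ h6
    rcases c2 e he with h | h
    · exact Or.inl (h7.trans h)
    · exact Or.inr (h7.trans h)
  · exact c2 x hx

/-- LEMMA UNION. -/
theorem Hyp.union [Finite E] (H : Hyp S₁ S₂ K₁ K₂ I₁ I₂ d p) (hne : K₂.Nonempty) :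
    SepF (S₁ ∪ S₂) {k | ∃ k₁ ∈ K₁, ∃ k₂ ∈ K₂, k = k₁ ∘ k₂} (used I₁ I₂ d p) d := by
  classical
  intro O hO hI e₁ he₁ e₂ he₂ hn₁ hn₂ hne1 hne2
  obtain ⟨k₁, hk₁, k₂, hk₂, i, j, hall⟩ := H.two hne hO hI
  have T := H.two_of hO hk₁ hk₂
  have hOp : ∀ i, O (p i) = d (p i) := fun i => hI _ (used_p i)
  by_cases hcc : Con O (k₁ ∘ k₂) e₁ e₂
  swap
  · -- two components
    refine ⟨_, ⟨k₁, hk₁, k₂, hk₂, rfl⟩, fun x hx => ?_⟩
    rcases hall e₁ he₁ with h1 | h1 <;> rcases hall e₂ he₂ with h2 | h2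
    · exact absurd (h1.trans h2.symm) hcc
    · rcases hall x hx with h3 | h3
      · exact Or.inl (h3.trans h1.symm)
      · exact Or.inr (h3.trans h2.symm)
    · rcases hall x hx with h3 | h3
      · exact Or.inr (h3.trans h2.symm)
      · exact Or.inl (h3.trans h1.symm)
    · exact absurd (h1.trans h2.symm) hcc
  obtain ⟨A, hA, hA1, hA2, hA3, hA4⟩ := H.arcs₁ hO hI hk₂
  obtain ⟨B, hB, hB1, hB2, hB3, hB4⟩ := H.arcs₂ hO hI hk₁
  -- every port is connected outside of `S₁` with `S₁`, outside of `S₂` with `S₂`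
  have to1 : ∀ x ∈ S₁ ∪ S₂, ∃ a ∈ S₁, Con O k₂ x a := by
    intro x hx
    rcases hall x hx with h | h
    · exact T.cut_port (H.hp₁ _) h
    · exact T.cut_port (H.hp₁ _) h
  have to2 : ∀ x ∈ S₁ ∪ S₂, ∃ a ∈ S₂, Con O k₁ x a := by
    intro x hx
    have hq : ∀ l, Con O (k₁ ∘ k₂) x (p l) → ∃ a ∈ S₂, Con O k₁ x a := by
      intro l hl
      refine T.cut_port₂ (H.hp₂ l) (hl.trans ?_)
      rw [← hOp]; exact con_left _ _ _
    rcases hall x hx with h | h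
    · exact hq _ h
    · exact hq _ h
  have notI : ∀ e ∉ used I₁ I₂ d p, ∀ a, Con O k₂ e a → a ∉ I₁ := fun e he a hea ha =>
    he (Or.inl (Or.inl (hA4 a ha e hea.symm)))
  have notI' : ∀ e ∉ used I₁ I₂ d p, ∀ a, Con O k₁ e a → a ∉ I₂ := fun e he a hea ha =>
    he (Or.inl (Or.inr (hB4 a ha e hea.symm)))
  obtain ⟨a, ha, hea⟩ := to1 e₁ he₁
  obtain ⟨b, hb, heb⟩ := to1 e₂ he₂
  obtain ⟨a', ha', hea'⟩ := to2 e₁ he₁
  obtain ⟨b', hb', heb'⟩ := to2 e₂ he₂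
  by_cases hs1 : Con O k₂ a b
  swap
  · -- different arcs outside of `S₁`
    obtain ⟨k, hk, h3⟩ := H.h₁ A hA hA3 a ha b hb (notI e₁ hn₁ a hea) (notI e₂ hn₂ b heb)
      (fun h => hs1 (h ▸ Con.rfl')) (fun h => hs1 (h ▸ hA1 a))
    have T' := H.two_of hO hk hk₂
    have c1 : ∀ x ∈ S₁, Con O (k ∘ k₂) x e₁ ∨ Con O (k ∘ k₂) x e₂ := by
      intro x hx
      rcases h3 x hx with h | h
      · exact Or.inl ((T'.lift hA1 h).trans (T'.con₂ hea.symm))
      · exact Or.inr ((T'.lift hA1 h).trans (T'.con₂ heb.symm))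
    refine ⟨_, ⟨k, hk, k₂, hk₂, rfl⟩, fun x hx => ?_⟩
    obtain ⟨c, hc, hxc⟩ := to1 x hx
    have h5 := T'.con₂ hxc
    rcases c1 c hc with h | h
    · exact Or.inl (h5.trans h)
    · exact Or.inr (h5.trans h)
  by_cases hs2 : Con O k₁ a' b'
  swap
  · -- different arcs outside of `S₂`
    obtain ⟨k, hk, h3⟩ := H.h₂ B hB hB3 a' ha' b' hb' (notI' e₁ hn₁ a' hea') (notI' e₂ hn₂ b' heb')
      (fun h => hs2 (h ▸ Con.rfl')) (fun h => hs2 (h ▸ hB1 a'))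
    have T' := H.two_of hO hk₁ hk
    have c1 : ∀ x ∈ S₂, Con O (k₁ ∘ k) x e₁ ∨ Con O (k₁ ∘ k) x e₂ := by
      intro x hx
      rcases h3 x hx with h | h
      · exact Or.inl ((T'.lift₂ hB1 h).trans (T'.con₁ hea'.symm))
      · exact Or.inr ((T'.lift₂ hB1 h).trans (T'.con₁ heb'.symm))
    refine ⟨_, ⟨k₁, hk₁, k, hk, rfl⟩, fun x hx => ?_⟩
    obtain ⟨c, hc, hxc⟩ := to2 x hx
    have h5 := T'.con₁ hxc
    rcases c1 c hc with h | h
    · exact Or.inl (h5.trans h)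
    · exact Or.inr (h5.trans h)
  -- the same arc twice: contradiction
  exfalso
  have q2 : Con O k₂ e₁ e₂ := hea.trans (hs1.trans heb.symm)
  have q1 : Con O k₁ e₁ e₂ := hea'.trans (hs2.trans heb'.symm)
  let F : Finset E := {e₁, O e₁, e₂, O e₂}
  let G : Finset E := {a, A a, a', B a'}
  have hFk2 : ∀ x ∈ F, Con O k₂ e₁ x := by
    intro x hx
    simp only [F, Finset.mem_insert, Finset.mem_singleton] at hx
    rcases hx with rfl | rfl | rfl | rfl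
    · exact Con.rfl'
    · exact con_left _ _ _
    · exact q2
    · exact q2.trans (con_left _ _ _)
  have hFk1 : ∀ x ∈ F, Con O k₁ e₁ x := by
    intro x hx
    simp only [F, Finset.mem_insert, Finset.mem_singleton] at hx
    rcases hx with rfl | rfl | rfl | rfl
    · exact Con.rfl'
    · exact con_left _ _ _
    · exact q1
    · exact q1.trans (con_left _ _ _)
  have hFS : ∀ x ∈ F, x ∈ S₁ ∪ S₂ := by
    intro x hx
    simp only [F, Finset.mem_insert, Finset.mem_singleton] at hx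
    rcases hx with rfl | rfl | rfl | rfl
    · exact he₁
    · exact hO.mem he₁
    · exact he₂
    · exact hO.mem he₂
  have hG1 : ∀ x ∈ S₁, Con O k₂ e₁ x → x ∈ G := by
    intro x hx hc
    simp only [G, Finset.mem_insert, Finset.mem_singleton]
    rcases hA2 a ha x hx (hea.symm.trans hc) with h | h
    · exact Or.inl h
    · exact Or.inr (Or.inl h)
  have hG2 : ∀ x ∈ S₂, Con O k₁ e₁ x → x ∈ G := by
    intro x hx hc
    simp only [G, Finset.mem_insert, Finset.mem_singleton]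
    rcases hB2 a' ha' x hx (hea'.symm.trans hc) with h | h
    · exact Or.inr (Or.inr (Or.inl h))
    · exact Or.inr (Or.inr (Or.inr h))
  have hFG : F ⊆ G := by
    intro x hx
    rcases hFS x hx with h | h
    · exact hG1 x h (hFk2 x hx)
    · exact hG2 x h (hFk1 x hx)
  have hcard : G.card ≤ F.card := by
    have h4 : G.card ≤ 4 := Finset.card_le_four
    have h5 : F.card = 4 := by
      have n1 : e₁ ≠ O e₁ := (hO.ne he₁).symm
      have n2 : e₁ ≠ O e₂ := fun h => hne2 (by rw [h, hO.inv])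
      have n3 : O e₁ ≠ e₂ := fun h => hne2 h.symm
      have n4 : O e₁ ≠ O e₂ := fun h => hne1 (by have := congrArg O h; rw [hO.inv, hO.inv] at this; exact this.symm)
      have n5 : e₂ ≠ O e₂ := (hO.ne he₂).symm
      have n6 : e₁ ≠ e₂ := fun h => hne1 h.symm
      rw [Finset.card_eq_succ]
      refine ⟨e₁, {O e₁, e₂, O e₂}, by simp [n1, n2, n6], rfl, ?_⟩
      rw [Finset.card_eq_succ]
      refine ⟨O e₁, {e₂, O e₂}, by simp [n3, n4], rfl, ?_⟩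
      rw [Finset.card_eq_succ]
      exact ⟨e₂, {O e₂}, by simp [n5], rfl, Finset.card_singleton _⟩
    omega
  have hFG' : F = G := Finset.eq_of_subset_of_card_le hFG hcard
  -- the component of `e₁`
  have hW : ∀ x, Con O (k₁ ∘ k₂) e₁ x → Con O k₂ e₁ x ∨ Con O k₁ e₁ x := by
    intro x hx
    have hf2 : ∀ x, (Con O k₂ e₁ x ∨ Con O k₁ e₁ x) → (Con O k₂ e₁ (k₂ x) ∨ Con O k₁ e₁ (k₂ x)) := by
      rintro x (h | h)
      · exact Or.inl (h.trans (con_right _ _ _))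
      · by_cases h2 : x ∈ S₂
        · have h3 := hG2 x h2 h
          rw [← hFG'] at h3
          exact Or.inl ((hFk2 x h3).trans (con_right _ _ _))
        · rw [T.h₂.off h2]; exact Or.inr h
    have hf1 : ∀ x, (Con O k₂ e₁ x ∨ Con O k₁ e₁ x) → (Con O k₂ e₁ (k₁ x) ∨ Con O k₁ e₁ (k₁ x)) := by
      rintro x (h | h)
      · by_cases h2 : x ∈ S₁
        · have h3 := hG1 x h2 h
          rw [← hFG'] at h3
          exact Or.inr ((hFk1 x h3).trans (con_right _ _ _))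
        · rw [T.h₁.off h2]; exact Or.inl h
      · exact Or.inr (h.trans (con_right _ _ _))
    have hfO : ∀ x, (Con O k₂ e₁ x ∨ Con O k₁ e₁ x) → (Con O k₂ e₁ (O x) ∨ Con O k₁ e₁ (O x)) := by
      rintro x (h | h)
      · exact Or.inl (h.trans (con_left _ _ _))
      · exact Or.inr (h.trans (con_left _ _ _))
    refine (Con.le (ρ := fun x y => (Con O k₂ e₁ x ∨ Con O k₁ e₁ x) ↔ (Con O k₂ e₁ y ∨ Con O k₁ e₁ y))
      ⟨fun _ => Iff.rfl, fun h => h.symm, fun h h' => h.trans h'⟩ ?_ ?_ hx).1 (Or.inl Con.rfl')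
    · intro x
      refine ⟨hfO x, fun h => ?_⟩
      have := hfO _ h
      rwa [hO.inv] at this
    · intro x
      refine ⟨fun h => hf1 _ (hf2 _ h), fun h => ?_⟩
      have h1 := hf2 _ (hf1 _ h)
      simp only [comp_apply] at h1
      rwa [T.h₁.inv, T.h₂.inv] at h1
  -- a joining arc on it
  have hpF : ∀ l, Con O (k₁ ∘ k₂) e₁ (p l) → p l ∈ F ∨ d (p l) ∈ F := by
    intro l hl
    rcases hW _ hl with h | h
    · left; rw [hFG']; exact hG1 _ (H.hp₁ l) h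
    · right; rw [hFG']
      refine hG2 _ (H.hp₂ l) ?_
      rw [← hOp]; exact h.trans (con_left _ _ _)
  have hFe : ∀ x ∈ F, x ∈ used I₁ I₂ d p → O x ∈ used I₁ I₂ d p → False := by
    intro x hx h1 h2
    simp only [F, Finset.mem_insert, Finset.mem_singleton] at hx
    rcases hx with rfl | rfl | rfl | rfl
    · exact hn₁ h1
    · rw [hO.inv] at h2; exact hn₁ h2
    · exact hn₂ h1
    · rw [hO.inv] at h2; exact hn₂ h2
  have hpn : ∀ l, ¬ Con O (k₁ ∘ k₂) e₁ (p l) := by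
    intro l hl
    rcases hpF l hl with h | h
    · exact hFe _ h (used_p l) (by rw [hOp]; exact used_dp l)
    · refine hFe _ h (used_dp l) ?_
      rw [← hOp, hO.inv]; exact used_p l
  rcases hall e₁ he₁ with h | h
  · exact hpn _ h
  · exact hpn _ h

/-- `used` is closed under `d`. -/
theorem Hyp.used_closed (H : Hyp S₁ S₂ K₁ K₂ I₁ I₂ d p) :
    ∀ x ∈ used I₁ I₂ d p, x ∈ S₁ ∪ S₂ ∧ d x ∈ used I₁ I₂ d p := by
  rintro x ((hx | hx) | (⟨i, rfl⟩ | ⟨i, rfl⟩))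
  · exact ⟨Or.inl (H.hI₁ x hx).1, Or.inl (Or.inl (H.hI₁ x hx).2)⟩
  · exact ⟨Or.inr (H.hI₂ x hx).1, Or.inl (Or.inr (H.hI₂ x hx).2)⟩
  · exact ⟨Or.inl (H.hp₁ i), used_dp i⟩
  · refine ⟨Or.inr (H.hp₂ i), ?_⟩
    show d (d (p i)) ∈ _
    rw [H.dd]; exact used_p i

end flat

end Pool.Agent.Lib.MP_688fd0_co.SQ5.H12
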