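import Pool.Agent.Lib.MP_688fd0_co.SQ5.H12.StripD
import Pool.Agent.Lib.MP_688fd0_co.SQ5.H76.RunB
import Pool.Agent.Lib.MP_688fd0_co.SQ5.FT.Zone

/-!
FT, row VPLANE (helper12): the local model of a visit (`Str`, `Vis`) inside helper76's chart of one run.

`str`: the model whose level 0 is the block `n1` of the chart; `kk` the wide strip. `phi`: the strands of the model are strands of the
chart; `Z_lo`, `Z_up`, `Z_y`: their vertices. `cc`, `rho`, `alg`: the cut strand, the position of the cut, aligned levels; `mkZone`: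
helper62's `FT.Zone` with all the fields of the cut; `zone_conc`: the two ends of a good visit are joined inside the zone to two
different ends of strands, and every vertex of the zone is joined inside the zone to an end of a strand. `mkZoneP`, `zone_concP`: the
same for the chart `res` of the strands with a property `P`, for instance the strands of one coset (`cc_mem1`, `Z_mem1`).
-/

set_option autoImplicit false

namespace Pool.Agent.Lib.MP_688fd0_co.SQ5.H12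

open Equiv Pool.Agent.Lib.MP_688fd0_co.OSF Pool.Agent.Lib.MP_688fd0_co.SQ5.H76

universe u v

/-! ### Transport of the hand permutation -/

theorem gp_map {S S' : Type*} [DecidableEq S] [DecidableEq S'] {φ : S → S'} (hφ : Function.Injective φ) (c : ℕ → S) (m : ℕ)
    (o : Option S) : gp (fun l => φ (c l)) m (o.map φ) = (gp c m o).map φ := by
  induction m with
  | zero => rfl
  | succ m ih =>
    show swap none (some (φ (c m))) (gp (fun l => φ (c l)) m (o.map φ)) = (swap none (some (c m)) (gp c m o)).map φ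
    rw [ih]
    generalize gp c m o = p
    cases p with
    | none => simp
    | some s =>
      by_cases h : s = c m
      · subst h; simp
      · have h1 : (some (φ s) : Option S') ≠ some (φ (c m)) := fun h' => h (hφ (Option.some.inj h'))
        have h2 : (some s : Option S) ≠ some (c m) := fun h' => h (Option.some.inj h')
        rw [Option.map_some, swap_apply_of_ne_of_ne (by simp) h1, swap_apply_of_ne_of_ne (by simp) h2, Option.map_some]

/-! ### Words of a line -/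

section words

variable {Q : Type*} [Group Q] {q : L3 → Q}

theorem lw_even (hq : ∀ i, q i * q i = 1) (b : Bool) (j : ℕ) :
    Bd.lw q b (2 * j) = if b = true then (q .a * q .b) ^ (-(j : ℤ)) else (q .a * q .b) ^ (j : ℤ) := by
  have hinv : ∀ i, (q i)⁻¹ = q i := fun i => inv_eq_of_mul_eq_one_right (hq i)
  induction j with
  | zero => simp
  | succ j ih =>
    have e : 2 * (j + 1) = 2 * j + 1 + 1 := by ring
    have h1 : ll b (2 * j) = ow b := by unfold ll; rw [if_pos (by omega)]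
    have h2 : ll b (2 * j + 1) = wl b := by unfold ll; rw [if_neg (by omega)]
    rw [e, Bd.lw_succ, Bd.lw_succ, ih, h1, h2]
    cases b
    · simp only [Bool.false_eq_true, if_false, ow, wl]
      have : ((j + 1 : ℕ) : ℤ) = (j : ℤ) + 1 := by push_cast; ring
      rw [this, zpow_add_one, mul_assoc]
    · simp only [if_true, ow, wl]
      have : -((j + 1 : ℕ) : ℤ) = -(j : ℤ) - 1 := by push_cast; ring
      rw [this, zpow_sub_one, mul_inv_rev, hinv, hinv, mul_assoc]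

theorem lw_full (hq : ∀ i, q i * q i = 1) (b : Bool) (h : ℕ) (hh : 1 ≤ h) :
    Bd.lw q b (2 * h - 1) = if b = true then (q .a * q .b) ^ (-(h : ℤ)) * q .a else (q .a * q .b) ^ ((h : ℤ) - 1) * q .a := by
  obtain ⟨j, rfl⟩ : ∃ j, h = j + 1 := ⟨h - 1, by omega⟩
  have e : 2 * (j + 1) - 1 = 2 * j + 1 := by omega
  have h1 : ll b (2 * j) = ow b := by unfold ll; rw [if_pos (by omega)]
  rw [e, Bd.lw_succ, lw_even hq, h1]
  have hinv : ∀ i, (q i)⁻¹ = q i := fun i => inv_eq_of_mul_eq_one_right (hq i)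
  cases b
  · simp only [Bool.false_eq_true, if_false, ow]
    have : ((j + 1 : ℕ) : ℤ) - 1 = (j : ℤ) := by push_cast; ring
    rw [this]
  · simp only [if_true, ow]
    have : -((j + 1 : ℕ) : ℤ) = -(j : ℤ) - 1 := by push_cast; ring
    rw [this, zpow_sub_one, mul_inv_rev, hinv, hinv, mul_assoc, mul_assoc, hq, mul_one]

end words

section plane

variable {Q : Type u} [Group Q] {B : Lb.{u, v} Q} {l : L3 → B.L} {L : AddSubgroup (ℤ × ℤ)} (c : Cov B l L)
  (hi : ∀ i, B.inv (l i) = l i) (D : Bd)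

/-- `D` is the bundle of one run with phase `ph` at level `s0`. -/
structure RunD (s0 ph : ℤ) : Prop where
  hb : ∀ s, D.b s = bw (ph + (s - s0))
  hc : ∀ s, D.cs s = col (ph + (s - s0))

/-- The bundles of the main group. -/
theorem runD_bd {M R : ℕ} {dc : ℕ → ℤ} {spc : ℕ → Prop} {G : ℤ} {g : Geo L M R dc spc G} {m0 : ℕ} {hw : ℤ → ℕ}
    (H : Geo.Mn g m0 hw) (z : ℤ) : RunD (H.bd z) (g.rs z) (g.rp z) := ⟨fun _ => rfl, fun _ => rfl⟩

/-- The local model at the block `n1`. -/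
noncomputable def str (s0 ph kk : ℤ) (n1 : ℕ) : Str Q where
  q := qq B l
  qq := q_sq hi
  Ov := c.Over
  hO _ _ i h := h.step i
  p0 := ph + n1
  I0 := (s0 + n1 + D.I.C kk (s0 + n1)) / 2
  J0 := (s0 + n1 - D.I.C kk (s0 + n1)) / 2
  mm := D.hw (kk - 1)
  m := D.hw kk
  mp := D.hw (kk + 1)

variable {c hi D} {s0 ph kk : ℤ} {n1 : ℕ}

theorem str_W (H : RunD D s0 ph) (n : ℕ) : (str c hi D s0 ph kk n1).W n = D.b (s0 + n1 + n) := by
  rw [H.hb]
  show bw (ph + n1 + n) = _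
  congr 1
  ring

theorem str_IJ (H : RunD D s0 ph) (n : ℕ) :
    (str c hi D s0 ph kk n1).I n + (str c hi D s0 ph kk n1).J n = s0 + n1 + n ∧
      (str c hi D s0 ph kk n1).I n - (str c hi D s0 ph kk n1).J n = D.I.C kk (s0 + n1 + n) := by
  induction n with
  | zero =>
    have h := D.I.par kk (s0 + n1)
    show (s0 + n1 + D.I.C kk (s0 + n1)) / 2 + (s0 + n1 - D.I.C kk (s0 + n1)) / 2 = s0 + n1 + ((0 : ℕ) : ℤ) ∧
      (s0 + n1 + D.I.C kk (s0 + n1)) / 2 - (s0 + n1 - D.I.C kk (s0 + n1)) / 2 = D.I.C kk (s0 + n1 + ((0 : ℕ) : ℤ))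
    rw [Nat.cast_zero, add_zero]
    constructor <;> omega
  | succ n ih =>
    obtain ⟨h1, h2⟩ := ih
    have e : s0 + n1 + ((n + 1 : ℕ) : ℤ) = s0 + n1 + n + 1 := by push_cast; ring
    have hW := str_W (c := c) (hi := hi) (kk := kk) (n1 := n1) H n
    show (str c hi D s0 ph kk n1).I n + (if (str c hi D s0 ph kk n1).W n = true then 1 else 0) +
      ((str c hi D s0 ph kk n1).J n + if (str c hi D s0 ph kk n1).W n = true then 0 else 1) = _ ∧
      (str c hi D s0 ph kk n1).I n + (if (str c hi D s0 ph kk n1).W n = true then 1 else 0) -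
      ((str c hi D s0 ph kk n1).J n + if (str c hi D s0 ph kk n1).W n = true then 0 else 1) = _
    rw [e, D.I.hC, D.hb, hW]
    split_ifs <;> constructor <;> linarith

theorem str_wh (H : RunD D s0 ph) (n : ℕ) (e : ℤ) :
    (str c hi D s0 ph kk n1).wh n e = Pat.lv (s0 + n1 + n) (D.I.C kk (s0 + n1 + n) + 2 * e) := by
  obtain ⟨h1, h2⟩ := str_IJ (c := c) (hi := hi) (kk := kk) (n1 := n1) H n
  have h := D.I.par kk (s0 + n1 + n)
  rw [Pat.lv_even (by omega)]
  show (true, (str c hi D s0 ph kk n1).I n + e, (str c hi D s0 ph kk n1).J n - e) = _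
  refine Prod.ext rfl (Prod.ext ?_ ?_) <;> simp only <;> omega

/-- The label of the strand `τ`. -/
def kap (kk : ℤ) (τ : Bool) : ℤ := if τ = true then kk + 1 else kk + 2

theorem colA (x : ℤ) : col x + (if bw x = true then 1 else 0) = if isA x = true then 1 else 2 := by
  have h : x % 8 = 0 ∨ x % 8 = 1 ∨ x % 8 = 2 ∨ x % 8 = 3 ∨ x % 8 = 4 ∨ x % 8 = 5 ∨ x % 8 = 6 ∨ x % 8 = 7 := by omega
  unfold col bw isA
  rcases h with h | h | h | h | h | h | h | h <;> rw [h] <;> simp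

theorem sp_kap (H : RunD D s0 ph) (τ : Bool) (n : ℕ) : D.sp (kap kk τ) (s0 + n1 + n) =
    if τ = true then (if isA (ph + n1 + n) = true then kk else kk - 1) else (if isA (ph + n1 + n) = true then kk + 1 else kk) := by
  have e : ph + (s0 + n1 + n - s0) = ph + n1 + n := by ring
  have h := colA (ph + n1 + n)
  unfold Bd.sp kap
  rw [H.hb, H.hc, e]
  generalize bw (ph + n1 + n) = b1 at h ⊢
  generalize col (ph + n1 + n) = c1 at h ⊢
  generalize isA (ph + n1 + n) = a1 at h ⊢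
  cases τ <;> cases a1 <;> cases b1 <;> simp only [Bool.false_eq_true, if_true, if_false] at h ⊢ <;> omega

theorem C_nb (s : ℤ) : D.I.C (kk + 1) s = D.I.C kk s + 2 * D.hw kk ∧ D.I.C (kk - 1) s = D.I.C kk s - 2 * D.hw (kk - 1) ∧
    D.I.C (kk + 2) s = D.I.C kk s + 2 * D.hw kk + 2 * D.hw (kk + 1) := by
  have h1 := D.hC kk s
  have h2 := D.hC (kk - 1) s
  have h3 := D.hC (kk + 1) s
  rw [sub_add_cancel] at h2
  have e : kk + 1 + 1 = kk + 2 := by ring
  rw [e] at h3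
  refine ⟨h1, ?_, ?_⟩ <;> linarith

theorem st_zero (H : RunD D s0 ph) (τ : Bool) (n : ℕ) : D.st (kap kk τ) (s0 + n1 + n) 0 =
    (str c hi D s0 ph kk n1).wh n ((str c hi D s0 ph kk n1).ep τ n) := by
  rw [str_wh H]
  unfold Bd.st Pat.si Pat.sc Str.ep
  rw [sp_kap H, str_W H, D.hb]
  obtain ⟨h1, h2, h3⟩ := C_nb (D := D) (kk := kk) (s0 + n1 + n)
  have e0 : kk - 1 + 1 = kk := by ring
  have e1 : kk + 1 + 1 = kk + 2 := by ring
  congr 1
  unfold Str.eL Str.eR
  show _ = D.I.C kk (s0 + n1 + n) + 2 * (if D.b (s0 + n1 + n) = true then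
    (if τ = true then (if isA (ph + n1 + n) = true then (D.hw kk : ℤ) else 0) else
      (if isA (ph + n1 + n) = true then (D.hw kk : ℤ) + (D.hw (kk + 1) : ℤ) else (D.hw kk : ℤ))) else
    (if τ = true then (if isA (ph + n1 + n) = true then 0 else -(D.hw (kk - 1) : ℤ)) else
      (if isA (ph + n1 + n) = true then (D.hw kk : ℤ) else 0)))
  cases D.b (s0 + n1 + n) <;> cases τ <;> cases isA (ph + n1 + n) <;>
    simp only [Bool.false_eq_true, if_true, if_false, e0, e1, h1, h2, h3] <;> push_cast <;> ring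

theorem ln_kap (H : RunD D s0 ph) (τ : Bool) (n : ℕ) : ∃ h : ℕ, 1 ≤ h ∧ D.ln (kap kk τ) (s0 + n1 + n) = 2 * h - 1 ∧
    (h : ℤ) = (str c hi D s0 ph kk n1).eR τ n - (str c hi D s0 ph kk n1).eL τ n := by
  refine ⟨D.hw (D.sp (kap kk τ) (s0 + n1 + n)), D.hpos _, rfl, ?_⟩
  rw [sp_kap H]
  unfold Str.eL Str.eR
  show _ = (if τ = true then (if isA (ph + n1 + n) = true then (D.hw kk : ℤ) else 0) else
      (if isA (ph + n1 + n) = true then (D.hw kk : ℤ) + (D.hw (kk + 1) : ℤ) else (D.hw kk : ℤ))) -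
    (if τ = true then (if isA (ph + n1 + n) = true then 0 else -(D.hw (kk - 1) : ℤ)) else
      (if isA (ph + n1 + n) = true then (D.hw kk : ℤ) else 0))
  cases τ <;> cases isA (ph + n1 + n) <;> simp

/-! ### The strands -/

variable {κ0 κ1 : ℤ}

theorem kap_le (h0 : κ0 ≤ kk + 1) (h1 : kk + 2 ≤ κ1) (τ : Bool) : κ0 ≤ kap kk τ ∧ kap kk τ ≤ κ1 := by
  unfold kap
  cases τ
  · simp only [Bool.false_eq_true, if_false]; omega
  · simp only [if_true]; omega

/-- The strands of the model in the chart. -/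
noncomputable def phi (H : RunD D s0 ph) (h0 : κ0 ≤ kk + 1) (h1 : kk + 2 ≤ κ1) (s : (str c hi D s0 ph kk n1).S) :
    Sd c D s0 κ0 κ1 :=
  thr D c hi (kap kk s.1.1) (n1 : ℤ) 0 s.1.2 (kap_le h0 h1 _).1 (kap_le h0 h1 _).2 (by
    have h := st_zero (c := c) (hi := hi) (n1 := n1) (kk := kk) H s.1.1 0
    rw [Nat.cast_zero, add_zero] at h
    rw [h]
    exact s.2)

variable {H : RunD D s0 ph} {h0 : κ0 ≤ kk + 1} {h1 : kk + 2 ≤ κ1}

theorem phi_lab (s : (str c hi D s0 ph kk n1).S) : (phi H h0 h1 s).1.1 = kap kk s.1.1 := rfl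

theorem phi_inj : Function.Injective (phi (c := c) (hi := hi) (n1 := n1) H h0 h1) := by
  intro s s' h
  have h2 := congrArg (fun z : Sd c D s0 κ0 κ1 => z.1.1) h
  have h3 : kap kk s.1.1 = kap kk s'.1.1 := h2
  have h4 : s.1.1 = s'.1.1 := by
    unfold kap at h3
    revert h3
    cases s.1.1 <;> cases s'.1.1 <;> simp
  have h5 := thr_mul (κ := kap kk s.1.1) (m := (n1 : ℤ)) (r := 0) (y := s.1.2) D c hi (kap_le h0 h1 _).1 (kap_le h0 h1 _).2
    (by
      have h := st_zero (c := c) (hi := hi) (n1 := n1) (kk := kk) H s.1.1 0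
      rw [Nat.cast_zero, add_zero] at h
      rw [h]
      exact s.2)
  have h6 := thr_mul (κ := kap kk s'.1.1) (m := (n1 : ℤ)) (r := 0) (y := s'.1.2) D c hi (kap_le h0 h1 _).1 (kap_le h0 h1 _).2
    (by
      have h := st_zero (c := c) (hi := hi) (n1 := n1) (kk := kk) H s'.1.1 0
      rw [Nat.cast_zero, add_zero] at h
      rw [h]
      exact s'.2)
  refine Subtype.ext (Prod.ext h4 ?_)
  rw [← h5, ← h6]
  have h7 := congrArg (fun z : Sd c D s0 κ0 κ1 => z.1.2) h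
  have h8 : (phi H h0 h1 s).1.2 = (phi H h0 h1 s').1.2 := h7
  show (phi H h0 h1 s).1.2 * D.pos (qq B l) s0 (kap kk s.1.1) n1 0 = (phi H h0 h1 s').1.2 * D.pos (qq B l) s0 (kap kk s'.1.1) n1 0
  rw [h8, h3]

theorem Z_gate (m : ℕ) (s : Sd c D s0 κ0 κ1) : (D.chart c s0 κ0 κ1).Z (m + 1) s 0 =
    (D.chart c s0 κ0 κ1).Z m s ((D.chart c s0 κ0 κ1).h m s) * B.q (l .t) := by
  show s.1.2 * D.pos (qq B l) s0 s.1.1 ((m + 1 : ℕ) : ℤ) 0 =
    s.1.2 * D.pos (qq B l) s0 s.1.1 m (D.ln s.1.1 (s0 + m)) * _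
  rw [Nat.cast_add, Nat.cast_one, D.pos_up, ← mul_assoc]
  rfl

theorem Z_lw (m : ℕ) (s : Sd c D s0 κ0 κ1) (r : ℕ) : (D.chart c s0 κ0 κ1).Z m s r =
    (D.chart c s0 κ0 κ1).Z m s 0 * Bd.lw (qq B l) (D.b (s0 + m)) r := by
  show s.1.2 * (gz (D.stp (qq B l) s.1.1) s0 m * Bd.lw (qq B l) (D.b (s0 + m)) r) =
    s.1.2 * (gz (D.stp (qq B l) s.1.1) s0 m * Bd.lw (qq B l) (D.b (s0 + m)) 0) * _
  rw [Bd.lw_zero, mul_one, mul_assoc]

theorem cast_add' (n1 n : ℕ) : s0 + ((n1 + n : ℕ) : ℤ) = s0 + n1 + n := by push_cast; ring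

/-- The upper end, given the lower end. -/
theorem Z_up_of (n : ℕ) (s : (str c hi D s0 ph kk n1).S)
    (hz : (D.chart c s0 κ0 κ1).Z (n1 + n) (phi H h0 h1 s) 0 = (str c hi D s0 ph kk n1).lo n s) :
    (D.chart c s0 κ0 κ1).Z (n1 + n) (phi H h0 h1 s) ((D.chart c s0 κ0 κ1).h (n1 + n) (phi H h0 h1 s)) =
      (str c hi D s0 ph kk n1).up n s := by
  obtain ⟨h, hh, e1, e2⟩ := ln_kap (c := c) (hi := hi) (kk := kk) (n1 := n1) H s.1.1 n
  rw [Z_lw, hz]
  show _ * Bd.lw (qq B l) (D.b (s0 + ((n1 + n : ℕ) : ℤ))) (D.ln (kap kk s.1.1) (s0 + ((n1 + n : ℕ) : ℤ))) =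
    (str c hi D s0 ph kk n1).lo n s * (str c hi D s0 ph kk n1).lw s.1.1 n
  have hqq : ∀ i, qq B l i * qq B l i = 1 := q_sq hi
  rw [cast_add', e1, lw_full hqq _ h hh]
  congr 1
  unfold Str.lw
  rw [str_W H]
  by_cases hb : D.b (s0 + n1 + n) = true
  · rw [if_pos hb, if_pos hb]
    show (qq B l .a * qq B l .b) ^ (-(h : ℤ)) * qq B l .a = (qq B l .a * qq B l .b) ^ _ * qq B l .a
    congr 2
    rw [e2]
    ring
  · rw [if_neg hb, if_neg hb]
    show (qq B l .a * qq B l .b) ^ ((h : ℤ) - 1) * qq B l .a = (qq B l .a * qq B l .b) ^ _ * qq B l .a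
    congr 2
    rw [e2]

theorem Z_lo (n : ℕ) (s : (str c hi D s0 ph kk n1).S) :
    (D.chart c s0 κ0 κ1).Z (n1 + n) (phi H h0 h1 s) 0 = (str c hi D s0 ph kk n1).lo n s := by
  induction n with
  | zero =>
    show (D.chart c s0 κ0 κ1).Z n1 (phi H h0 h1 s) 0 = s.1.2 * 1
    rw [mul_one]
    exact thr_Z D c hi (kap_le h0 h1 _).1 (kap_le h0 h1 _).2 _
  | succ n ih =>
    rw [← add_assoc, Z_gate, Z_up_of n s ih, (str c hi D s0 ph kk n1).lo_succ]
    rfl

theorem Z_up (n : ℕ) (s : (str c hi D s0 ph kk n1).S) :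
    (D.chart c s0 κ0 κ1).Z (n1 + n) (phi H h0 h1 s) ((D.chart c s0 κ0 κ1).h (n1 + n) (phi H h0 h1 s)) =
      (str c hi D s0 ph kk n1).up n s := Z_up_of n s (Z_lo n s)

/-- The whites of a line. -/
theorem Z_y (n : ℕ) (s : (str c hi D s0 ph kk n1).S) (j : ℕ) :
    (D.chart c s0 κ0 κ1).Z (n1 + n) (phi H h0 h1 s) (2 * j) =
      Str.Vis.y n s ((str c hi D s0 ph kk n1).ep s.1.1 n + if D.b (s0 + n1 + n) = true then -(j : ℤ) else (j : ℤ)) := by
  have hqq : ∀ i, qq B l i * qq B l i = 1 := q_sq hi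
  rw [Z_lw, Z_lo, cast_add', lw_even hqq]
  unfold Str.Vis.y
  rw [add_sub_cancel_left]
  congr 1
  by_cases hb : D.b (s0 + n1 + n) = true
  · rw [if_pos hb, if_pos hb]; rfl
  · rw [if_neg hb, if_neg hb]; rfl

/-! ### The cut -/

variable (H h0 h1)

/-- The cut strand of the block `b`. -/
noncomputable def cc (K : (str c hi D s0 ph kk n1).Vis) (b : ℕ) : Sd c D s0 κ0 κ1 := phi H h0 h1 (K.c (b - n1))

/-- The number of whites before the start of the cut. -/
noncomputable def jj (K : (str c hi D s0 ph kk n1).Vis) (b : ℕ) : ℕ :=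
  (if (str c hi D s0 ph kk n1).W (b - n1) = true then (D.hw kk : ℤ) - K.ev (b - n1) else K.ev (b - n1)).toNat

/-- The level is aligned. -/
def alg (K : (str c hi D s0 ph kk n1).Vis) (b : ℕ) : Prop := K.lt (b - n1) = (str c hi D s0 ph kk n1).W (b - n1)

noncomputable instance (K : (str c hi D s0 ph kk n1).Vis) (b : ℕ) : Decidable (alg K b) := by unfold alg; infer_instance

/-- The position of the cut. -/
noncomputable def rho (K : (str c hi D s0 ph kk n1).Vis) (b : ℕ) : ℕ := if alg K b then 2 * jj K b - 1 else 2 * jj K b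

variable {H h0 h1}

theorem jj_ran {K : (str c hi D s0 ph kk n1).Vis} {b : ℕ} (hin : 1 ≤ K.ev (b - n1) ∧ K.ev (b - n1) ≤ D.hw kk - 1) :
    1 ≤ jj K b ∧ jj K b + 1 ≤ D.hw kk ∧ ((jj K b : ℕ) : ℤ) =
      if (str c hi D s0 ph kk n1).W (b - n1) = true then (D.hw kk : ℤ) - K.ev (b - n1) else K.ev (b - n1) := by
  unfold jj
  split_ifs <;> omega

theorem Z_v {K : (str c hi D s0 ph kk n1).Vis} {b : ℕ} (hb : n1 ≤ b) (hin : 1 ≤ K.ev (b - n1) ∧ K.ev (b - n1) ≤ D.hw kk - 1) :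
    (D.chart c s0 κ0 κ1).Z b (cc H h0 h1 K b) (2 * jj K b) = K.v (b - n1) := by
  obtain ⟨l', rfl⟩ : ∃ l', b = n1 + l' := ⟨b - n1, by omega⟩
  obtain ⟨-, -, e⟩ := jj_ran hin
  unfold cc
  rw [Nat.add_sub_cancel_left] at e hin ⊢
  rw [Z_y, e, ← str_W (c := c) (hi := hi) (kk := kk) H, ← Str.Vis.y_c K l']
  congr 1
  obtain ⟨hL, hR⟩ := Str.Vis.c_strip K l'
  unfold Str.ep
  by_cases hW : (str c hi D s0 ph kk n1).W l' = true
  · rw [if_pos hW, if_pos hW, if_pos hW, hR]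
    show (D.hw kk : ℤ) + _ = _
    ring
  · rw [if_neg hW, if_neg hW, if_neg hW, hL]
    ring

theorem Z_w {K : (str c hi D s0 ph kk n1).Vis} {b : ℕ} (hb : n1 ≤ b) (hin : 1 ≤ K.ev (b - n1) ∧ K.ev (b - n1) ≤ D.hw kk - 1) :
    K.w (b - n1) = (D.chart c s0 κ0 κ1).Z b (cc H h0 h1 K b) (if alg K b then 2 * jj K b - 1 else 2 * jj K b + 1) := by
  obtain ⟨h2, h3, e⟩ := jj_ran hin
  have hv := Z_v (H := H) (h0 := h0) (h1 := h1) hb hin
  have hW := str_W (c := c) (hi := hi) (kk := kk) (n1 := n1) H (b - n1)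
  have hbb : s0 + (n1 : ℤ) + ((b - n1 : ℕ) : ℤ) = s0 + b := by omega
  rw [hbb] at hW
  have hqq : ∀ i, qq B l i * qq B l i = 1 := q_sq hi
  show K.v (b - n1) * qq B l (if K.lt (b - n1) = true then .a else .b) = _
  by_cases ha : alg K b
  · rw [if_pos ha, ← hv]
    obtain ⟨k, hk⟩ : ∃ k, jj K b = k + 1 := ⟨jj K b - 1, by omega⟩
    have e1 : 2 * jj K b - 1 = 2 * k + 1 := by omega
    have e2 : 2 * jj K b = 2 * k + 1 + 1 := by omega
    have hl : ll (D.b (s0 + b)) (2 * k + 1) = wl (D.b (s0 + b)) := by unfold ll; rw [if_neg (by omega)]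
    rw [e1, e2, Z_lw b _ (2 * k + 1), Z_lw b _ (2 * k + 1 + 1), Bd.lw_succ, hl]
    have hlt : (if K.lt (b - n1) = true then L3.a else .b) = wl (D.b (s0 + b)) := by
      have ha' : K.lt (b - n1) = (str c hi D s0 ph kk n1).W (b - n1) := ha
      rw [ha', hW]
      cases D.b (s0 + b) <;> rfl
    rw [hlt, mul_assoc, mul_assoc, hqq, mul_one]
  · rw [if_neg ha, ← hv, Z_lw b _ (2 * jj K b), Z_lw b _ (2 * jj K b + 1), Bd.lw_succ, mul_assoc]
    have hl : ll (D.b (s0 + b)) (2 * jj K b) = ow (D.b (s0 + b)) := by unfold ll; rw [if_pos (by omega)]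
    have hlt : (if K.lt (b - n1) = true then L3.a else .b) = ow (D.b (s0 + b)) := by
      have ha' : ¬ K.lt (b - n1) = (str c hi D s0 ph kk n1).W (b - n1) := ha
      rw [hW] at ha'
      revert ha'
      cases D.b (s0 + b) <;> cases K.lt (b - n1) <;> simp [ow]
    rw [hl, hlt]

theorem rho_lt {K : (str c hi D s0 ph kk n1).Vis} {b : ℕ} (hb : n1 ≤ b)
    (hin : 1 ≤ K.ev (b - n1) ∧ K.ev (b - n1) ≤ D.hw kk - 1) :
    rho K b < (D.chart c s0 κ0 κ1).h b (cc H h0 h1 K b) := by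
  obtain ⟨h2, h3, e⟩ := jj_ran hin
  obtain ⟨h, hh, e1, e2⟩ := ln_kap (c := c) (hi := hi) (kk := kk) (n1 := n1) H (K.c (b - n1)).1.1 (b - n1)
  obtain ⟨hL, hR⟩ := Str.Vis.c_strip K (b - n1)
  rw [hL, hR] at e2
  have e3 : (h : ℤ) = D.hw kk := by rw [e2]; show (D.hw kk : ℤ) - 0 = _; ring
  have hbb : s0 + (n1 : ℤ) + ((b - n1 : ℕ) : ℤ) = s0 + b := by omega
  rw [hbb] at e1
  show rho K b < D.ln (kap kk (K.c (b - n1)).1.1) (s0 + b)
  rw [e1]
  unfold rho
  split_ifs <;> omega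

/-! ### The cosets -/

section coset

variable {G1 : Subgroup Q}

theorem lw_mem1 (hG : ∀ i, qq B l i ∈ G1) (b : Bool) (r : ℕ) : Bd.lw (qq B l) b r ∈ G1 := by
  induction r with
  | zero => exact G1.one_mem
  | succ r ih => rw [Bd.lw_succ]; exact G1.mul_mem ih (hG _)

theorem gz_mem1 {f : ℤ → Q} (hf : ∀ i, f i ∈ G1) (m n : ℤ) : gz f m n ∈ G1 := by
  have key : ∀ (m : ℤ) (n : ℕ), H20.pr f m n ∈ G1 := by
    intro m n
    induction n with
    | zero => exact G1.one_mem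
    | succ n ih => exact G1.mul_mem ih (hf _)
  unfold gz
  split_ifs
  · exact key _ _
  · exact G1.inv_mem (key _ _)

theorem pos_mem1 (hG : ∀ i, qq B l i ∈ G1) (κ m : ℤ) (r : ℕ) : D.pos (qq B l) s0 κ m r ∈ G1 :=
  G1.mul_mem (gz_mem1 (fun _ => G1.mul_mem (lw_mem1 hG _ _) (hG _)) _ _) (lw_mem1 hG _ _)

/-- The vertices of a strand are in one coset. -/
theorem Z_mem1 (hG : ∀ i, qq B l i ∈ G1) (X : Q) (m : ℕ) (s : Sd c D s0 κ0 κ1) (r : ℕ) :
    X⁻¹ * (D.chart c s0 κ0 κ1).Z m s r ∈ G1 ↔ X⁻¹ * s.1.2 ∈ G1 := by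
  have h := pos_mem1 (D := D) (s0 := s0) hG s.1.1 m r
  show X⁻¹ * (s.1.2 * D.pos (qq B l) s0 s.1.1 m r) ∈ G1 ↔ _
  rw [← mul_assoc]
  exact G1.mul_mem_cancel_right h

/-- The vertices of a visit are in one coset. -/
theorem v_mem1 (hG : ∀ i, qq B l i ∈ G1) {X : Q} (K : (str c hi D s0 ph kk n1).Vis) (h : X⁻¹ * K.v0 ∈ G1) (n : ℕ) :
    X⁻¹ * K.v n ∈ G1 ∧ X⁻¹ * K.w n ∈ G1 := by
  have key : ∀ n, X⁻¹ * K.v n ∈ G1 := by
    intro n
    induction n with
    | zero => exact h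
    | succ n ih =>
      show X⁻¹ * (K.v n * qq B l (if K.lt n = true then .a else .b) * qq B l .t) ∈ G1
      rw [← mul_assoc, ← mul_assoc]
      exact G1.mul_mem (G1.mul_mem ih (hG _)) (hG _)
  refine ⟨key n, ?_⟩
  show X⁻¹ * (K.v n * qq B l (if K.lt n = true then .a else .b)) ∈ G1
  rw [← mul_assoc]
  exact G1.mul_mem (key n) (hG _)

/-- The cut strands are in one coset. -/
theorem cc_mem1 (hG : ∀ i, qq B l i ∈ G1) {X : Q} (K : (str c hi D s0 ph kk n1).Vis) (h : X⁻¹ * K.v0 ∈ G1) (b : ℕ) :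
    X⁻¹ * (cc H h0 h1 K b).1.2 ∈ G1 := by
  rw [← Z_mem1 (c := c) (κ0 := κ0) (κ1 := κ1) hG X (n1 + (b - n1)) (cc H h0 h1 K b) 0]
  unfold cc
  rw [Z_lo, Str.Vis.lo_c]
  show X⁻¹ * (K.v (b - n1) * ((qq B l .a) * (qq B l .b)) ^ _) ∈ G1
  rw [← mul_assoc]
  exact G1.mul_mem (v_mem1 hG K h _).1 (G1.zpow_mem (G1.mul_mem (hG _) (hG _)) _)

end coset

/-! ### The zone -/

open FT H22

variable {E : Q → Q → Prop} {bt tp : Sd c D s0 κ0 κ1 → ℕ} {v0 : Q} {e0 : ℤ}
  {hv0 : (str c hi D s0 ph kk n1).Ov v0 ((str c hi D s0 ph kk n1).wh 0 e0)} {u : ℕ} {i : Bool} {j x : ℕ}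

/-- The chart of some strands. -/
def res {V S : Type*} (C : Chart V S) (P : S → Prop) : Chart V {s // P s} where
  Z m s r := C.Z m s.1 r
  h m s := C.h m s.1

variable {P : Sd c D s0 κ0 κ1 → Prop} {btP tpP : {s // P s} → ℕ}

/-- The zone of a visit in the chart of some strands (for instance the strands of a coset), all fields of the cut are automatic. -/
theorem mkZoneP {K : (str c hi D s0 ph kk n1).Vis} {n : ℕ} (hP : ∀ b, P (cc H h0 h1 K b)) (sym : ∀ x y, E x y → E y x)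
    (bo1 : ∀ s, btP s < n1) (to2 : ∀ s, n1 + n < tpP s)
    (line : ∀ m s r, btP s ≤ m → m ≤ tpP s → r < (D.chart c s0 κ0 κ1).h m s.1 →
      ¬ (n1 ≤ m ∧ m ≤ n1 + n ∧ s.1 = cc H h0 h1 K m ∧ r = rho K m) →
      E ((D.chart c s0 κ0 κ1).Z m s.1 r) ((D.chart c s0 κ0 κ1).Z m s.1 (r + 1)))
    (gate : ∀ m s, btP s ≤ m → m < tpP s →
      E ((D.chart c s0 κ0 κ1).Z m s.1 ((D.chart c s0 κ0 κ1).h m s.1)) ((D.chart c s0 κ0 κ1).Z (m + 1) s.1 0))
    (new : ∀ l < n, E (K.w l) (K.v (l + 1))) (hin : ∀ l ≤ n, 1 ≤ K.ev l ∧ K.ev l ≤ D.hw kk - 1) :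
    Zone E (res (D.chart c s0 κ0 κ1) P) btP tpP n1 (n1 + n) (fun b => ⟨cc H h0 h1 K b, hP b⟩) (rho K) (alg K)
      (fun m => K.v (m - n1)) (fun m => K.w (m - n1)) where
  sym := sym
  le := by omega
  bo1 := bo1
  to2 := to2
  line m s r h2 h3 h4 h5 := line m s r h2 h3 h4 fun h6 => h5 ⟨h6.1, h6.2.1, Subtype.ext h6.2.2.1, h6.2.2.2⟩
  gate := gate
  cut m h2 h3 := rho_lt (H := H) (h0 := h0) (h1 := h1) h2 (hin _ (by omega))
  al1 m h2 h3 ha := by
    have h4 := Z_w (H := H) (h0 := h0) (h1 := h1) h2 (hin (m - n1) (by omega))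
    have h5 := Z_v (H := H) (h0 := h0) (h1 := h1) h2 (hin (m - n1) (by omega))
    obtain ⟨h6, -, -⟩ := jj_ran (hin (m - n1) (by omega))
    rw [if_pos ha] at h4
    unfold rho
    rw [if_pos ha]
    refine ⟨h4, ?_⟩
    rw [← h5]
    show (D.chart c s0 κ0 κ1).Z m (cc H h0 h1 K m) (2 * jj K m) = (D.chart c s0 κ0 κ1).Z m (cc H h0 h1 K m) (2 * jj K m - 1 + 1)
    congr 1
    omega
  na1 m h2 h3 ha := by
    have h4 := Z_w (H := H) (h0 := h0) (h1 := h1) h2 (hin (m - n1) (by omega))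
    have h5 := Z_v (H := H) (h0 := h0) (h1 := h1) h2 (hin (m - n1) (by omega))
    rw [if_neg ha] at h4
    unfold rho
    rw [if_neg ha]
    exact ⟨h5.symm, h4⟩
  new m h2 h3 := by
    have h4 := new (m - n1) (by omega)
    have e : m - n1 + 1 = m + 1 - n1 := by omega
    rwa [e] at h4

/-- The zone of a visit, all fields of the cut are automatic. -/
theorem mkZone {K : (str c hi D s0 ph kk n1).Vis} {n : ℕ} (sym : ∀ x y, E x y → E y x) (bo1 : ∀ s, bt s < n1)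
    (to2 : ∀ s, n1 + n < tp s)
    (line : ∀ m s r, bt s ≤ m → m ≤ tp s → r < (D.chart c s0 κ0 κ1).h m s →
      ¬ (n1 ≤ m ∧ m ≤ n1 + n ∧ s = cc H h0 h1 K m ∧ r = rho K m) →
      E ((D.chart c s0 κ0 κ1).Z m s r) ((D.chart c s0 κ0 κ1).Z m s (r + 1)))
    (gate : ∀ m s, bt s ≤ m → m < tp s →
      E ((D.chart c s0 κ0 κ1).Z m s ((D.chart c s0 κ0 κ1).h m s)) ((D.chart c s0 κ0 κ1).Z (m + 1) s 0))
    (new : ∀ l < n, E (K.w l) (K.v (l + 1))) (hin : ∀ l ≤ n, 1 ≤ K.ev l ∧ K.ev l ≤ D.hw kk - 1) :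
    Zone E (D.chart c s0 κ0 κ1) bt tp n1 (n1 + n) (cc H h0 h1 K) (rho K) (alg K) (fun m => K.v (m - n1))
      (fun m => K.w (m - n1)) where
  sym := sym
  le := by omega
  bo1 := bo1
  to2 := to2
  line := line
  gate := gate
  cut m h2 h3 := rho_lt h2 (hin _ (by omega))
  al1 m h2 h3 ha := by
    have h4 := Z_w (H := H) (h0 := h0) (h1 := h1) h2 (hin (m - n1) (by omega))
    have h5 := Z_v (H := H) (h0 := h0) (h1 := h1) h2 (hin (m - n1) (by omega))
    obtain ⟨h6, -, -⟩ := jj_ran (hin (m - n1) (by omega))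
    rw [if_pos ha] at h4
    unfold rho
    rw [if_pos ha]
    refine ⟨h4, ?_⟩
    rw [← h5]
    congr 1
    omega
  na1 m h2 h3 ha := by
    have h4 := Z_w (H := H) (h0 := h0) (h1 := h1) h2 (hin (m - n1) (by omega))
    have h5 := Z_v (H := H) (h0 := h0) (h1 := h1) h2 (hin (m - n1) (by omega))
    rw [if_neg ha] at h4
    unfold rho
    rw [if_neg ha]
    exact ⟨h5.symm, h4⟩
  new m h2 h3 := by
    have h4 := new (m - n1) (by omega)
    have e : m - n1 + 1 = m + 1 - n1 := by omega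
    rwa [e] at h4

theorem visK_in (he1 : 2 ≤ e0) (he2 : e0 + 2 ≤ D.hw kk) (hj : j ≤ 1) : ∀ l ≤ x * u + j,
    1 ≤ (Str.Vis.visK v0 e0 hv0 u i x).ev l ∧ (Str.Vis.visK v0 e0 hv0 u i x).ev l ≤ D.hw kk - 1 := by
  intro l hl
  rcases Nat.lt_or_ge (x * u) l with h | h
  · have e : l = x * u + 1 := by omega
    subst e
    show 1 ≤ (Str.Vis.visK v0 e0 hv0 u i x).ev (x * u) + _ - _ ∧ (Str.Vis.visK v0 e0 hv0 u i x).ev (x * u) + _ - _ ≤ _
    rw [Str.Vis.visK_ev le_rfl]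
    split_ifs <;> omega
  · rw [Str.Vis.visK_ev h]
    omega

/-- The end of a strand in the zone. -/
def tz {S : Type*} (C : Chart Q S) (bt tp : S → ℕ) (p : S × Bool) : Q :=
  if p.2 = true then C.Z (tp p.1) p.1 (C.h (tp p.1) p.1) else C.Z (bt p.1) p.1 0

/-- THE ZONE, conclusion, for the chart of some strands. -/
theorem zone_concP [DecidableEq (str c hi D s0 ph kk n1).S] (hj : j = 0 ∨ j = 1)
    (hP : ∀ b, P (cc H h0 h1 (Str.Vis.visK v0 e0 hv0 u i x) b))
    (hZ : Zone E (res (D.chart c s0 κ0 κ1) P) btP tpP n1 (n1 + (x * u + j))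
      (fun b => ⟨cc H h0 h1 (Str.Vis.visK v0 e0 hv0 u i x) b, hP b⟩)
      (rho (Str.Vis.visK v0 e0 hv0 u i x)) (alg (Str.Vis.visK v0 e0 hv0 u i x))
      (fun m => (Str.Vis.visK v0 e0 hv0 u i x).v (m - n1)) (fun m => (Str.Vis.visK v0 e0 hv0 u i x).w (m - n1)))
    (hg : Str.Vis.Good v0 e0 hv0 u i j x) :
    (∃ p q : {s // P s} × Bool, p ≠ q ∧
      Cn E (Zv (res (D.chart c s0 κ0 κ1) P) btP tpP) v0 (tz (res (D.chart c s0 κ0 κ1) P) btP tpP p) ∧
      Cn E (Zv (res (D.chart c s0 κ0 κ1) P) btP tpP) ((Str.Vis.visK v0 e0 hv0 u i x).w (x * u + j))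
        (tz (res (D.chart c s0 κ0 κ1) P) btP tpP q)) ∧
      ∀ z ∈ Zv (res (D.chart c s0 κ0 κ1) P) btP tpP, Zone.End E (res (D.chart c s0 κ0 κ1) P) btP tpP z := by
  classical
  set K := Str.Vis.visK v0 e0 hv0 u i x with hK
  set C := res (D.chart c s0 κ0 κ1) P with hC
  set cP : ℕ → {s // P s} := fun b => ⟨cc H h0 h1 K b, hP b⟩ with hcP
  have hV := hZ.visit
  have hn : n1 + (x * u + j) - n1 + 1 = x * u + j + 1 := by omega
  rw [hn] at hV
  have hinj := phi_inj (c := c) (hi := hi) (n1 := n1) (H := H) (h0 := h0) (h1 := h1)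
  have ha : ∀ l < x * u, alg K (n1 + l) := by
    intro l hl
    unfold alg
    rw [Nat.add_sub_cancel_left]
    exact if_pos hl
  have ha' : ∀ l, x * u ≤ l → (alg K (n1 + l) ↔ i = (str c hi D s0 ph kk n1).W l) := by
    intro l hl
    unfold alg
    rw [Nat.add_sub_cancel_left]
    have : K.lt l = i := if_neg (by omega)
    rw [this]
  have ecc : (fun l => (cP (n1 + l)).1) = fun l => phi H h0 h1 (K.c l) := by
    funext l
    show cc H h0 h1 K (n1 + l) = _
    unfold cc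
    rw [Nat.add_sub_cancel_left]
  have hg' : gp (fun l => cP (n1 + l)) (x * u) none ≠ some (cP (n1 + (x * u + j))) := by
    intro h4
    have h2 := gp_map (φ := (Subtype.val : {s // P s} → Sd c D s0 κ0 κ1)) Subtype.val_injective (fun l => cP (n1 + l))
      (x * u) none
    have h3 := gp_map hinj K.c (x * u) none
    rw [Option.map_none] at h2 h3
    rw [ecc, h3, h4] at h2
    have e2 : (cP (n1 + (x * u + j))).1 = phi H h0 h1 (K.c (x * u + j)) := congrFun ecc (x * u + j)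
    rw [Option.map_some, e2, ← Option.map_some] at h2
    exact hg (Option.map_injective hinj h2)
  have hd : j = 1 → (alg K (n1 + x * u) ↔ alg K (n1 + (x * u + 1))) → cP (n1 + x * u) ≠ cP (n1 + (x * u + 1)) := by
    intro _ h3 h4
    rw [ha' _ le_rfl, ha' _ (by omega)] at h3
    have h5 : (str c hi D s0 ph kk n1).W (x * u) = (str c hi D s0 ph kk n1).W (x * u + 1) := by
      revert h3
      cases i <;> cases (str c hi D s0 ph kk n1).W (x * u) <;> cases (str c hi D s0 ph kk n1).W (x * u + 1) <;> simp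
    have h6 : phi H h0 h1 (K.c (x * u)) = phi H h0 h1 (K.c (x * u + 1)) := by
      rw [← congrFun ecc (x * u), ← congrFun ecc (x * u + 1)]
      exact congrArg Subtype.val h4
    exact Str.Vis.isA_ne h5 (congrArg (fun s : (str c hi D s0 ph kk n1).S => s.1.1) (hinj h6))
  have hEnds : Ends (Zone.R E C btP tpP) (fun l s => C.Z (n1 + l) s 0) (fun l s => C.Z (n1 + l) s (C.h (n1 + l) s))
      (x * u + j + 1) v0 (K.w (x * u + j)) ∧
      ∀ l < x * u + j + 1, ∀ s, Visit.Term (Zone.R E C btP tpP) (fun l s => C.Z (n1 + l) s 0)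
        (fun l s => C.Z (n1 + l) s (C.h (n1 + l) s)) (x * u + j + 1) (C.Z (n1 + l) s 0) ∧
        Visit.Term (Zone.R E C btP tpP) (fun l s => C.Z (n1 + l) s 0) (fun l s => C.Z (n1 + l) s (C.h (n1 + l) s))
          (x * u + j + 1) (C.Z (n1 + l) s (C.h (n1 + l) s)) := by
    have ev : K.v (n1 + 0 - n1) = v0 := by rw [Nat.add_sub_cancel_left]; rfl
    rcases hj with rfl | rfl
    · have h3 := hV.ends_one' ha hg'
      have ew : K.w (n1 + x * u - n1) = K.w (x * u + 0) := by rw [Nat.add_sub_cancel_left]; rfl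
      simp only [← hK, ev, ew] at h3
      exact ⟨h3, hV.all_one ha hg'⟩
    · have h3 := hV.ends_two' ha hg' (hd rfl)
      have ew : K.w (n1 + (x * u + 1) - n1) = K.w (x * u + 1) := by rw [Nat.add_sub_cancel_left]
      simp only [← hK, ev, ew] at h3
      exact ⟨h3, hV.all_two ha hg' (hd rfl)⟩
  obtain ⟨⟨p, q, hpq, hp, hq⟩, hT⟩ := hEnds
  have htv : ∀ p : {s // P s} × Bool, Zone.R E C btP tpP (tv (fun l s => C.Z (n1 + l) s 0)
      (fun l s => C.Z (n1 + l) s (C.h (n1 + l) s)) (x * u + j + 1) p) (tz C btP tpP p) := by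
    rintro ⟨s, b⟩
    unfold tv tz
    have hb1 := hZ.bo1 s
    have ht2 := hZ.to2 s
    cases b
    · rw [if_neg (by simp), if_neg (by simp)]
      exact hZ.to_bot s (n1 + 0) (by omega) (by omega) 0 (Nat.zero_le _) (Or.inr rfl)
    · rw [if_pos rfl, if_pos rfl]
      exact hZ.to_top s (tpP s - (n1 + (x * u + j))) (n1 + (x * u + j + 1 - 1)) (by omega) (by omega) _ le_rfl
        (Or.inr rfl)
  refine ⟨⟨p, q, hpq, ?_, ?_⟩, hZ.all ?_⟩
  · exact Cn.trans' hp (htv p)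
  · exact Cn.trans' hq (htv q)
  · rw [hn]
    exact hT

/-- THE ZONE, conclusion. -/
theorem zone_conc [DecidableEq (str c hi D s0 ph kk n1).S] [DecidableEq (Sd c D s0 κ0 κ1)] (hj : j = 0 ∨ j = 1)
    (hZ : Zone E (D.chart c s0 κ0 κ1) bt tp n1 (n1 + (x * u + j)) (cc H h0 h1 (Str.Vis.visK v0 e0 hv0 u i x))
      (rho (Str.Vis.visK v0 e0 hv0 u i x)) (alg (Str.Vis.visK v0 e0 hv0 u i x))
      (fun m => (Str.Vis.visK v0 e0 hv0 u i x).v (m - n1)) (fun m => (Str.Vis.visK v0 e0 hv0 u i x).w (m - n1)))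
    (hg : Str.Vis.Good v0 e0 hv0 u i j x) :
    (∃ p q : Sd c D s0 κ0 κ1 × Bool, p ≠ q ∧
      Cn E (Zv (D.chart c s0 κ0 κ1) bt tp) v0 (tz (D.chart c s0 κ0 κ1) bt tp p) ∧
      Cn E (Zv (D.chart c s0 κ0 κ1) bt tp) ((Str.Vis.visK v0 e0 hv0 u i x).w (x * u + j))
        (tz (D.chart c s0 κ0 κ1) bt tp q)) ∧
      ∀ z ∈ Zv (D.chart c s0 κ0 κ1) bt tp, Zone.End E (D.chart c s0 κ0 κ1) bt tp z := by
  set K := Str.Vis.visK v0 e0 hv0 u i x with hK
  set C := D.chart c s0 κ0 κ1 with hC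
  have hV := hZ.visit
  have hn : n1 + (x * u + j) - n1 + 1 = x * u + j + 1 := by omega
  rw [hn] at hV
  have hinj := phi_inj (c := c) (hi := hi) (n1 := n1) (H := H) (h0 := h0) (h1 := h1)
  have ha : ∀ l < x * u, alg K (n1 + l) := by
    intro l hl
    unfold alg
    rw [Nat.add_sub_cancel_left]
    exact if_pos hl
  have ha' : ∀ l, x * u ≤ l → (alg K (n1 + l) ↔ i = (str c hi D s0 ph kk n1).W l) := by
    intro l hl
    unfold alg
    rw [Nat.add_sub_cancel_left]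
    have : K.lt l = i := if_neg (by omega)
    rw [this]
  have ecc : (fun l => cc H h0 h1 K (n1 + l)) = fun l => phi H h0 h1 (K.c l) := by
    funext l
    unfold cc
    rw [Nat.add_sub_cancel_left]
  have hg' : gp (fun l => cc H h0 h1 K (n1 + l)) (x * u) none ≠ some (cc H h0 h1 K (n1 + (x * u + j))) := by
    have h3 := gp_map hinj K.c (x * u) none
    rw [Option.map_none] at h3
    rw [ecc, h3]
    have e2 : cc H h0 h1 K (n1 + (x * u + j)) = phi H h0 h1 (K.c (x * u + j)) := congrFun ecc (x * u + j)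
    rw [e2, ← Option.map_some]
    intro h4
    exact hg (Option.map_injective hinj h4)
  have hd : j = 1 → (alg K (n1 + x * u) ↔ alg K (n1 + (x * u + 1))) →
      cc H h0 h1 K (n1 + x * u) ≠ cc H h0 h1 K (n1 + (x * u + 1)) := by
    intro _ h3 h4
    rw [ha' _ le_rfl, ha' _ (by omega)] at h3
    have h5 : (str c hi D s0 ph kk n1).W (x * u) = (str c hi D s0 ph kk n1).W (x * u + 1) := by
      revert h3
      cases i <;> cases (str c hi D s0 ph kk n1).W (x * u) <;> cases (str c hi D s0 ph kk n1).W (x * u + 1) <;> simp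
    have h6 : phi H h0 h1 (K.c (x * u)) = phi H h0 h1 (K.c (x * u + 1)) := by
      rw [← congrFun ecc (x * u), ← congrFun ecc (x * u + 1)]
      exact h4
    exact Str.Vis.isA_ne h5 (congrArg (fun s : (str c hi D s0 ph kk n1).S => s.1.1) (hinj h6))
  have hEnds : Ends (Zone.R E C bt tp) (fun l s => C.Z (n1 + l) s 0) (fun l s => C.Z (n1 + l) s (C.h (n1 + l) s))
      (x * u + j + 1) v0 (K.w (x * u + j)) ∧
      ∀ l < x * u + j + 1, ∀ s, Visit.Term (Zone.R E C bt tp) (fun l s => C.Z (n1 + l) s 0)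
        (fun l s => C.Z (n1 + l) s (C.h (n1 + l) s)) (x * u + j + 1) (C.Z (n1 + l) s 0) ∧
        Visit.Term (Zone.R E C bt tp) (fun l s => C.Z (n1 + l) s 0) (fun l s => C.Z (n1 + l) s (C.h (n1 + l) s))
          (x * u + j + 1) (C.Z (n1 + l) s (C.h (n1 + l) s)) := by
    have ev : K.v (n1 + 0 - n1) = v0 := by rw [Nat.add_sub_cancel_left]; rfl
    rcases hj with rfl | rfl
    · have h3 := hV.ends_one' ha hg'
      have ew : K.w (n1 + x * u - n1) = K.w (x * u + 0) := by rw [Nat.add_sub_cancel_left]; rfl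
      simp only [ev, ew] at h3
      exact ⟨h3, hV.all_one ha hg'⟩
    · have h3 := hV.ends_two' ha hg' (hd rfl)
      have ew : K.w (n1 + (x * u + 1) - n1) = K.w (x * u + 1) := by rw [Nat.add_sub_cancel_left]
      simp only [ev, ew] at h3
      exact ⟨h3, hV.all_two ha hg' (hd rfl)⟩
  obtain ⟨⟨p, q, hpq, hp, hq⟩, hT⟩ := hEnds
  have htv : ∀ p : Sd c D s0 κ0 κ1 × Bool, Zone.R E C bt tp (tv (fun l s => C.Z (n1 + l) s 0)
      (fun l s => C.Z (n1 + l) s (C.h (n1 + l) s)) (x * u + j + 1) p) (tz C bt tp p) := by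
    rintro ⟨s, b⟩
    unfold tv tz
    have hb1 := hZ.bo1 s
    have ht2 := hZ.to2 s
    cases b
    · rw [if_neg (by simp), if_neg (by simp)]
      exact hZ.to_bot s (n1 + 0) (by omega) (by omega) 0 (Nat.zero_le _) (Or.inr rfl)
    · rw [if_pos rfl, if_pos rfl]
      exact hZ.to_top s (tp s - (n1 + (x * u + j))) (n1 + (x * u + j + 1 - 1)) (by omega) (by omega) _ le_rfl
        (Or.inr rfl)
  refine ⟨⟨p, q, hpq, ?_, ?_⟩, hZ.all ?_⟩
  · exact Cn.trans' hp (htv p)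
  · exact Cn.trans' hq (htv q)
  · rw [hn]
    exact hT

end plane

end Pool.Agent.Lib.MP_688fd0_co.SQ5.H12
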